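import Pool.Agent.Helper98.Arr.Engine
import Pool.Agent.Helper31.Toric.Decomp

/-!
# ACC for the complementary thresholds

Plan. Let `t` be strictly increasing in `thresholds d E Γ₁ Γ₂`; choose the data. `c m ≤ d`, so
`c m = c` for infinitely many `m`; replace the sequence by this subsequence (then also
`n m = d - c`). As in `acc_thresholds` (Pool/Agent/Helper31/Toric/Main.lean) choose real
`σ m ≥ 0` with `t m < ofReal (σ m) < t (m + 1)`; `σ 0 > 0`, and `σ 0 ≤ σ m` for all `m`. The pair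
`m` is not complementary at the level `b + σ m * M`, and complementary at the levels
`b + σ a * M` for `a < m`. `Fam`: `B m i = b m i + σ m * μ m i`, `G a m i = b m i + σ a * μ m i`,
`Z m i = (b m i = 0 ∧ μ m i = 0)`, `c₀ = min β (σ 0 * γ)`, where `β, γ > 0` are lower bounds of
the positive elements of `Γ₁`, `Γ₂` (`DCC.exists_min` in Pool/Agent/Helper31/Toric/Decomp.lean,
or directly). `hsel`: `mono_subseq_finset` for `ε`, `b (φ m) (e m i)`, `μ (φ m) (e m i)` with the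
DCC sets `E`, `insert 0 Γ₁`, `insert 0 Γ₂` (`DCC` of this file and of Helper31 have the same
body); then `B a = b a + σ a μ a ≤ b b' + σ a μ b' = G a b'` for `a ≤ b'`.
-/

open Finset Filter Topology
open scoped ENNReal

namespace Pool.Agent.Helper98.Arr

private theorem compl_mono {n s r : ℕ} {c : ℕ} {ε : ℝ} {v : Fin r → Fin n → ℤ}
    {w : Fin r → Fin s → ℕ} {b b' : Fin r → ℝ} (h : Complementary c ε v w b')
    (hb : ∀ i, b i ≤ b' i) : Complementary c ε v w b := by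
  obtain ⟨U, hU1, hU2⟩ := h
  exact ⟨U, fun p hp => ⟨fun i => ((hU1 p hp).1 i).trans (by linarith [hb i]), (hU1 p hp).2⟩,
    hU2⟩

private theorem dcc_insert {Γ : Set ℝ} (h : DCC Γ) :
    Pool.Agent.Helper31.Toric.DCC (insert 0 Γ) := by
  rintro ⟨f, hf, hmem⟩
  by_cases h0 : ∃ n0, f n0 = 0
  · obtain ⟨n0, hn0⟩ := h0
    apply h
    refine ⟨fun n => f (n0 + 1 + n), fun a b hab => hf (by omega), fun n => ?_⟩
    have h1 : f (n0 + 1 + n) < f n0 := hf (by omega)
    rcases hmem (n0 + 1 + n) with h2 | h2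
    · rw [h2, hn0] at h1
      exact absurd h1 (lt_irrefl _)
    · exact h2
  · push Not at h0
    apply h
    refine ⟨f, hf, fun n => ?_⟩
    rcases hmem n with h2 | h2
    · exact absurd h2 (h0 n)
    · exact h2

private theorem exists_lower {Γ : Set ℝ} (h : DCC Γ) :
    ∃ β : ℝ, 0 < β ∧ ∀ x ∈ Γ, 0 < x → β ≤ x := by
  by_cases hex : ∃ x ∈ Γ, 0 < x
  · have h' : Pool.Agent.Helper31.Toric.DCC Γ := h
    obtain ⟨x, _, hx2, hx3⟩ := h'.exists_min (fun x => 0 < x) hex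
    exact ⟨x, hx2, hx3⟩
  · push Not at hex
    exact ⟨1, one_pos, fun x hx hx0 => absurd hx0 (not_lt.mpr (hex x hx))⟩

theorem acc_thresholds (d : ℕ) {E Γ₁ Γ₂ : Set ℝ} (hE : DCC E) (h1 : DCC Γ₁) (h2 : DCC Γ₂) :
    ACC (thresholds d E Γ₁ Γ₂) := by
  classical
  rintro ⟨t, ht, hmem⟩
  -- a common `c`
  have hP : ∀ m, ∃ c, c ≤ d ∧ ∃ ε ∈ E, ∃ (s r : ℕ) (v : Fin r → Fin (d - c) → ℤ)
      (w : Fin r → Fin s → ℕ) (b μ : Fin r → ℝ), IsData c v w ∧ 0 ≤ ε ∧
      (∀ i, (b i = 0 ∨ b i ∈ Γ₁) ∧ 0 ≤ b i) ∧ (∀ i, (μ i = 0 ∨ μ i ∈ Γ₂) ∧ 0 ≤ μ i) ∧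
      Complementary c ε v w b ∧ t m = threshold c ε v w b μ := by
    intro m
    obtain ⟨ε, hε, n, c, s, r, v, w, b, μ, hnc, h3⟩ := hmem m
    have hn : n = d - c := by omega
    subst hn
    exact ⟨c, by omega, ε, hε, s, r, v, w, b, μ, h3⟩
  choose c hcd hP' using hP
  obtain ⟨C, hC⟩ : ∃ C : ℕ, ∃ᶠ m in atTop, c m = C := by
    by_contra hcon
    push Not at hcon
    have h3 : ∀ᶠ m in atTop, ∀ C ∈ Finset.range (d + 1), ¬ c m = C := by
      rw [Filter.eventually_all_finset]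
      intro C _
      exact hcon C
    obtain ⟨m, hm⟩ := h3.exists
    exact hm (c m) (Finset.mem_range.mpr (Nat.lt_succ_of_le (hcd m))) rfl
  obtain ⟨φ₀, hφ₀, hφC⟩ := Filter.extraction_of_frequently_atTop hC
  have hQ : ∀ m, ∃ ε ∈ E, ∃ (s r : ℕ) (v : Fin r → Fin (d - C) → ℤ)
      (w : Fin r → Fin s → ℕ) (b μ : Fin r → ℝ), IsData C v w ∧ 0 ≤ ε ∧
      (∀ i, (b i = 0 ∨ b i ∈ Γ₁) ∧ 0 ≤ b i) ∧ (∀ i, (μ i = 0 ∨ μ i ∈ Γ₂) ∧ 0 ≤ μ i) ∧
      Complementary C ε v w b ∧ t (φ₀ m) = threshold C ε v w b μ := by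
    intro m
    have h3 := hP' (φ₀ m)
    rw [hφC m] at h3
    exact h3
  choose ε hεE s r v w b μ hdat hε0 hb hm hcomp hthr using hQ
  have ht' : StrictMono (fun m => t (φ₀ m)) := fun a b hab => ht (hφ₀ hab)
  have hs : ∀ m, ∃ σ : ℝ, 0 ≤ σ ∧ t (φ₀ m) < ENNReal.ofReal σ ∧
      ENNReal.ofReal σ < t (φ₀ (m + 1)) :=
    fun m => ENNReal.lt_iff_exists_real_btwn.mp (ht' (Nat.lt_succ_self m))
  choose σ hσ0 hσ1 hσ2 using hs
  have hσpos : ∀ m, 0 < σ m := fun m =>
    ENNReal.ofReal_pos.mp (lt_of_le_of_lt bot_le (hσ1 m))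
  have hσlt : ∀ a m, a < m → ENNReal.ofReal (σ a) < t (φ₀ m) := fun a m ham =>
    (hσ2 a).trans_le (ht'.monotone ham)
  have hσmono : ∀ a m, a ≤ m → σ a ≤ σ m := by
    intro a m ham
    rcases ham.lt_or_eq with h3 | h3
    · have h4 := (hσlt a m h3).trans (hσ1 m)
      exact ((ENNReal.ofReal_lt_ofReal_iff (hσpos m)).mp h4).le
    · rw [h3]
  have hnot : ∀ m, ¬ Complementary C (ε m) (v m) (w m) (fun i => b m i + σ m * μ m i) := by
    intro m hcon
    have h3 : ENNReal.ofReal (σ m) ≤ t (φ₀ m) := by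
      rw [hthr m]
      exact le_iSup₂_of_le (σ m) ⟨hσ0 m, hcon⟩ le_rfl
    exact absurd (hσ1 m) (not_lt.mpr h3)
  have hyes : ∀ a m, a < m →
      Complementary C (ε m) (v m) (w m) (fun i => b m i + σ a * μ m i) := by
    intro a m ham
    have h3 : ENNReal.ofReal (σ a) < threshold C (ε m) (v m) (w m) (b m) (μ m) := by
      rw [← hthr m]
      exact hσlt a m ham
    rw [threshold, lt_iSup_iff] at h3
    obtain ⟨s', h3⟩ := h3
    rw [lt_iSup_iff] at h3
    obtain ⟨⟨hs', hcs'⟩, h3⟩ := h3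
    have h4 : σ a ≤ s' := by
      by_contra h5
      push Not at h5
      exact absurd h3 (not_lt.mpr (ENNReal.ofReal_le_ofReal h5.le))
    refine compl_mono hcs' fun i => ?_
    have := mul_le_mul_of_nonneg_right h4 (hm m i).2
    linarith
  obtain ⟨β, hβ0, hβ⟩ := exists_lower h1
  obtain ⟨γ, hγ0, hγ⟩ := exists_lower h2
  have hlow : ∀ a m i, ¬ (b m i = 0 ∧ μ m i = 0) → min β (σ 0 * γ) ≤ b m i + σ a * μ m i := by
    intro a m i hz
    by_cases hb0 : b m i = 0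
    · have hμ0 : μ m i ≠ 0 := fun h => hz ⟨hb0, h⟩
      have h3 : μ m i ∈ Γ₂ := ((hm m i).1).resolve_left hμ0
      have h4 : 0 < μ m i := lt_of_le_of_ne (hm m i).2 (Ne.symm hμ0)
      have h5 := hγ _ h3 h4
      have h6 := hσmono 0 a (Nat.zero_le a)
      have h7 : σ 0 * γ ≤ σ a * μ m i := mul_le_mul h6 h5 hγ0.le (hσ0 a)
      have h8 := min_le_right β (σ 0 * γ)
      have h9 := (hb m i).2
      linarith
    · have h3 : b m i ∈ Γ₁ := ((hb m i).1).resolve_left hb0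
      have h4 : 0 < b m i := lt_of_le_of_ne (hb m i).2 (Ne.symm hb0)
      have h5 := hβ _ h3 h4
      have h6 : 0 ≤ σ a * μ m i := mul_nonneg (hσ0 a) (hm m i).2
      have h8 := min_le_left β (σ 0 * γ)
      linarith
  have hnn : ∀ a m i, 0 ≤ b m i + σ a * μ m i := fun a m i =>
    add_nonneg (hb m i).2 (mul_nonneg (hσ0 a) (hm m i).2)
  have hzero : ∀ a m i, (b m i = 0 ∧ μ m i = 0) → b m i + σ a * μ m i = 0 := by
    rintro a m i ⟨h3, h4⟩
    rw [h3, h4, mul_zero, add_zero]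
  refine Fam.false (n := d - C) (c := C)
    { s := s
      r := r
      v := v
      w := w
      ε := ε
      B := fun m i => b m i + σ m * μ m i
      G := fun a m i => b m i + σ a * μ m i
      Z := fun m i => b m i = 0 ∧ μ m i = 0
      c₀ := min β (σ 0 * γ)
      data := hdat
      hε := hε0
      hB0 := fun m i => hnn m m i
      hG0 := fun a m i => hnn a m i
      hc₀ := lt_min hβ0 (mul_pos (hσpos 0) hγ0)
      hZB := fun m i hz => hzero m m i hz
      hZG := fun a m i hz => hzero a m i hz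
      hZB' := fun m i hz => hlow m m i hz
      hZG' := fun a m i hz => hlow a m i hz
      hnot := hnot
      hyes := hyes
      hsel := ?_ }
  intro K φ hφ e
  obtain ⟨g, hg, hmono⟩ := Pool.Agent.Helper31.Toric.mono_subseq_finset
    (ι := Unit ⊕ (Fin K ⊕ Fin K)) Finset.univ
    (Sum.elim (fun _ m => ε (φ m)) (Sum.elim (fun i m => b (φ m) (e m i))
      (fun i m => μ (φ m) (e m i))))
    (Sum.elim (fun _ => E) (Sum.elim (fun _ => insert 0 Γ₁) (fun _ => insert 0 Γ₂)))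
    (by
      rintro (i | i | i)
      · exact hE
      · exact dcc_insert h1
      · exact dcc_insert h2)
    (by
      rintro (i | i | i) m
      · exact hεE (φ m)
      · exact (hb (φ m) (e m i)).1
      · exact (hm (φ m) (e m i)).1)
  have mε : Monotone ((fun m => ε (φ m)) ∘ g) := hmono (Sum.inl ()) (Finset.mem_univ _)
  have mb : ∀ i, Monotone ((fun m => b (φ m) (e m i)) ∘ g) := fun i =>
    hmono (Sum.inr (Sum.inl i)) (Finset.mem_univ _)
  have mμ : ∀ i, Monotone ((fun m => μ (φ m) (e m i)) ∘ g) := fun i =>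
    hmono (Sum.inr (Sum.inr i)) (Finset.mem_univ _)
  refine ⟨g, hg, fun a b hab => mε hab, fun a δ hδ => ?_⟩
  filter_upwards [eventually_ge_atTop a] with b' hb' i
  have h3 : b (φ (g a)) (e (g a) i) ≤ b (φ (g b')) (e (g b') i) := mb i hb'
  have h4 : μ (φ (g a)) (e (g a) i) ≤ μ (φ (g b')) (e (g b') i) := mμ i hb'
  have h5 := mul_le_mul_of_nonneg_left h4 (hσ0 (φ (g a)))
  show b (φ (g a)) (e (g a) i) + σ (φ (g a)) * μ (φ (g a)) (e (g a) i) ≤
    b (φ (g b')) (e (g b') i) + σ (φ (g a)) * μ (φ (g b')) (e (g b') i) + δ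
  linarith

end Pool.Agent.Helper98.Arr
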