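import Pool.Agent.Helper98.Arr.Theta

/-!
# The number of non-trivial hyperplanes of a basic combination is bounded

A hyperplane `q` is trivial if there is exactly one ray over it, of multiplicity `1` and in `Z`.

Plan. `Red c v w 0 univ` holds. Let `N2` be the set of the `q` with at least two rays and `N1`
the set of the non-trivial `q` with exactly one ray (with `w i q ≥ 2` or `¬ Z i`).
`|N2| ≤ n`: the rays `i` with `w i ≠ 0` are partitioned by the hyperplanes (`uniq`), each
hyperplane has at least one, so `k ≥ s + |N2|`, and `k + 1 ≤ n + s` by `Red.card_le`.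
`|N1| * min (1/2) c₀ ≤ c + 1`: choose rays `ι q` over all `q` (`page`); `Red.sum_theta` gives
`∑ q, (1 - (1 - b (ι q)) / w (ι q) q) ≤ c + 1`, all terms are `≥ 0` (`b ≥ 0`, `w ≥ 1`,
`b ≤ 1`), and for `q ∈ N1` the term is `≥ 1/2` if `w ≥ 2`, and is `b (ι q) ≥ c₀` if `w = 1`.
-/

open Finset

namespace Pool.Agent.Helper98.Arr

open Classical in
theorem card_nontrivial_le {n s k c : ℕ} {ε : ℝ} (hc : 1 ≤ c) (hs : c + 1 ≤ s)
    (v : Fin k → Fin n → ℤ) (w : Fin k → Fin s → ℕ)
    (huniq : ∀ i q q', w i q ≠ 0 → w i q' ≠ 0 → q = q') (hpage : ∀ q, ∃ i, w i q ≠ 0)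
    (hind : Ind1 v w) (Z : Fin k → Prop) (b : Fin k → ℝ) (hε : 0 ≤ ε) (hb0 : ∀ i, 0 ≤ b i)
    (hb1 : ∀ i, b i ≤ 1) (hG : Good c ε v w 0 Finset.univ b) (c₀ : ℝ) (hc₀ : 0 < c₀)
    (hZ : ∀ i, ¬ Z i → c₀ ≤ b i) :
    (((Finset.univ : Finset (Fin s)).filter fun q =>
      ¬ ∃ i, w i q = 1 ∧ Z i ∧ ∀ i', w i' q ≠ 0 → i' = i).card : ℝ) ≤
      n + ((c : ℝ) + 1) / min (1 / 2) c₀ := by
  have hR : Red c v w 0 Finset.univ :=
    { hc := hc
      card := by rw [Finset.card_univ, Fintype.card_fin]; exact hs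
      page := fun q _ => hpage q
      uniq := huniq
      supp := fun _ q _ => Finset.mem_univ q
      ind := by
        intro μ h h1 h2
        refine hind μ h (fun j => ?_) fun q => h2 q (Finset.mem_univ q)
        have h3 := h1 j
        simp only [Pi.zero_apply, Int.cast_zero, mul_zero, add_zero] at h3
        exact h3 }
  choose ι hι using hpage
  have hk := hR.card_le
  have hθ := (hR.sum_theta hε hG ι (fun q _ => hι q)).1
  rw [Finset.card_univ, Fintype.card_fin] at hk hθ
  obtain ⟨N2, hN2⟩ : ∃ N2 : Finset (Fin s), N2 =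
    Finset.univ.filter (fun q => ∃ i', w i' q ≠ 0 ∧ i' ≠ ι q) := ⟨_, rfl⟩
  obtain ⟨N1, hN1⟩ : ∃ N1 : Finset (Fin s), N1 =
    Finset.univ.filter (fun q => 2 ≤ w (ι q) q ∨ ¬ Z (ι q)) := ⟨_, rfl⟩
  -- hyperplanes with at least two rays
  have hc2 : N2.card ≤ n := by
    have h1 : ∀ q, ∃ i', q ∈ N2 → w i' q ≠ 0 ∧ i' ≠ ι q := by
      intro q
      by_cases hq : q ∈ N2
      · have h2 := hq
        rw [hN2, Finset.mem_filter] at h2
        obtain ⟨-, i', h3⟩ := h2
        exact ⟨i', fun _ => h3⟩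
      · exact ⟨ι q, fun h => absurd h hq⟩
    choose κ hκ using h1
    have d : Disjoint (Finset.univ.image ι) (N2.image κ) := by
      rw [Finset.disjoint_left]
      intro i hi hi'
      obtain ⟨q, -, rfl⟩ := Finset.mem_image.1 hi
      obtain ⟨q', hq', he⟩ := Finset.mem_image.1 hi'
      obtain ⟨h2, h3⟩ := hκ q' hq'
      have h4 : w (ι q) q' ≠ 0 := by
        rw [← he]
        exact h2
      have h5 := huniq (ι q) q q' (hι q) h4
      rw [← h5] at he h3
      exact h3 he
    have c1 : (Finset.univ.image ι).card = s := by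
      rw [Finset.card_image_of_injective, Finset.card_univ, Fintype.card_fin]
      intro q q' h2
      have h3 : w (ι q) q' ≠ 0 := by
        rw [h2]
        exact hι q'
      exact huniq (ι q) q q' (hι q) h3
    have c2 : (N2.image κ).card = N2.card := by
      refine Finset.card_image_of_injOn fun q hq q' hq' h2 => ?_
      have h3 := (hκ q (Finset.mem_coe.1 hq)).1
      have h4 := (hκ q' (Finset.mem_coe.1 hq')).1
      have h5 : w (κ q) q' ≠ 0 := by
        have h6 : κ q = κ q' := h2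
        rw [h6]
        exact h4
      exact huniq (κ q) q q' h3 h5
    have c3 := Finset.card_le_univ (Finset.univ.image ι ∪ N2.image κ)
    rw [Finset.card_union_of_disjoint d, c1, c2, Fintype.card_fin] at c3
    omega
  -- the other ones
  have hm : 0 < min (1 / 2) c₀ := lt_min (by norm_num) hc₀
  have hw1 : ∀ q, (1 : ℝ) ≤ (w (ι q) q : ℝ) := by
    intro q
    exact_mod_cast Nat.one_le_iff_ne_zero.2 (hι q)
  have hc1 : (N1.card : ℝ) * min (1 / 2) c₀ ≤ (c : ℝ) + 1 := by
    have t0 : ∀ q, 0 ≤ 1 - (1 - b (ι q)) / (w (ι q) q : ℝ) := by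
      intro q
      have h1 := hw1 q
      have h2 : (1 - b (ι q)) / (w (ι q) q : ℝ) ≤ 1 := by
        rw [div_le_one (by linarith)]
        have := hb0 (ι q)
        linarith
      linarith
    have t1 : ∀ q ∈ N1, min (1 / 2) c₀ ≤ 1 - (1 - b (ι q)) / (w (ι q) q : ℝ) := by
      intro q hq
      rw [hN1, Finset.mem_filter] at hq
      have h1 := hw1 q
      have h0 := hb0 (ι q)
      rcases hq.2 with h2 | h2
      · have h3 : (2 : ℝ) ≤ (w (ι q) q : ℝ) := by exact_mod_cast h2
        refine (min_le_left _ _).trans ?_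
        have h4 : (1 - b (ι q)) / (w (ι q) q : ℝ) ≤ 1 / 2 := by
          rw [div_le_div_iff₀ (by linarith) (by norm_num)]
          linarith
        linarith
      · refine (min_le_right _ _).trans ?_
        have h3 := hZ (ι q) h2
        have h5 := hb1 (ι q)
        have h4 : (1 - b (ι q)) / (w (ι q) q : ℝ) ≤ 1 - b (ι q) :=
          div_le_self (by linarith) h1
        linarith
    have t2 : ∑ q ∈ N1, min (1 / 2) c₀ ≤ ∑ q, (1 - (1 - b (ι q)) / (w (ι q) q : ℝ)) :=
      (Finset.sum_le_sum t1).trans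
        (Finset.sum_le_sum_of_subset_of_nonneg (Finset.subset_univ _) fun q _ _ => t0 q)
    rw [Finset.sum_const, nsmul_eq_mul, Finset.sum_sub_distrib, Finset.sum_const,
      Finset.card_univ, Fintype.card_fin, nsmul_eq_mul, mul_one] at t2
    linarith
  have hsub : (Finset.univ : Finset (Fin s)).filter (fun q =>
      ¬ ∃ i, w i q = 1 ∧ Z i ∧ ∀ i', w i' q ≠ 0 → i' = i) ⊆ N1 ∪ N2 := by
    intro q hq
    rw [Finset.mem_filter] at hq
    rw [Finset.mem_union]
    by_contra hcon
    push Not at hcon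
    obtain ⟨h1, h2⟩ := hcon
    rw [hN1, Finset.mem_filter] at h1
    rw [hN2, Finset.mem_filter] at h2
    push Not at h1 h2
    obtain ⟨h3, h4⟩ := h1 (Finset.mem_univ q)
    apply hq.2
    refine ⟨ι q, ?_, h4, fun i' hi' => h2 (Finset.mem_univ q) i' hi'⟩
    have := hι q
    omega
  have hcard : (((Finset.univ : Finset (Fin s)).filter (fun q =>
      ¬ ∃ i, w i q = 1 ∧ Z i ∧ ∀ i', w i' q ≠ 0 → i' = i)).card : ℝ) ≤ N1.card + N2.card := by
    exact_mod_cast (Finset.card_le_card hsub).trans (Finset.card_union_le _ _)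
  have h1 : (N1.card : ℝ) ≤ ((c : ℝ) + 1) / min (1 / 2) c₀ := (le_div_iff₀ hm).2 hc1
  have h2 : (N2.card : ℝ) ≤ n := by exact_mod_cast hc2
  linarith

end Pool.Agent.Helper98.Arr
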