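import Pool.Agent.Helper98.Arr.Dual

/-!
# The canonical bundle inequality for complementary pairs

Let `g = ∏ q, w (ι q) q`. The combination `∑ q, (g / w (ι q) q) e_(ι q)` of the rays lies over `g` times
the diagonal; `N` times this combination plus one ray is a valuation for all natural numbers `N`,
and its cost is bounded from below.
-/

open Finset

namespace Pool.Agent.Helper98.Arr

theorem Complementary.sum_theta {n s r c : ℕ} {ε : ℝ} {v : Fin r → Fin n → ℤ}
    {w : Fin r → Fin s → ℕ} {b : Fin r → ℝ} (hd : IsData c v w) (hc : 1 ≤ c) (hε : 0 ≤ ε)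
    (h : Complementary c ε v w b) (ι : Fin s → Fin r) (hι : ∀ q, w (ι q) q ≠ 0) :
    (s : ℝ) - c - 1 ≤ ∑ q, (1 - b (ι q)) / (w (ι q) q : ℝ) := by
  have hs : c + 1 ≤ s := by
    rcases hd.1 with ⟨h0, _⟩ | ⟨_, h1⟩
    · omega
    · exact h1
  obtain ⟨q0⟩ : Nonempty (Fin s) := ⟨⟨0, by omega⟩⟩
  set g : ℕ := ∏ q, w (ι q) q with hg
  have hg0 : 0 < g := Finset.prod_pos fun q _ => Nat.pos_of_ne_zero (hι q)
  have hgR : (0 : ℝ) < g := by exact_mod_cast hg0
  have hdiv : ∀ q, w (ι q) q ∣ g := fun q =>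
    Finset.dvd_prod_of_mem (fun q => w (ι q) q) (Finset.mem_univ q)
  have hcq : ∀ q, ((g / w (ι q) q : ℕ) : ℝ) * (w (ι q) q : ℝ) = g := by
    intro q
    exact_mod_cast Nat.div_mul_cancel (hdiv q)
  have hw : ∀ q, ∑ q', ((g / w (ι q') q' : ℕ) : ℝ) * (w (ι q') q : ℝ) = g := by
    intro q
    rw [Finset.sum_eq_single q]
    · exact hcq q
    · intro q' _ hne
      have h0 : w (ι q') q = 0 := by
        by_contra h1
        exact hne (hd.2.2 (ι q') q' q (hι q') h1)
      rw [h0]
      simp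
    · intro h1
      exact absurd (Finset.mem_univ q) h1
  have e : ∑ q, ((g / w (ι q) q : ℕ) : ℝ) * (1 - b (ι q)) =
      g * ∑ q, (1 - b (ι q)) / (w (ι q) q : ℝ) := by
    rw [Finset.mul_sum]
    refine Finset.sum_congr rfl fun q _ => ?_
    have hwq : (w (ι q) q : ℝ) ≠ 0 := by exact_mod_cast hι q
    rw [← hcq q]
    field_simp
  have key : ∀ N : ℕ, ε ≤ (1 - b (ι q0)) +
      N * (g * (∑ q, (1 - b (ι q)) / (w (ι q) q : ℝ) - ((s : ℝ) - c - 1))) := by
    intro N
    have hval : IsVal c (fun j => v (ι q0) j + (N : ℤ) * ∑ q, ((g / w (ι q) q : ℕ) : ℤ) * v (ι q) j)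
        (w (ι q0)) := by
      refine ⟨Or.inr fun h0 => hι q0 (congrFun h0 q0), ?_⟩
      have h1 : (Finset.univ.filter fun q => w (ι q0) q ≠ 0).card ≤ 1 := by
        rw [Finset.card_le_one]
        intro q hq q' hq'
        exact hd.2.2 (ι q0) q q' (Finset.mem_filter.1 hq).2 (Finset.mem_filter.1 hq').2
      exact h1.trans hc
    have h1 := h.le_cost (k := s + 1) (Fin.cons (ι q0) ι)
      (Fin.cons 1 (fun q => (N : ℝ) * ((g / w (ι q) q : ℕ) : ℝ))) (N * g)
      (by
        intro i
        refine Fin.cases ?_ (fun q => ?_) i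
        · rw [Fin.cons_zero]
          exact zero_le_one
        · rw [Fin.cons_succ]
          positivity) (by positivity) _ _ hval
      (by
        intro j
        rw [Fin.sum_univ_succ]
        simp only [Fin.cons_zero, Fin.cons_succ]
        simp only [Int.cast_add, Int.cast_mul, Int.cast_sum, Int.cast_natCast]
        rw [one_mul, Finset.mul_sum]
        congr 1
        exact Finset.sum_congr rfl fun q _ => by ring)
      (by
        intro q
        rw [Fin.sum_univ_succ]
        simp only [Fin.cons_zero, Fin.cons_succ]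
        rw [one_mul, ← hw q, Finset.mul_sum]
        congr 1
        exact Finset.sum_congr rfl fun q' _ => by ring)
    rw [Fin.sum_univ_succ] at h1
    simp only [Fin.cons_zero, Fin.cons_succ] at h1
    have h2 : ∑ q, (N : ℝ) * ((g / w (ι q) q : ℕ) : ℝ) * (1 - b (ι q)) =
        N * (g * ∑ q, (1 - b (ι q)) / (w (ι q) q : ℝ)) := by
      rw [← e, Finset.mul_sum]
      exact Finset.sum_congr rfl fun q _ => by ring
    rw [h2] at h1
    linarith
  by_contra hlt
  push Not at hlt
  have hneg : 0 < g * (((s : ℝ) - c - 1) - ∑ q, (1 - b (ι q)) / (w (ι q) q : ℝ)) :=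
    mul_pos hgR (by linarith)
  obtain ⟨N, hN⟩ := exists_nat_gt
    ((1 - b (ι q0)) / (g * (((s : ℝ) - c - 1) - ∑ q, (1 - b (ι q)) / (w (ι q) q : ℝ))))
  rw [div_lt_iff₀ hneg] at hN
  have h1 := key N
  linarith

end Pool.Agent.Helper98.Arr
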