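import Pool.Agent.Helper98.Arr.Defs
import Pool.Agent.Helper31.Toric.Main

/-!
# The limit argument

`Pool.Agent.Helper31.Toric.core` (Pool/Agent/Helper31/Toric/Main.lean) with an additional term. Along
a subsequence all `M (φ m) i` are non-decreasing; the limit lemma for the subgroups and the continuity
of the cost give a contradiction.
-/

open Finset Filter Topology

namespace Pool.Agent.Helper98.Arr

open Pool.Agent.Helper31.Toric (intVec exists_limit)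

private theorem dcc_nat : Pool.Agent.Helper31.Toric.DCC (Set.range (fun m : ℕ => (m : ℝ))) := by
  rintro ⟨f, hf, hm⟩
  choose g hg using hm
  have h1 : ∀ n, g (n + 1) < g n := by
    intro n
    have h2 := hf (Nat.lt_succ_self n)
    have h3 : f (n + 1) < f n := h2
    rw [← hg, ← hg] at h3
    have h4 : ((g (n + 1) : ℕ) : ℝ) < ((g n : ℕ) : ℝ) := h3
    exact_mod_cast h4
  have h2 : ∀ n, g n + n ≤ g 0 := by
    intro n
    induction n with
    | zero => simp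
    | succ n ih =>
      have := h1 n
      omega
  have h3 := h2 (g 0 + 1)
  omega

theorem core {k : ℕ} (ε : ℕ → ℝ) (B : ℕ → Fin k → ℝ) (G : ℕ → ℕ → Fin k → ℝ)
    (M : ℕ → Fin k → ℕ) (H : ℕ → AddSubgroup (EuclideanSpace ℝ (Fin k)))
    (D : (Fin k → ℕ) → (Fin k → ℝ) → ℝ) (κ : ℝ) (hκ : 0 ≤ κ) (hDc : ∀ m, Continuous (D m))
    (hDm : ∀ (m m' : Fin k → ℕ) (μ : Fin k → ℝ), (∀ i, m i ≤ m' i) → (∀ i, 0 ≤ μ i) →
      D m μ ≤ D m' μ)
    (hH : ∀ n, ∀ z : Fin k → ℤ, intVec z ∈ H n) (l : ℕ → Fin k → ℝ) (hl : ∀ n i, 0 < l n i)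
    (hlH : ∀ n, (WithLp.toLp 2 (l n) : EuclideanSpace ℝ (Fin k)) ∈ H n)
    (hlt : ∀ n, ∑ i, l n i * (1 - B n i) - κ * D (M n) (l n) < ε n)
    (hge : ∀ a j, a < j → ∀ μ ∈ H j, (∀ i, 0 < μ i) →
      ε j ≤ ∑ i, μ i * (1 - G a j i) - κ * D (M j) (fun i => μ i))
    (hsel : ∀ φ : ℕ → ℕ, StrictMono φ → ∃ g : ℕ → ℕ, StrictMono g ∧
      (∀ a b, a ≤ b → ε (φ (g a)) ≤ ε (φ (g b))) ∧
      ∀ a, ∀ δ : ℝ, 0 < δ → ∀ᶠ b in atTop, ∀ i,
        B (φ (g a)) i ≤ G (φ (g a)) (φ (g b)) i + δ) : False := by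
  classical
  obtain ⟨φ, hφ, hM⟩ := Pool.Agent.Helper31.Toric.mono_subseq_finset (ι := Fin k) Finset.univ
    (fun i n => (M n i : ℝ)) (fun _ => Set.range (fun m : ℕ => (m : ℝ))) (fun _ => dcc_nat)
    (fun i n => ⟨M n i, rfl⟩)
  obtain ⟨g, hg, mε, hev⟩ := hsel φ hφ
  obtain ⟨a, ha⟩ := exists_limit (fun n => H (φ (g n))) (fun n z => hH _ z)
  set l' : EuclideanSpace ℝ (Fin k) := WithLp.toLp 2 (l (φ (g a))) with hl'
  have hl'i : ∀ i, l' i = l (φ (g a)) i := fun i => rfl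
  set F0 : EuclideanSpace ℝ (Fin k) → ℝ := fun μ =>
    ∑ i, μ i * (1 - B (φ (g a)) i) - κ * D (M (φ (g a))) (fun i => μ i) with hF0
  have hF0c : Continuous F0 := by
    apply Continuous.sub
    · fun_prop
    · exact continuous_const.mul ((hDc _).comp (by fun_prop))
  have hF0l : F0 l' < ε (φ (g a)) := hlt (φ (g a))
  have e1 : ∀ᶠ μ in 𝓝 l', F0 μ < (F0 l' + ε (φ (g a))) / 2 :=
    hF0c.continuousAt.eventually_lt continuousAt_const (by linarith)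
  have e2 : ∀ᶠ μ : EuclideanSpace ℝ (Fin k) in 𝓝 l', ∑ i, μ i < ∑ i, l' i + 1 := by
    have hc : Continuous (fun μ : EuclideanSpace ℝ (Fin k) => ∑ i, μ i) := by fun_prop
    exact hc.continuousAt.eventually_lt continuousAt_const (by linarith)
  have e3 : ∀ᶠ μ : EuclideanSpace ℝ (Fin k) in 𝓝 l', ∀ i, 0 < μ i := by
    rw [Filter.eventually_all]
    intro i
    have hc : Continuous (fun μ : EuclideanSpace ℝ (Fin k) => μ i) := by fun_prop
    exact continuousAt_const.eventually_lt hc.continuousAt (hl _ i)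
  obtain ⟨δ1, hδ1, hδ⟩ := Metric.eventually_nhds_iff.1 (e1.and (e2.and e3))
  have hS : 0 < ∑ i, l' i + 1 := by
    have : 0 ≤ ∑ i, l' i := Finset.sum_nonneg (fun i _ => (hl _ i).le)
    linarith
  have hη : 0 < (ε (φ (g a)) - F0 l') / 2 := by linarith
  obtain ⟨δ, hδ0, hδle, hδS⟩ : ∃ δ : ℝ, 0 < δ ∧ δ ≤ δ1 ∧
      δ * (∑ i, l' i + 1) ≤ (ε (φ (g a)) - F0 l') / 2 := by
    refine ⟨min δ1 ((ε (φ (g a)) - F0 l') / 2 / (∑ i, l' i + 1)), lt_min hδ1 (div_pos hη hS),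
      min_le_left _ _, ?_⟩
    have h1 := min_le_right δ1 ((ε (φ (g a)) - F0 l') / 2 / (∑ i, l' i + 1))
    rwa [le_div_iff₀ hS] at h1
  obtain ⟨j, ⟨μ, hμH, hμδ⟩, hj, hBG⟩ := ((ha l' (hlH (φ (g a))) δ hδ0).and_eventually
    ((eventually_gt_atTop a).and (hev a δ hδ0))).exists
  obtain ⟨h1, h2, hμ0⟩ := hδ (y := μ) (by rw [dist_eq_norm]; exact lt_of_lt_of_le hμδ hδle)
  have h3 := hge (φ (g a)) (φ (g j)) (hφ (hg hj)) μ hμH hμ0
  have h4 := mε a j hj.le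
  have h5 : ∑ i, μ i * (1 - G (φ (g a)) (φ (g j)) i) ≤
      ∑ i, μ i * (1 - B (φ (g a)) i) + δ * ∑ i, μ i := by
    rw [Finset.mul_sum, ← Finset.sum_add_distrib]
    refine Finset.sum_le_sum fun i _ => ?_
    have h6 := mul_le_mul_of_nonneg_left (hBG i) (hμ0 i).le
    have h7 : μ i * (G (φ (g a)) (φ (g j)) i + δ) = μ i * G (φ (g a)) (φ (g j)) i + δ * μ i := by ring
    rw [h7] at h6
    linarith
  have h6 : D (M (φ (g a))) (fun i => μ i) ≤ D (M (φ (g j))) (fun i => μ i) := by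
    apply hDm
    · intro i
      have h7 := hM i (Finset.mem_univ i) (hg.monotone hj.le)
      have h8 : (M (φ (g a)) i : ℝ) ≤ (M (φ (g j)) i : ℝ) := h7
      exact_mod_cast h8
    · exact fun i => (hμ0 i).le
  have h7 := mul_le_mul_of_nonneg_left h6 hκ
  have h8 : δ * ∑ i, μ i < δ * (∑ i, l' i + 1) := mul_lt_mul_of_pos_left h2 hδ0
  have h9 : F0 μ = ∑ i, μ i * (1 - B (φ (g a)) i) - κ * D (M (φ (g a))) (fun i => μ i) := rfl
  linarith

end Pool.Agent.Helper98.Arr
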