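import Pool.Agent.Helper98.Arr.Defs

/-!
# The sum of the orbifold coefficients (canonical bundle inequality)

Plan for `Red.sum_theta`: put `g = ∏ q ∈ S, w (ι q) q` (a positive natural number, divisible by
each `w (ι q) q`) and `μ i = ∑ q ∈ S, if ι q = i then g / w (ι q) q else 0` (all natural numbers;
`∑ i, μ i * f i = ∑ q ∈ S, g / w (ι q) q * f (ι q)` for every `f`). Then
`∑ i, μ i * w i q = g` for `q ∈ S` (by `uniq`, only `ι q` contributes: `w (ι q') q = 0` for
`q' ≠ q`), `x j = ∑ q ∈ S, (g / w (ι q) q) * v (ι q) j + g * V j` is an integer, and `z = 0`.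
`x ≠ 0`, because otherwise `ind` (with `h = g`) would give `μ = 0`, `g = 0`. `Good` gives
`ε ≤ ∑ i, μ i * (1 - b i) - g * (|S| - c - 1) = g * (∑ q ∈ S, (1 - b (ι q)) / w (ι q) q - (|S| - c - 1))`.

`Red.card_le`: the `k + 1` vectors `(v i, w i restricted to S)`, `(V, -1)` of
`(Fin n → ℝ) × (S → ℝ)` are linearly independent (`ind`, with `h` the coefficient of the last
one), so `k + 1 ≤ n + |S|` (`LinearIndependent.fintype_card_le_finrank`).

`ind0_card_le`: similarly, in `(Fin n → ℝ) × (Q → ℝ)`, `Q` the set of the `q` with a non-zero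
`w i q`.
-/

open Finset

namespace Pool.Agent.Helper98.Arr

private theorem th_swap {k s : ℕ} (S : Finset (Fin s)) (ι : Fin s → Fin k) (cq : Fin s → ℝ)
    (f : Fin k → ℝ) :
    ∑ i, (∑ q ∈ S, if ι q = i then cq q else 0) * f i = ∑ q ∈ S, cq q * f (ι q) := by
  simp_rw [Finset.sum_mul]
  rw [Finset.sum_comm]
  refine Finset.sum_congr rfl fun q _ => ?_
  rw [Finset.sum_eq_single (ι q)]
  · rw [if_pos rfl]
  · intro i _ hi
    rw [if_neg (fun h => hi h.symm), zero_mul]
  · intro h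
    exact absurd (Finset.mem_univ _) h

theorem Red.sum_theta {n s k c : ℕ} {ε : ℝ} {v : Fin k → Fin n → ℤ} {w : Fin k → Fin s → ℕ}
    {V : Fin n → ℤ} {S : Finset (Fin s)} {b : Fin k → ℝ} (hR : Red c v w V S) (hε : 0 ≤ ε)
    (hG : Good c ε v w V S b) (ι : Fin s → Fin k) (hι : ∀ q ∈ S, w (ι q) q ≠ 0) :
    (S.card : ℝ) - c - 1 ≤ ∑ q ∈ S, (1 - b (ι q)) / (w (ι q) q : ℝ) ∧
      (0 < ε → (S.card : ℝ) - c - 1 < ∑ q ∈ S, (1 - b (ι q)) / (w (ι q) q : ℝ)) := by
  set g : ℕ := ∏ q ∈ S, w (ι q) q with hg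
  have hg0 : 0 < g := Finset.prod_pos fun q hq => Nat.pos_of_ne_zero (hι q hq)
  have hgR : (0 : ℝ) < g := by exact_mod_cast hg0
  have hdiv : ∀ q ∈ S, w (ι q) q ∣ g := fun q hq => Finset.dvd_prod_of_mem (fun q => w (ι q) q) hq
  have hc : ∀ q ∈ S, ((g / w (ι q) q : ℕ) : ℝ) * (w (ι q) q : ℝ) = g := by
    intro q hq
    exact_mod_cast Nat.div_mul_cancel (hdiv q hq)
  set μ : Fin k → ℝ := fun i => ∑ q ∈ S, if ι q = i then ((g / w (ι q) q : ℕ) : ℝ) else 0 with hμ
  have hsw : ∀ f : Fin k → ℝ, ∑ i, μ i * f i = ∑ q ∈ S, ((g / w (ι q) q : ℕ) : ℝ) * f (ι q) :=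
    fun f => th_swap S ι (fun q => ((g / w (ι q) q : ℕ) : ℝ)) f
  have hw : ∀ q ∈ S, ∑ i, μ i * (w i q : ℝ) = g := by
    intro q hq
    rw [hsw (fun i => (w i q : ℝ)), Finset.sum_eq_single q]
    · exact hc q hq
    · intro q' hq' hne
      have : w (ι q') q = 0 := by
        by_contra h
        exact hne (hR.uniq (ι q') q' q (hι q' hq') h)
      rw [this]
      simp
    · intro h
      exact absurd hq h
  set x : Fin n → ℤ := fun j => ∑ q ∈ S, ((g / w (ι q) q : ℕ) : ℤ) * v (ι q) j + (g : ℤ) * V j with hx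
  have hxj : ∀ j, (x j : ℝ) = ∑ i, μ i * (v i j : ℝ) + (g : ℝ) * (V j : ℝ) := by
    intro j
    rw [hsw (fun i => (v i j : ℝ)), hx]
    push_cast
    rfl
  have hx0 : x ≠ 0 := by
    intro h
    have h2 := (hR.ind μ g (fun j => by rw [← hxj j, h]; simp) hw).2
    exact hgR.ne' h2
  have hval : IsVal c x (0 : Fin s → ℕ) := by
    refine ⟨Or.inl hx0, ?_⟩
    simp
  have hμ0 : ∀ i, 0 ≤ μ i := fun i => Finset.sum_nonneg fun q _ => by
    split_ifs
    · exact Nat.cast_nonneg _
    · exact le_rfl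
  have h := hG μ g x 0 hμ0 hgR.le hval (fun q _ => rfl) hxj (fun q hq => by
    rw [hw q hq]
    simp)
  rw [hsw (fun i => 1 - b i)] at h
  have e : ∑ q ∈ S, ((g / w (ι q) q : ℕ) : ℝ) * (1 - b (ι q)) =
      g * ∑ q ∈ S, (1 - b (ι q)) / (w (ι q) q : ℝ) := by
    rw [Finset.mul_sum]
    refine Finset.sum_congr rfl fun q hq => ?_
    have hwq : (w (ι q) q : ℝ) ≠ 0 := by exact_mod_cast hι q hq
    rw [← hc q hq]
    field_simp
  rw [e, ← mul_sub] at h
  constructor
  · by_contra hlt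
    have h3 : (g : ℝ) * (∑ q ∈ S, (1 - b (ι q)) / (w (ι q) q : ℝ) - ((S.card : ℝ) - c - 1)) < 0 :=
      mul_neg_of_pos_of_neg hgR (by linarith)
    linarith
  · intro hε0
    by_contra hlt
    have h3 : (g : ℝ) * (∑ q ∈ S, (1 - b (ι q)) / (w (ι q) q : ℝ) - ((S.card : ℝ) - c - 1)) ≤ 0 :=
      mul_nonpos_of_nonneg_of_nonpos hgR.le (by linarith)
    linarith

theorem Red.card_le {n s k c : ℕ} {v : Fin k → Fin n → ℤ} {w : Fin k → Fin s → ℕ}
    {V : Fin n → ℤ} {S : Finset (Fin s)} (hR : Red c v w V S) : k + 1 ≤ n + S.card := by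
  let L : ((Fin k → ℝ) × ℝ) →ₗ[ℝ] ((Fin n → ℝ) × (S → ℝ)) :=
    { toFun := fun p => (fun j => ∑ i, p.1 i * (v i j : ℝ) + p.2 * (V j : ℝ),
        fun q => ∑ i, p.1 i * (w i (q : Fin s) : ℝ) - p.2)
      map_add' := by
        intro p p'
        ext j
        · simp only [Prod.fst_add, Prod.snd_add, Pi.add_apply, add_mul, Finset.sum_add_distrib]
          ring
        · simp only [Prod.fst_add, Prod.snd_add, Pi.add_apply, add_mul, Finset.sum_add_distrib]
          ring
      map_smul' := by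
        intro a p
        ext j
        · simp only [Prod.smul_fst, Prod.smul_snd, Pi.smul_apply, smul_eq_mul, RingHom.id_apply,
            Finset.mul_sum, mul_assoc, mul_add]
        · simp only [Prod.smul_fst, Prod.smul_snd, Pi.smul_apply, smul_eq_mul, RingHom.id_apply,
            Finset.mul_sum, mul_assoc, mul_sub] }
  have hL : Function.Injective L := by
    rw [← LinearMap.ker_eq_bot, LinearMap.ker_eq_bot']
    intro p hp
    have h1 : ∀ j, ∑ i, p.1 i * (v i j : ℝ) + p.2 * (V j : ℝ) = 0 := fun j =>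
      congrFun (congrArg Prod.fst hp) j
    have h2 : ∀ q ∈ S, ∑ i, p.1 i * (w i q : ℝ) = p.2 := by
      intro q hq
      have h3 : ∑ i, p.1 i * (w i q : ℝ) - p.2 = 0 := congrFun (congrArg Prod.snd hp) ⟨q, hq⟩
      linarith
    obtain ⟨h3, h4⟩ := hR.ind p.1 p.2 h1 h2
    exact Prod.ext h3 h4
  have h := LinearMap.finrank_le_finrank_of_injective hL
  rw [Module.finrank_prod, Module.finrank_prod, Module.finrank_fintype_fun_eq_card,
    Module.finrank_fintype_fun_eq_card, Module.finrank_fintype_fun_eq_card, Module.finrank_self,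
    Fintype.card_fin, Fintype.card_fin, Fintype.card_coe] at h
  exact h

theorem ind0_card_le {n s k c : ℕ} {v : Fin k → Fin n → ℤ} {w : Fin k → Fin s → ℕ}
    (hI : Ind0 v w) (hc : (Finset.univ.filter fun q => ∃ i, w i q ≠ 0).card ≤ c) :
    k ≤ n + c := by
  let Q : Finset (Fin s) := Finset.univ.filter fun q => ∃ i, w i q ≠ 0
  let L : (Fin k → ℝ) →ₗ[ℝ] ((Fin n → ℝ) × (Q → ℝ)) :=
    { toFun := fun p => (fun j => ∑ i, p i * (v i j : ℝ), fun q => ∑ i, p i * (w i (q : Fin s) : ℝ))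
      map_add' := by
        intro p p'
        ext j
        · simp only [Prod.fst_add, Pi.add_apply, add_mul, Finset.sum_add_distrib]
        · simp only [Prod.snd_add, Pi.add_apply, add_mul, Finset.sum_add_distrib]
      map_smul' := by
        intro a p
        ext j
        · simp only [Prod.smul_fst, Pi.smul_apply, smul_eq_mul, RingHom.id_apply,
            Finset.mul_sum, mul_assoc]
        · simp only [Prod.smul_snd, Pi.smul_apply, smul_eq_mul, RingHom.id_apply,
            Finset.mul_sum, mul_assoc] }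
  have hL : Function.Injective L := by
    rw [← LinearMap.ker_eq_bot, LinearMap.ker_eq_bot']
    intro p hp
    have h1 : ∀ j, ∑ i, p i * (v i j : ℝ) = 0 := fun j => congrFun (congrArg Prod.fst hp) j
    have h2 : ∀ q, ∑ i, p i * (w i q : ℝ) = 0 := by
      intro q
      by_cases hq : q ∈ Q
      · exact congrFun (congrArg Prod.snd hp) ⟨q, hq⟩
      · refine Finset.sum_eq_zero fun i _ => ?_
        have : w i q = 0 := by
          by_contra h
          exact hq (Finset.mem_filter.2 ⟨Finset.mem_univ _, i, h⟩)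
        rw [this]
        simp
    exact hI p h1 h2
  have h := LinearMap.finrank_le_finrank_of_injective hL
  rw [Module.finrank_prod, Module.finrank_fintype_fun_eq_card,
    Module.finrank_fintype_fun_eq_card, Module.finrank_fintype_fun_eq_card,
    Fintype.card_fin, Fintype.card_fin, Fintype.card_coe] at h
  have hc' : Q.card ≤ c := hc
  omega

end Pool.Agent.Helper98.Arr
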