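import Pool.Agent.Helper98.Arr.Dual
import Pool.Agent.Helper98.Arr.Theta
import Pool.Agent.Helper98.Arr.Core

/-!
# Infinitely many violations without the diagonal are impossible
-/

open Finset Filter Topology

namespace Pool.Agent.Helper98.Arr

private theorem supp_of {s k : ℕ} {l : Fin k → ℝ} {w : Fin k → Fin s → ℕ} (hl : ∀ i, 0 < l i)
    {q : Fin s} {t : ℝ} (ht : t = ∑ i, l i * (w i q : ℝ)) : t ≠ 0 ↔ ∃ i, w i q ≠ 0 := by
  constructor
  · intro h0
    by_contra hcon
    push Not at hcon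
    apply h0
    rw [ht]
    refine Finset.sum_eq_zero fun i _ => ?_
    rw [hcon i, Nat.cast_zero, mul_zero]
  · rintro ⟨i, hi⟩ h0
    rw [h0] at ht
    have h1 := (Finset.sum_eq_zero_iff_of_nonneg (fun i _ => by
      have := hl i
      positivity)).1 ht.symm i (Finset.mem_univ i)
    have h2 : (0 : ℝ) < w i q := by
      exact_mod_cast Nat.pos_of_ne_zero hi
    have h3 := mul_pos (hl i) h2
    linarith

theorem Fam.caseA {n c : ℕ} (F : Fam n c) (φ : ℕ → ℕ) (hφ : StrictMono φ)
    (h : ∀ m, ViolA c (F.ε (φ m)) (F.v (φ m)) (F.w (φ m)) (F.B (φ m))) : False := by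
  classical
  choose k hk using h
  have hkd : ∀ m, k m ≤ n + c := by
    intro m
    obtain ⟨e, l, x, z, hv, hl, hx, hz, hI, -⟩ := hk m
    refine ind0_card_le hI (le_trans (Finset.card_le_card ?_) hv.2)
    intro q hq
    rw [Finset.mem_filter] at hq ⊢
    refine ⟨Finset.mem_univ q, ?_⟩
    have h1 := (supp_of hl (w := fun i q => F.w (φ m) (e i) q) (hz q)).2 hq.2
    exact_mod_cast h1
  obtain ⟨K, hK⟩ : ∃ K : ℕ, ∃ᶠ m in atTop, k m = K := by
    by_contra hcon
    push Not at hcon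
    have h3 : ∀ᶠ m in atTop, ∀ K ∈ Finset.range (n + c + 1), ¬ k m = K := by
      rw [Filter.eventually_all_finset]
      intro K _
      exact hcon K
    obtain ⟨m, hm⟩ := h3.exists
    exact hm (k m) (Finset.mem_range.mpr (Nat.lt_succ_of_le (hkd m))) rfl
  obtain ⟨ψ, hψ, hψK⟩ := Filter.extraction_of_frequently_atTop hK
  have hk' : ∀ m, ∃ (e : Fin K → Fin (F.r (φ (ψ m)))) (l : Fin K → ℝ) (x : Fin n → ℤ)
      (z : Fin (F.s (φ (ψ m))) → ℕ), IsVal c x z ∧ (∀ i, 0 < l i) ∧
      (∀ j, (x j : ℝ) = ∑ i, l i * (F.v (φ (ψ m)) (e i) j : ℝ)) ∧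
      (∀ q, (z q : ℝ) = ∑ i, l i * (F.w (φ (ψ m)) (e i) q : ℝ)) ∧
      Ind0 (fun i => F.v (φ (ψ m)) (e i)) (fun i => F.w (φ (ψ m)) (e i)) ∧
      ∑ i, l i * (1 - F.B (φ (ψ m)) (e i)) < F.ε (φ (ψ m)) := by
    intro m
    have h3 := hk (ψ m)
    rw [hψK m] at h3
    exact h3
  choose e l x z hv hl hx hz hI hlt using hk'
  have hKpos : Nonempty (Fin K) := by
    by_contra hcon
    rw [not_nonempty_iff] at hcon
    rcases (hv 0).1 with h1 | h1
    · apply h1
      funext j
      have := hx 0 j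
      simpa using this
    · apply h1
      funext q
      have := hz 0 q
      simpa using this
  refine core (fun m => F.ε (φ (ψ m))) (fun m i => F.B (φ (ψ m)) (e m i))
    (fun a j i => F.G (φ (ψ a)) (φ (ψ j)) (e j i)) (fun _ _ => 0)
    (fun m => grp0 (fun i => F.v (φ (ψ m)) (e m i)) (fun i => F.w (φ (ψ m)) (e m i)))
    (fun _ _ => 0) 0 le_rfl (fun _ => continuous_const) (fun _ _ _ _ _ => le_rfl)
    (fun m y => ?_) l hl (fun m => ?_) (fun m => ?_) (fun a j haj μ hμ hμ0 => ?_)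
    (fun φ' hφ' => ?_)
  · rw [mem_grp0]
    refine ⟨fun j => ∑ i, y i * F.v (φ (ψ m)) (e m i) j,
      fun q => ∑ i, y i * (F.w (φ (ψ m)) (e m i) q : ℤ), fun j => ?_, fun q => ?_⟩
    · push_cast
      exact Finset.sum_congr rfl fun i _ => rfl
    · push_cast
      exact Finset.sum_congr rfl fun i _ => rfl
  · rw [mem_grp0]
    refine ⟨x m, fun q => (z m q : ℤ), fun j => hx m j, fun q => ?_⟩
    rw [Int.cast_natCast]
    exact hz m q
  · have := hlt m
    simp only [zero_mul, sub_zero]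
    exact this
  · rw [mem_grp0] at hμ
    obtain ⟨x', z', hx', hz'⟩ := hμ
    have hz0 : ∀ q, 0 ≤ z' q := by
      intro q
      have h1 : (0 : ℝ) ≤ (z' q : ℝ) := by
        rw [hz' q]
        exact Finset.sum_nonneg fun i _ => mul_nonneg (hμ0 i).le (Nat.cast_nonneg _)
      exact_mod_cast h1
    have hzN : ∀ q, (((z' q).toNat : ℕ) : ℝ) = ∑ i, μ i * (F.w (φ (ψ j)) (e j i) q : ℝ) := by
      intro q
      rw [← hz' q]
      have h1 : (((z' q).toNat : ℕ) : ℤ) = z' q := Int.toNat_of_nonneg (hz0 q)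
      exact_mod_cast congrArg (fun t : ℤ => (t : ℝ)) h1
    have hval : IsVal c x' (fun q => (z' q).toNat) := by
      constructor
      · by_contra hcon
        push Not at hcon
        obtain ⟨h1, h2⟩ := hcon
        have h3 := hI j (fun i => μ i) (fun j' => by rw [← hx' j', h1]; simp) (fun q => by
          rw [← hzN q]
          have := congrFun h2 q
          simp only [Pi.zero_apply] at this
          rw [this, Nat.cast_zero])
        obtain ⟨i⟩ := hKpos
        have h4 := congrFun h3 i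
        have h5 := hμ0 i
        simp only [Pi.zero_apply] at h4
        linarith
      · refine le_trans (Finset.card_le_card ?_) (hv j).2
        intro q hq
        rw [Finset.mem_filter] at hq ⊢
        refine ⟨Finset.mem_univ q, ?_⟩
        have h1 : (((z' q).toNat : ℕ) : ℝ) ≠ 0 := by exact_mod_cast hq.2
        have h2 := (supp_of hμ0 (w := fun i q => F.w (φ (ψ j)) (e j i) q) (hzN q)).1 h1
        have h3 := (supp_of (hl j) (w := fun i q => F.w (φ (ψ j)) (e j i) q) (hz j q)).2 h2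
        exact_mod_cast h3
    have h1 := Complementary.le_cost (F.hyes (φ (ψ a)) (φ (ψ j)) (hφ (hψ haj))) (e j)
      (fun i => μ i) 0 (fun i => (hμ0 i).le) le_rfl x' (fun q => (z' q).toNat) hval hx'
      (fun q => by rw [add_zero]; exact hzN q)
    simp only [zero_mul, sub_zero] at h1 ⊢
    exact h1
  · obtain ⟨g, hg, h1, h2⟩ := F.hsel K (φ ∘ ψ ∘ φ') (hφ.comp (hψ.comp hφ')) (fun m => e (φ' m))
    exact ⟨g, hg, h1, h2⟩

end Pool.Agent.Helper98.Arr
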