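import Pool.Agent.Helper98.Arr.Theta

/-!
# Combinatorial inversion of adjunction

Write `y μ q = ∑ i, μ i * w i q`, `D μ = min over q ∈ S of y μ q` (`S` is not empty since
`c + 1 ≤ |S|`), `κ = |S| - c - 1 ≥ 0`, `F μ = ∑ i, μ i * (1 - b i) - κ * D μ`.

(1) Let `ι q` attain the minimum `θ q` of `(1 - b i) / w i q` over the `i` with `w i q ≠ 0`,
`q ∈ S`; `δ = ∑ q ∈ S, θ q - κ` is `≥ 0`, and `> 0` if `ε > 0` (`Red.sum_theta`).
(2) For `μ ≥ 0`: `F μ ≥ δ * D μ`: each `i` with `w i = 0` contributes `μ i * (1 - b i) ≥ 0`, and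
`μ i * (1 - b i) ≥ μ i * w i q * θ q` for `w i q ≠ 0`, so
`∑ i, μ i * (1 - b i) ≥ ∑ q ∈ S, θ q * y μ q ≥ D μ * ∑ q ∈ S, θ q` (`θ q ≥ 0` since `b i ≤ 1`).
(3) Step: if `μ ∈ grp`, all `μ i > 0` and `F μ < ε`, there is `μ' ∈ grp`, all `μ' i > 0`, with
`F μ' ≤ F μ` and `D μ' ≥ D μ + 1`. Indeed let `(g, x)` be as in `mem_grp`; `D μ = y μ q0`, so
`D μ - g` is an integer; put `x' = x + (D μ - g) V` and `z q = y μ q - D μ`, a natural number, for
`q ∈ S`, `z q = 0` for `q ∉ S`. `(x', z) ≠ 0`, since otherwise `ind` (with `h = D μ`) gives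
`μ = 0` (`k > 0` since `S ≠ ∅` and `page`). If at most `c` of the `z q` are non-zero, `Good` (with
`g := D μ ≥ 0`) gives `ε ≤ F μ`, a contradiction. So at least `c + 1` of the `q ∈ S` have
`z q ≥ 1`; let `T` be the set of the others (`z q = 0`), `|T| ≤ κ`. Let
`μ' = μ + ∑ q ∈ T, e_(ι q)`. Then `y μ' q ≥ D μ + 1` for all `q ∈ S`, and
`F μ' - F μ = ∑ q ∈ T, (1 - b (ι q)) - κ * (D μ' - D μ) ≤ |T| - κ ≤ 0` (`b ≥ 0`). `μ'` is in
`grp` (add integer vectors: `grp` contains them, with `g` unchanged).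
(4) Conclusion. If `ε = 0`: `F μ ≥ δ * D μ ≥ 0`. If `ε > 0` and `F μ < ε`: iterating (3) `T`
times, `ε > F ≥ δ * D ≥ δ * T`, a contradiction for large `T`.

The statement has `D` with the two properties of the minimum, to avoid a definition.
-/

open Finset

namespace Pool.Agent.Helper98.Arr

section aux

variable {n s k c : ℕ} {ε : ℝ} {v : Fin k → Fin n → ℤ} {w : Fin k → Fin s → ℕ}
    {V : Fin n → ℤ} {S : Finset (Fin s)} {b : Fin k → ℝ}

private lemma nonempty_S (hR : Red c v w V S) : S.Nonempty := by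
  rw [← Finset.card_pos]
  have := hR.card
  omega

private lemma exists_iota (hR : Red c v w V S) (b : Fin k → ℝ) :
    ∃ ι : Fin s → Fin k, ∀ q ∈ S, w (ι q) q ≠ 0 ∧
      ∀ i, w i q ≠ 0 → (1 - b (ι q)) / (w (ι q) q : ℝ) ≤ (1 - b i) / (w i q : ℝ) := by
  obtain ⟨q0, hq0⟩ := nonempty_S hR
  obtain ⟨i0, hi0⟩ := hR.page q0 hq0
  have h : ∀ q, ∃ i : Fin k, q ∈ S → (w i q ≠ 0 ∧
      ∀ i', w i' q ≠ 0 → (1 - b i) / (w i q : ℝ) ≤ (1 - b i') / (w i' q : ℝ)) := by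
    intro q
    by_cases hq : q ∈ S
    · obtain ⟨i1, hi1⟩ := hR.page q hq
      obtain ⟨i, hi, hmin⟩ := Finset.exists_min_image (Finset.univ.filter fun i => w i q ≠ 0)
        (fun i => (1 - b i) / (w i q : ℝ)) ⟨i1, by simpa using hi1⟩
      refine ⟨i, fun _ => ⟨by simpa using hi, fun i' hi' => hmin i' (by simpa using hi')⟩⟩
    · exact ⟨i0, fun h => absurd h hq⟩
  choose ι hι using h
  exact ⟨ι, hι⟩

private lemma lower (hR : Red c v w V S) (hb1 : ∀ i, b i ≤ 1) (θ : Fin s → ℝ)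
    (hθ0 : ∀ q ∈ S, 0 ≤ θ q)
    (hθ : ∀ q ∈ S, ∀ i, w i q ≠ 0 → θ q ≤ (1 - b i) / (w i q : ℝ))
    (μ : Fin k → ℝ) (hμ : ∀ i, 0 ≤ μ i) (D : ℝ)
    (hD : ∀ q ∈ S, D ≤ ∑ i, μ i * (w i q : ℝ)) :
    (∑ q ∈ S, θ q) * D ≤ ∑ i, μ i * (1 - b i) := by
  have h1 : ∀ i, ∑ q ∈ S, θ q * (w i q : ℝ) ≤ 1 - b i := by
    intro i
    by_cases h : ∃ q ∈ S, w i q ≠ 0
    · obtain ⟨q0, hq0, hw⟩ := h
      rw [Finset.sum_eq_single_of_mem q0 hq0]
      · have h2 := hθ q0 hq0 i hw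
        have h3 : (0 : ℝ) < (w i q0 : ℝ) := by exact_mod_cast Nat.pos_of_ne_zero hw
        rwa [le_div_iff₀ h3] at h2
      · intro q hq hne
        have h4 : w i q = 0 := by
          by_contra h
          exact hne (hR.uniq i q q0 h hw)
        rw [h4]
        simp
    · push Not at h
      rw [Finset.sum_eq_zero (fun q hq => by rw [h q hq]; simp)]
      linarith [hb1 i]
  calc (∑ q ∈ S, θ q) * D = ∑ q ∈ S, θ q * D := Finset.sum_mul _ _ _
    _ ≤ ∑ q ∈ S, θ q * ∑ i, μ i * (w i q : ℝ) :=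
      Finset.sum_le_sum fun q hq => mul_le_mul_of_nonneg_left (hD q hq) (hθ0 q hq)
    _ = ∑ i, μ i * ∑ q ∈ S, θ q * (w i q : ℝ) := by
      simp only [Finset.mul_sum]
      rw [Finset.sum_comm]
      exact Finset.sum_congr rfl fun i _ => Finset.sum_congr rfl fun q _ => by ring
    _ ≤ ∑ i, μ i * (1 - b i) :=
      Finset.sum_le_sum fun i _ => mul_le_mul_of_nonneg_left (h1 i) (hμ i)

private lemma sum_single (i : Fin k) (f : Fin k → ℝ) :
    ∑ i', (EuclideanSpace.single i (1 : ℝ) : EuclideanSpace ℝ (Fin k)) i' * f i' = f i := by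
  rw [Finset.sum_eq_single_of_mem i (Finset.mem_univ i)]
  · simp
  · intro i' _ hne
    simp [hne]

private lemma single_mem (i : Fin k) :
    (EuclideanSpace.single i (1 : ℝ) : EuclideanSpace ℝ (Fin k)) ∈ grp v w V S := by
  refine ⟨0, v i, fun j => ?_, fun q _ => ⟨w i q, ?_⟩⟩
  · rw [sum_single i (fun i' => (v i' j : ℝ))]
    ring
  · rw [sum_single i (fun i' => (w i' q : ℝ))]
    push_cast
    ring

private lemma sum_add_singles (μ : EuclideanSpace ℝ (Fin k)) (T : Finset (Fin s))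
    (ι : Fin s → Fin k) (f : Fin k → ℝ) :
    ∑ i, (μ + ∑ q ∈ T, EuclideanSpace.single (ι q) (1 : ℝ) : EuclideanSpace ℝ (Fin k)) i * f i =
      ∑ i, μ i * f i + ∑ q ∈ T, f (ι q) := by
  classical
  induction T using Finset.induction_on with
  | empty => simp
  | insert a T ha ih =>
    rw [Finset.sum_insert ha, Finset.sum_insert ha]
    have h1 : ∀ i, (μ + (EuclideanSpace.single (ι a) (1 : ℝ) +
        ∑ q ∈ T, EuclideanSpace.single (ι q) (1 : ℝ)) : EuclideanSpace ℝ (Fin k)) i * f i =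
        (EuclideanSpace.single (ι a) (1 : ℝ) : EuclideanSpace ℝ (Fin k)) i * f i +
        (μ + ∑ q ∈ T, EuclideanSpace.single (ι q) (1 : ℝ) : EuclideanSpace ℝ (Fin k)) i * f i := by
      intro i
      simp only [PiLp.add_apply]
      ring
    rw [Finset.sum_congr rfl (fun i _ => h1 i), Finset.sum_add_distrib, sum_single, ih]
    ring

private lemma step (hR : Red c v w V S) (hb0 : ∀ i, 0 ≤ b i) (hG : Good c ε v w V S b)
    (ι : Fin s → Fin k) (hι : ∀ q ∈ S, w (ι q) q ≠ 0)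
    (μ : EuclideanSpace ℝ (Fin k)) (hμ : μ ∈ grp v w V S) (hpos : ∀ i, 0 < μ i) (D : ℝ)
    (hD : ∀ q ∈ S, D ≤ ∑ i, μ i * (w i q : ℝ)) (hD' : ∃ q ∈ S, D = ∑ i, μ i * (w i q : ℝ))
    (hF : ∑ i, μ i * (1 - b i) - ((S.card : ℝ) - c - 1) * D < ε) :
    ∃ (μ' : EuclideanSpace ℝ (Fin k)) (D₁ : ℝ), μ' ∈ grp v w V S ∧ (∀ i, 0 < μ' i) ∧
      (∀ q ∈ S, D₁ ≤ ∑ i, μ' i * (w i q : ℝ)) ∧ (∃ q ∈ S, D₁ = ∑ i, μ' i * (w i q : ℝ)) ∧
      D + 1 ≤ D₁ ∧ ∑ i, μ' i * (1 - b i) - ((S.card : ℝ) - c - 1) * D₁ ≤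
        ∑ i, μ i * (1 - b i) - ((S.card : ℝ) - c - 1) * D := by
  classical
  obtain ⟨g, x, hx, hz⟩ := (mem_grp v w V S μ).1 hμ
  obtain ⟨q0, hq0, hDq0⟩ := hD'
  obtain ⟨z0, hz0⟩ := hz q0 hq0
  have hDg : D = g + z0 := by rw [hDq0, hz0]
  have hD0 : 0 ≤ D := by
    rw [hDq0]
    exact Finset.sum_nonneg fun i _ => mul_nonneg (hpos i).le (Nat.cast_nonneg _)
  -- the natural numbers `Z q`
  have hZ : ∀ q, ∃ Z : ℕ, (q ∈ S → (Z : ℝ) + D = ∑ i, μ i * (w i q : ℝ)) ∧ (q ∉ S → Z = 0) := by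
    intro q
    by_cases hq : q ∈ S
    · obtain ⟨z, hz⟩ := hz q hq
      have h1 : 0 ≤ z - z0 := by
        have h2 := hD q hq
        rw [hz, hDg] at h2
        have h3 : (z0 : ℝ) ≤ z := by linarith
        have h4 : z0 ≤ z := by exact_mod_cast h3
        omega
      refine ⟨(z - z0).toNat, fun _ => ?_, fun h => absurd hq h⟩
      have h2 : (((z - z0).toNat : ℕ) : ℝ) = ((z - z0 : ℤ) : ℝ) := by
        have h3 := Int.toNat_of_nonneg h1
        exact_mod_cast h3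
      rw [h2, hz, hDg]
      push_cast
      ring
    · exact ⟨0, fun h => absurd h hq, fun _ => rfl⟩
  choose Z hZ1 hZ2 using hZ
  have hx' : ∀ j, ((x + z0 • V) j : ℝ) = ∑ i, μ i * (v i j : ℝ) + D * (V j : ℝ) := by
    intro j
    simp only [Pi.add_apply, Pi.smul_apply, smul_eq_mul]
    push_cast
    rw [hx j, hDg]
    ring
  have hne : (x + z0 • V) ≠ 0 ∨ Z ≠ 0 := by
    by_contra hcon
    push Not at hcon
    obtain ⟨h1, h2⟩ := hcon
    obtain ⟨i0, -⟩ := hR.page q0 hq0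
    have h3 := (hR.ind (fun i => μ i) D (fun j => by
      rw [← hx' j, h1]
      simp) (fun q hq => by
      rw [← hZ1 q hq, h2]
      simp)).1
    have h4 := congrFun h3 i0
    have h5 := hpos i0
    simp only [Pi.zero_apply] at h4
    linarith
  have hcard : c + 1 ≤ (Finset.univ.filter fun q => Z q ≠ 0).card := by
    by_contra hcon
    have h1 := hG (fun i => μ i) D (x + z0 • V) Z (fun i => (hpos i).le) hD0
      ⟨hne, by omega⟩ (fun q hq => hZ2 q hq) hx' (fun q hq => hZ1 q hq)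
    linarith
  let T : Finset (Fin s) := S.filter fun q => Z q = 0
  have hT : T.card + (Finset.univ.filter fun q => Z q ≠ 0).card ≤ S.card := by
    have h1 : (Finset.univ.filter fun q => Z q ≠ 0) ⊆ S.filter fun q => Z q ≠ 0 := by
      intro q hq
      rw [Finset.mem_filter] at hq ⊢
      refine ⟨?_, hq.2⟩
      by_contra h
      exact hq.2 (hZ2 q h)
    have h2 := Finset.card_le_card h1
    have h3 := Finset.card_filter_add_card_filter_not (s := S) (fun q => Z q = 0)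
    change (S.filter fun q => Z q = 0).card + _ ≤ _
    have h4 : (S.filter fun q => ¬ Z q = 0).card = (S.filter fun q => Z q ≠ 0).card := rfl
    omega
  have hTκ : (T.card : ℝ) ≤ (S.card : ℝ) - c - 1 := by
    have h1 : T.card + (c + 1) ≤ S.card := by omega
    have h2 : (T.card : ℝ) + (c + 1) ≤ (S.card : ℝ) := by exact_mod_cast h1
    linarith
  let μ' : EuclideanSpace ℝ (Fin k) := μ + ∑ q ∈ T, EuclideanSpace.single (ι q) (1 : ℝ)
  have hy : ∀ q ∈ S, D + 1 ≤ ∑ i, μ' i * (w i q : ℝ) := by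
    intro q hq
    change D + 1 ≤ ∑ i, (μ + ∑ q ∈ T, EuclideanSpace.single (ι q) (1 : ℝ) :
      EuclideanSpace ℝ (Fin k)) i * (w i q : ℝ)
    rw [sum_add_singles μ T ι (fun i => (w i q : ℝ))]
    have h0 : ∀ q' ∈ T, (0 : ℝ) ≤ (w (ι q') q : ℝ) := fun q' _ => Nat.cast_nonneg _
    by_cases hqT : Z q = 0
    · have h1 : q ∈ T := Finset.mem_filter.2 ⟨hq, hqT⟩
      have h2 := Finset.single_le_sum h0 h1
      have h3 : (1 : ℝ) ≤ (w (ι q) q : ℝ) := by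
        exact_mod_cast Nat.one_le_iff_ne_zero.2 (hι q hq)
      have h4 := hD q hq
      linarith
    · have h1 := Finset.sum_nonneg h0
      have h2 : (1 : ℝ) ≤ (Z q : ℝ) := by exact_mod_cast Nat.one_le_iff_ne_zero.2 hqT
      have h3 := hZ1 q hq
      linarith
  obtain ⟨q1, hq1, hmin⟩ := Finset.exists_min_image S (fun q => ∑ i, μ' i * (w i q : ℝ))
    (nonempty_S hR)
  refine ⟨μ', ∑ i, μ' i * (w i q1 : ℝ), ?_, fun i => ?_, hmin, ⟨q1, hq1, rfl⟩, hy q1 hq1, ?_⟩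
  · exact AddSubgroup.add_mem _ hμ (AddSubgroup.sum_mem _ fun q _ => single_mem (ι q))
  · have h1 : μ' i = μ i + ∑ q ∈ T, (EuclideanSpace.single (ι q) (1 : ℝ) :
        EuclideanSpace ℝ (Fin k)) i := by
      have h2 := sum_add_singles μ T ι (fun i' => if i' = i then (1 : ℝ) else 0)
      simp only [mul_ite, mul_one, mul_zero, Finset.sum_ite_eq', Finset.mem_univ, if_true] at h2
      change (μ + ∑ q ∈ T, EuclideanSpace.single (ι q) (1 : ℝ) : EuclideanSpace ℝ (Fin k)) i = _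
      rw [h2]
      congr 1
      refine Finset.sum_congr rfl fun q _ => ?_
      simp [eq_comm]
    rw [h1]
    have h2 : (0 : ℝ) ≤ ∑ q ∈ T, (EuclideanSpace.single (ι q) (1 : ℝ) :
        EuclideanSpace ℝ (Fin k)) i := by
      refine Finset.sum_nonneg fun q _ => ?_
      rw [PiLp.single_apply]
      split_ifs <;> norm_num
    linarith [hpos i]
  · have h1 := hy q1 hq1
    have h2 : ∑ i, μ' i * (1 - b i) = ∑ i, μ i * (1 - b i) + ∑ q ∈ T, (1 - b (ι q)) :=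
      sum_add_singles μ T ι (fun i => 1 - b i)
    have h3 : ∑ q ∈ T, (1 - b (ι q)) ≤ (T.card : ℝ) := by
      calc ∑ q ∈ T, (1 - b (ι q)) ≤ ∑ q ∈ T, (1 : ℝ) :=
            Finset.sum_le_sum fun q _ => by linarith [hb0 (ι q)]
        _ = (T.card : ℝ) := by simp
    have h4 : (0 : ℝ) ≤ (S.card : ℝ) - c - 1 := le_trans (Nat.cast_nonneg _) hTκ
    rw [h2]
    nlinarith [mul_le_mul_of_nonneg_left h1 h4]

end aux

theorem Red.pia {n s k c : ℕ} {ε : ℝ} {v : Fin k → Fin n → ℤ} {w : Fin k → Fin s → ℕ}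
    {V : Fin n → ℤ} {S : Finset (Fin s)} {b : Fin k → ℝ} (hR : Red c v w V S) (hε : 0 ≤ ε)
    (hb0 : ∀ i, 0 ≤ b i) (hb1 : ∀ i, b i ≤ 1) (hG : Good c ε v w V S b)
    (μ : EuclideanSpace ℝ (Fin k)) (hμ : μ ∈ grp v w V S) (hpos : ∀ i, 0 < μ i) (D : ℝ)
    (hD : ∀ q ∈ S, D ≤ ∑ i, μ i * (w i q : ℝ)) (hD' : ∃ q ∈ S, D = ∑ i, μ i * (w i q : ℝ)) :
    ε ≤ ∑ i, μ i * (1 - b i) - ((S.card : ℝ) - c - 1) * D := by
  obtain ⟨ι, hι⟩ := exists_iota hR b
  have hι1 : ∀ q ∈ S, w (ι q) q ≠ 0 := fun q hq => (hι q hq).1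
  obtain ⟨hδ0, hδ1⟩ := hR.sum_theta hε hG ι hι1
  have hθ0 : ∀ q ∈ S, 0 ≤ (1 - b (ι q)) / (w (ι q) q : ℝ) := fun q _ =>
    div_nonneg (by linarith [hb1 (ι q)]) (Nat.cast_nonneg _)
  have hlow : ∀ (μ : EuclideanSpace ℝ (Fin k)), (∀ i, 0 < μ i) → ∀ D : ℝ,
      (∀ q ∈ S, D ≤ ∑ i, μ i * (w i q : ℝ)) →
      (∑ q ∈ S, (1 - b (ι q)) / (w (ι q) q : ℝ)) * D ≤ ∑ i, μ i * (1 - b i) :=
    fun μ hμ D hD => lower hR hb1 _ hθ0 (fun q hq i hi => (hι q hq).2 i hi) (fun i => μ i)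
      (fun i => (hμ i).le) D hD
  have hDnn : ∀ (μ : EuclideanSpace ℝ (Fin k)), (∀ i, 0 < μ i) → ∀ D : ℝ,
      (∃ q ∈ S, D = ∑ i, μ i * (w i q : ℝ)) → 0 ≤ D := by
    rintro μ hμ D ⟨q, _, rfl⟩
    exact Finset.sum_nonneg fun i _ => mul_nonneg (hμ i).le (Nat.cast_nonneg _)
  by_contra hcon
  push Not at hcon
  rcases hε.eq_or_lt with h0 | h0
  · have h1 := hlow μ hpos D hD
    have h2 := hDnn μ hpos D hD'
    nlinarith [mul_le_mul_of_nonneg_right hδ0 h2]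
  · have hδ := hδ1 h0
    have key : ∀ N : ℕ, ∃ (μ' : EuclideanSpace ℝ (Fin k)) (D₁ : ℝ), μ' ∈ grp v w V S ∧
        (∀ i, 0 < μ' i) ∧ (∀ q ∈ S, D₁ ≤ ∑ i, μ' i * (w i q : ℝ)) ∧
        (∃ q ∈ S, D₁ = ∑ i, μ' i * (w i q : ℝ)) ∧ (N : ℝ) ≤ D₁ ∧
        ∑ i, μ' i * (1 - b i) - ((S.card : ℝ) - c - 1) * D₁ < ε := by
      intro N
      induction N with
      | zero => exact ⟨μ, D, hμ, hpos, hD, hD', by simpa using hDnn μ hpos D hD', hcon⟩
      | succ N ih =>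
        obtain ⟨μ₁, D₁, h1, h2, h3, h4, h5, h6⟩ := ih
        obtain ⟨μ₂, D₂, g1, g2, g3, g4, g5, g6⟩ := step hR hb0 hG ι hι1 μ₁ h1 h2 D₁ h3 h4 h6
        exact ⟨μ₂, D₂, g1, g2, g3, g4, by push_cast; linarith, lt_of_le_of_lt g6 h6⟩
    set δ : ℝ := ∑ q ∈ S, (1 - b (ι q)) / (w (ι q) q : ℝ) - ((S.card : ℝ) - c - 1) with hδdef
    have hδp : 0 < δ := by rw [hδdef]; linarith
    obtain ⟨N, hN⟩ := exists_nat_ge (ε / δ)
    obtain ⟨μ₁, D₁, h1, h2, h3, h4, h5, h6⟩ := key N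
    have h7 := hlow μ₁ h2 D₁ h3
    have h8 : ε ≤ δ * D₁ := by
      rw [div_le_iff₀ hδp] at hN
      nlinarith
    rw [hδdef] at h8
    linarith

end Pool.Agent.Helper98.Arr
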