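import Pool.Agent.Helper98.Arr.Types
import Pool.Agent.Helper98.Arr.Pia
import Pool.Agent.Helper98.Arr.Core

/-!
# Infinitely many violations with the diagonal are impossible

Plan. `N₀` from `Fam.exists_redAt`. Since there are finitely many `(K, N, A)` with `K, N ≤ N₀`
(e.g. the finite type `Σ K : Fin (N₀ + 1), Fin (N₀ + 1) × (Fin K → Fin K → Bool)`), some fixed
`(K, N, A)` has `RedAt F (φ m) K N A` for infinitely many `m` (of `m ≥ 1`; then
`φ m > 0`), say along the subsequence `ψ`. Choose `e, V, S, l`. `1 ≤ c`, `c + 1 ≤ N` by `Red`, so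
`κ = N - c - 1 ≥ 0`. Apply `core` with `ε m = F.ε (φ (ψ m))`,
`B m i = F.B (φ (ψ m)) (e m i)`, `G a j i = F.G (φ (ψ a)) (φ (ψ j)) (e j i)`,
`M m = pageM (w ∘ e)`, `H m = grp (v ∘ e) (w ∘ e) V S`, `D = pageD A`. `hge`: `Red.pia` with
`D = pageD A (M j) μ` (`Red.pageD_le`, `Red.exists_pageD_eq`, rewriting with
`pageA _ = A`); `0 ≤ G ≤ 1` by `F.hG0` and `Complementary.coef_le` (for `F.hyes`). `hH`: integer
vectors are in `grp` (`g = 0`, `x = ∑ z i • v i`). `hsel`: `F.hsel K (φ ∘ ψ ∘ φ')`.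
-/

open Finset Filter Topology

namespace Pool.Agent.Helper98.Arr

open Pool.Agent.Helper31.Toric (intVec)

private lemma intVec_mem_grp {n s k : ℕ} (v : Fin k → Fin n → ℤ) (w : Fin k → Fin s → ℕ)
    (V : Fin n → ℤ) (S : Finset (Fin s)) (z : Fin k → ℤ) : intVec z ∈ grp v w V S := by
  refine ⟨0, fun j => ∑ i, z i * v i j, fun j => ?_, fun q _ => ⟨∑ i, z i * (w i q : ℤ), ?_⟩⟩
  · simp only [Pool.Agent.Helper31.Toric.intVec_apply]
    push_cast
    ring
  · simp only [Pool.Agent.Helper31.Toric.intVec_apply]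
    push_cast
    ring

theorem Fam.caseB {n c : ℕ} (F : Fam n c) (φ : ℕ → ℕ) (hφ : StrictMono φ)
    (h : ∀ m, ViolB c (F.ε (φ m)) (F.v (φ m)) (F.w (φ m)) (F.B (φ m))) : False := by
  obtain ⟨N₀, hN₀⟩ := F.exists_redAt
  have h1 : ∀ m : ℕ, ∃ t : (Σ K : Fin (N₀ + 1), Fin (N₀ + 1) × (Fin K → Fin K → Bool)),
      RedAt F (φ (m + 1)) t.1 t.2.1 t.2.2 := by
    intro m
    have h2 : 0 < φ (m + 1) := lt_of_le_of_lt (Nat.zero_le _) (hφ (Nat.lt_succ_self m))
    obtain ⟨K, N, A, hK, hN, hR⟩ := hN₀ (φ (m + 1)) h2 (h (m + 1))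
    exact ⟨⟨⟨K, by omega⟩, ⟨N, by omega⟩, A⟩, hR⟩
  choose t ht using h1
  obtain ⟨t₀, ht₀⟩ := Finite.exists_infinite_fiber t
  have h2 : ∃ᶠ m in atTop, t m = t₀ := by
    rw [Nat.frequently_atTop_iff_infinite]
    exact Set.infinite_coe_iff.1 ht₀
  obtain ⟨ψ, hψ, hψt⟩ := extraction_of_frequently_atTop h2
  obtain ⟨K, N, A⟩ := t₀
  have hχ : StrictMono fun m => φ (ψ m + 1) := fun a b hab => hφ (by have := hψ hab; omega)
  have h3 : ∀ m, RedAt F (φ (ψ m + 1)) K N A := by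
    intro m
    have h4 := ht (ψ m)
    rw [hψt m] at h4
    exact h4
  choose e V S l hR hS hA hG hl hlH hlt using h3
  have hκ : (0 : ℝ) ≤ ((N : ℕ) : ℝ) - c - 1 := by
    have h4 := (hR 0).card
    rw [hS 0] at h4
    have h5 : ((c : ℝ) + 1) ≤ ((N : ℕ) : ℝ) := by exact_mod_cast h4
    linarith
  refine core (k := K) (fun m => F.ε (φ (ψ m + 1))) (fun m i => F.B (φ (ψ m + 1)) (e m i))
    (fun a j i => F.G (φ (ψ a + 1)) (φ (ψ j + 1)) (e j i))
    (fun m => pageM (fun i => F.w (φ (ψ m + 1)) (e m i)))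
    (fun m => grp (fun i => F.v (φ (ψ m + 1)) (e m i)) (fun i => F.w (φ (ψ m + 1)) (e m i))
      (V m) (S m)) (pageD A) (((N : ℕ) : ℝ) - c - 1) hκ (fun m => pageD_continuous A m)
    (fun m m' μ h4 h5 => pageD_mono A m m' μ h4 h5) (fun m z => intVec_mem_grp _ _ _ _ z)
    l hl hlH hlt ?_ ?_
  · intro a j haj μ hμ hpos
    have hlt' : φ (ψ a + 1) < φ (ψ j + 1) := hχ haj
    have h4 := (hR j).pia (F.hε _) (fun i => F.hG0 (φ (ψ a + 1)) _ (e j i))
      (fun i => by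
        have h5 := (F.hyes _ _ hlt').coef_le (F.data _) (e j i)
        have h6 := F.hε (φ (ψ j + 1))
        linarith)
      (hG j _ hlt') μ hμ hpos
      (pageD A (pageM (fun i => F.w (φ (ψ j + 1)) (e j i))) (fun i => μ i))
      (fun q hq => by
        have h5 := (hR j).pageD_le (fun i => μ i) q hq
        rw [hA j] at h5
        exact h5)
      (by
        obtain ⟨q, hq, h5⟩ := (hR j).exists_pageD_eq (fun i => μ i)
        rw [hA j] at h5
        exact ⟨q, hq, h5⟩)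
    rw [hS j] at h4
    exact h4
  · intro φ' hφ'
    exact F.hsel K (fun m => φ (ψ (φ' m) + 1)) (fun a b hab => hχ (hφ' hab))
      (fun m => e (φ' m))

end Pool.Agent.Helper98.Arr
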