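import Pool.Agent.Helper98.Arr.BoundC
import Pool.Agent.Helper31.Toric.Main

/-!
# Infinitely many violations of the canonical bundle inequality are impossible

Plan. Put `t b w = 1 - (1 - b) / w` (for `w ≥ 1`), which is `≥ 0` for `b ≥ 0`, non-decreasing in
`b`, and non-decreasing in `w` if `b ≤ 1`. `c ≥ 1` (otherwise `s = 0` and `ViolC` says `0 < -1`).
`ViolC` at `m` says: `∑ q, t (B (ι q)) (w (ι q) q) > c + 1`.
Each term is `0` or `≥ c₁ = min (1/2) c₀` (`F.hZB`, `F.hZB'`, and `w = 1` or `w ≥ 2`). Let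
`Q m ⊆ Fin (s m)` be a subset of minimal cardinality with `∑ q ∈ Q m, t > c + 1`; its terms are
positive and `(|Q m| - 1) c₁ ≤ c + 1`, so `|Q m|` is bounded; pass to a subsequence with
`|Q m| = K`, and enumerate `Q m` by `q m : Fin K → Fin (s m)` (injective);
`e m i = ι (q m i)`. Pass to a further subsequence such that the multiplicities
`w (e m i) (q m i)` are non-decreasing in `m` for all `i` (`mono_subseq_finset` of
Pool/Agent/Helper31/Toric/Main.lean with the DCC set of the natural numbers), and apply `F.hsel`.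
For `a < b` in the final subsequence, `F.hyes` is complementary at the level `G a b`:
`G a b ≤ 1` (`Complementary.coef_le`), and `Complementary.sum_theta` (for the choice `ι` of the
index `b`) gives `∑ q, t (G (ι q)) (w (ι q) q) ≤ c + 1`, so `∑ i, t (G (e b i)) (w_b i) ≤ c + 1`
(the other terms are `≥ 0`). For every `δ > 0` and `b` large: `B (e a i) ≤ G (e b i) + δ ≤ 1 + δ`,
so `B (e a i) ≤ 1` (let `δ → 0`), and
`t (B (e a i)) (w_a i) ≤ t (B (e a i)) (w_b i) ≤ t (G (e b i)) (w_b i) + δ`. Sum over `i`: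
`c + 1 < ∑ i, t (B (e a i)) (w_a i) ≤ c + 1 + K δ` for all `δ > 0`, a contradiction.
-/

open Finset Filter Topology

namespace Pool.Agent.Helper98.Arr

private noncomputable def tt (b : ℝ) (w : ℕ) : ℝ := 1 - (1 - b) / (w : ℝ)

private theorem tt_nonneg {b : ℝ} {w : ℕ} (hb : 0 ≤ b) (hw : w ≠ 0) : 0 ≤ tt b w := by
  have hw' : (1 : ℝ) ≤ w := by exact_mod_cast Nat.one_le_iff_ne_zero.2 hw
  have h : (1 - b) / (w : ℝ) ≤ 1 := by
    rw [div_le_one (by linarith)]
    linarith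
  unfold tt
  linarith

private theorem tt_alt {b c₀ : ℝ} {w : ℕ} (hw : w ≠ 0) (hz : b = 0 ∨ c₀ ≤ b) :
    tt b w = 0 ∨ min (1 / 2) c₀ ≤ tt b w := by
  have hw' : (1 : ℝ) ≤ w := by exact_mod_cast Nat.one_le_iff_ne_zero.2 hw
  unfold tt
  rcases hz with rfl | h
  · rcases Nat.lt_or_ge w 2 with h2 | h2
    · left
      have : w = 1 := by omega
      subst this
      norm_num
    · right
      have h2' : (2 : ℝ) ≤ w := by exact_mod_cast h2
      have h3 : (1 - 0) / (w : ℝ) ≤ 1 / 2 := by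
        rw [sub_zero]
        exact one_div_le_one_div_of_le (by norm_num) h2'
      exact (min_le_left _ _).trans (by linarith)
  · right
    rcases le_total b 1 with h1 | h1
    · have h3 : (1 - b) / (w : ℝ) ≤ 1 - b := div_le_self (by linarith) hw'
      exact (min_le_right _ _).trans (by linarith)
    · have h3 : (1 - b) / (w : ℝ) ≤ 0 := div_nonpos_of_nonpos_of_nonneg (by linarith) (by linarith)
      exact (min_le_left _ _).trans (by linarith)

private theorem select {s : ℕ} (f : Fin s → ℝ) {c₁ A : ℝ} (hA : 0 ≤ A)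
    (hf : ∀ q, f q = 0 ∨ c₁ ≤ f q) (h : A < ∑ q, f q) :
    ∃ (K : ℕ) (q : Fin K → Fin s), Function.Injective q ∧ A < ∑ i, f (q i) ∧
      ((K : ℝ) - 1) * c₁ ≤ A := by
  classical
  obtain ⟨Q, hQ, hmin⟩ := Finset.exists_min_image
    ((univ : Finset (Fin s)).powerset.filter fun Q => A < ∑ q ∈ Q, f q) Finset.card
    ⟨univ, Finset.mem_filter.2 ⟨Finset.mem_powerset.2 (Finset.subset_univ _), h⟩⟩
  have hQ' : A < ∑ q ∈ Q, f q := (Finset.mem_filter.1 hQ).2
  have her : ∀ q ∈ Q, ∑ x ∈ Q.erase q, f x ≤ A := by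
    intro q hq
    by_contra hc
    have h1 := hmin (Q.erase q) (Finset.mem_filter.2
      ⟨Finset.mem_powerset.2 (Finset.subset_univ _), not_le.1 hc⟩)
    rw [Finset.card_erase_of_mem hq] at h1
    have h2 := Finset.card_pos.2 ⟨q, hq⟩
    omega
  have hpos : ∀ q ∈ Q, c₁ ≤ f q := by
    intro q hq
    rcases hf q with h0 | h0
    · exfalso
      have h1 := her q hq
      have h2 := Finset.add_sum_erase Q f hq
      linarith
    · exact h0
  have hne : Q.Nonempty := by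
    rw [Finset.nonempty_iff_ne_empty]
    rintro rfl
    rw [Finset.sum_empty] at hQ'
    linarith
  refine ⟨Q.card, fun i => ((Q.equivFin.symm i : Q) : Fin s), ?_, ?_, ?_⟩
  · exact Subtype.val_injective.comp Q.equivFin.symm.injective
  · rw [Equiv.sum_comp Q.equivFin.symm (fun x : Q => f x), Finset.sum_coe_sort Q f]
    exact hQ'
  · obtain ⟨q, hq⟩ := hne
    have h1 := her q hq
    have h2 : ((Q.erase q).card : ℝ) * c₁ ≤ ∑ x ∈ Q.erase q, f x := by
      rw [← nsmul_eq_mul]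
      exact Finset.card_nsmul_le_sum _ _ _ (fun x hx => hpos x (Finset.mem_of_mem_erase hx))
    rw [Finset.card_erase_of_mem hq, Nat.cast_sub (Finset.card_pos.2 ⟨q, hq⟩)] at h2
    push_cast at h2
    linarith

private theorem dcc_nat : Pool.Agent.Helper31.Toric.DCC (Set.range (fun k : ℕ => (k : ℝ))) := by
  rintro ⟨f, hf, hr⟩
  choose g hg using hr
  have hg' : StrictAnti g := by
    intro a b hab
    have h := hf hab
    rw [← hg a, ← hg b] at h
    have h' : (g b : ℝ) < (g a : ℝ) := h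
    exact_mod_cast h'
  have key : ∀ k, g k + k ≤ g 0 := by
    intro k
    induction k with
    | zero => simp
    | succ k ih =>
      have h1 : g (k + 1) < g k := hg' (Nat.lt_succ_self k)
      omega
  have := key (g 0 + 1)
  omega

private theorem sum_tt {s r : ℕ} (w : Fin r → Fin s → ℕ) (b : Fin r → ℝ) (ι : Fin s → Fin r) :
    ∑ q, tt (b (ι q)) (w (ι q) q) = s - ∑ q, (1 - b (ι q)) / (w (ι q) q : ℝ) := by
  unfold tt
  rw [Finset.sum_sub_distrib]
  simp

theorem Fam.caseC {n c : ℕ} (F : Fam n c) (φ : ℕ → ℕ) (hφ : StrictMono φ)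
    (h : ∀ m, ViolC c (F.w (φ m)) (F.B (φ m))) : False := by
  classical
  have hc : 1 ≤ c := by
    rcases (F.data (φ 0)).1 with ⟨h1, h2⟩ | ⟨h1, _⟩
    · exfalso
      obtain ⟨ι, _, h3⟩ := h 0
      have h4 : (∑ q, (1 - F.B (φ 0) (ι q)) / (F.w (φ 0) (ι q) q : ℝ)) = 0 := by
        refine Finset.sum_eq_zero fun q _ => ?_
        exact absurd q.2 (by omega)
      rw [h4, h2, h1] at h3
      norm_num at h3
    · exact h1
  choose ι hι hV using h
  set c₁ : ℝ := min (1 / 2) F.c₀ with hc₁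
  have hc₁p : 0 < c₁ := lt_min (by norm_num) F.hc₀
  obtain ⟨N, hN⟩ := exists_nat_gt (((c : ℝ) + 1) / c₁ + 1)
  have hsel : ∀ m, ∃ K ∈ Finset.range (N + 1), ∃ q : Fin K → Fin (F.s (φ m)), Function.Injective q ∧
      (c : ℝ) + 1 < ∑ i, tt (F.B (φ m) (ι m (q i))) (F.w (φ m) (ι m (q i)) (q i)) := by
    intro m
    obtain ⟨K, q, h1, h2, h3⟩ := select
      (fun q => tt (F.B (φ m) (ι m q)) (F.w (φ m) (ι m q) q))
      (c₁ := c₁) (A := (c : ℝ) + 1) (by positivity) (fun q => tt_alt (hι m q) (by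
        by_cases hz : F.Z (φ m) (ι m q)
        · exact Or.inl (F.hZB _ _ hz)
        · exact Or.inr (F.hZB' _ _ hz))) (by
        rw [sum_tt]
        linarith [hV m])
    refine ⟨K, ?_, q, h1, h2⟩
    rw [Finset.mem_range]
    have h4 : (K : ℝ) - 1 ≤ ((c : ℝ) + 1) / c₁ := by
      rw [le_div_iff₀ hc₁p]
      exact h3
    have h5 : (K : ℝ) < N := by linarith
    have h6 : K < N := by exact_mod_cast h5
    omega
  have hfreq : ∃ K, ∃ᶠ m in atTop, ∃ q : Fin K → Fin (F.s (φ m)), Function.Injective q ∧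
      (c : ℝ) + 1 < ∑ i, tt (F.B (φ m) (ι m (q i))) (F.w (φ m) (ι m (q i)) (q i)) := by
    by_contra hcon
    have h1 : ∀ K ∈ Finset.range (N + 1), ∀ᶠ m in atTop, ¬ ∃ q : Fin K → Fin (F.s (φ m)),
        Function.Injective q ∧
        (c : ℝ) + 1 < ∑ i, tt (F.B (φ m) (ι m (q i))) (F.w (φ m) (ι m (q i)) (q i)) := by
      intro K _
      by_contra h2
      exact hcon ⟨K, h2⟩
    obtain ⟨m, hm⟩ := ((Filter.eventually_all_finset (Finset.range (N + 1))).2 h1).exists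
    obtain ⟨K, hK, hq⟩ := hsel m
    exact hm K hK hq
  obtain ⟨K, hK⟩ := hfreq
  obtain ⟨ψ, hψ, hq⟩ := Filter.extraction_of_frequently_atTop hK
  choose q hqi hqs using hq
  obtain ⟨χ, hχ, hW⟩ := Pool.Agent.Helper31.Toric.mono_subseq_finset (ι := Fin K) Finset.univ
    (fun i m => ((F.w (φ (ψ m)) (ι (ψ m) (q m i)) (q m i) : ℕ) : ℝ))
    (fun _ => Set.range (fun k : ℕ => (k : ℝ))) (fun _ => dcc_nat) (fun i m => ⟨_, rfl⟩)
  obtain ⟨g, hg, _, hlim⟩ := F.hsel K (φ ∘ ψ ∘ χ) (hφ.comp (hψ.comp hχ))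
    (fun m i => ι (ψ (χ m)) (q (χ m) i))
  simp only [Function.comp_apply] at hlim hW
  -- the bound at the level `G`
  have hG : ∀ a b, a < b → (∀ i, F.G a b i ≤ 1) := by
    intro a b hab i
    have h1 := Complementary.coef_le (F.data b) (F.hyes a b hab) i
    have h2 := F.hε b
    linarith
  have hbig := hqs (χ (g 0))
  set S : ℝ := ∑ i, tt (F.B (φ (ψ (χ (g 0)))) (ι (ψ (χ (g 0))) (q (χ (g 0)) i)))
    (F.w (φ (ψ (χ (g 0)))) (ι (ψ (χ (g 0))) (q (χ (g 0)) i)) (q (χ (g 0)) i)) with hS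
  have hlt : ∀ b, 0 < b → φ (ψ (χ (g 0))) < φ (ψ (χ (g b))) := fun b hb =>
    hφ (hψ (hχ (hg hb)))
  have hB1 : ∀ i, F.B (φ (ψ (χ (g 0)))) (ι (ψ (χ (g 0))) (q (χ (g 0)) i)) ≤ 1 := by
    intro i
    refine le_of_forall_pos_le_add fun δ hδ => ?_
    obtain ⟨b, hb1, hb2⟩ := ((hlim 0 δ hδ).and (eventually_gt_atTop 0)).exists
    have h1 := hb1 i
    have h2 := hG _ _ (hlt b hb2) (ι (ψ (χ (g b))) (q (χ (g b)) i))
    linarith
  have hfin : ∀ δ : ℝ, 0 < δ → S ≤ (c : ℝ) + 1 + K * δ := by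
    intro δ hδ
    obtain ⟨b, hb1, hb2⟩ := ((hlim 0 δ hδ).and (eventually_gt_atTop 0)).exists
    have h1 := Complementary.sum_theta (F.data (φ (ψ (χ (g b))))) hc (F.hε (φ (ψ (χ (g b))))) (F.hyes (φ (ψ (χ (g 0)))) (φ (ψ (χ (g b)))) (hlt b hb2))
      (ι (ψ (χ (g b)))) (hι (ψ (χ (g b))))
    have h2 : ∑ x, tt (F.G (φ (ψ (χ (g 0)))) (φ (ψ (χ (g b)))) (ι (ψ (χ (g b))) x)) (F.w (φ (ψ (χ (g b)))) (ι (ψ (χ (g b))) x) x) ≤
        (c : ℝ) + 1 := by
      rw [sum_tt]
      linarith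
    have h3 : ∑ i, tt (F.G (φ (ψ (χ (g 0)))) (φ (ψ (χ (g b)))) (ι (ψ (χ (g b))) (q (χ (g b)) i)))
        (F.w (φ (ψ (χ (g b)))) (ι (ψ (χ (g b))) (q (χ (g b)) i)) (q (χ (g b)) i)) ≤ (c : ℝ) + 1 := by
      refine le_trans ?_ h2
      have e := Finset.sum_map Finset.univ ⟨q (χ (g b)), hqi (χ (g b))⟩
        (fun x => tt (F.G (φ (ψ (χ (g 0)))) (φ (ψ (χ (g b)))) (ι (ψ (χ (g b))) x)) (F.w (φ (ψ (χ (g b)))) (ι (ψ (χ (g b))) x) x))
      simp only [Function.Embedding.coeFn_mk] at e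
      rw [← e]
      exact Finset.sum_le_sum_of_subset_of_nonneg (Finset.subset_univ _)
        (fun x _ _ => tt_nonneg (F.hG0 _ _ _) (hι _ x))
    have h4 : S ≤ ∑ i, (tt (F.G (φ (ψ (χ (g 0)))) (φ (ψ (χ (g b)))) (ι (ψ (χ (g b))) (q (χ (g b)) i)))
        (F.w (φ (ψ (χ (g b)))) (ι (ψ (χ (g b))) (q (χ (g b)) i)) (q (χ (g b)) i)) + δ) := by
      rw [hS]
      refine Finset.sum_le_sum fun i _ => ?_
      have k1 := hb1 i
      have k2 := hB1 i
      have k3 := hW i (Finset.mem_univ i) (hg.monotone (Nat.zero_le b))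
      simp only [Function.comp_apply] at k3
      have k4 : (1 : ℝ) ≤ (F.w (φ (ψ (χ (g 0)))) (ι (ψ (χ (g 0))) (q (χ (g 0)) i))
          (q (χ (g 0)) i) : ℝ) := by
        exact_mod_cast Nat.one_le_iff_ne_zero.2 (hι _ _)
      unfold tt
      set w0 : ℝ := (F.w (φ (ψ (χ (g 0)))) (ι (ψ (χ (g 0))) (q (χ (g 0)) i)) (q (χ (g 0)) i) : ℝ) with hw0
      set w1 : ℝ := (F.w (φ (ψ (χ (g b)))) (ι (ψ (χ (g b))) (q (χ (g b)) i)) (q (χ (g b)) i) : ℝ) with hw1
      set B0 : ℝ := F.B (φ (ψ (χ (g 0)))) (ι (ψ (χ (g 0))) (q (χ (g 0)) i)) with hB0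
      set G1 : ℝ := F.G (φ (ψ (χ (g 0)))) (φ (ψ (χ (g b)))) (ι (ψ (χ (g b))) (q (χ (g b)) i)) with hG1
      have k5 : (1 - B0) / w1 ≤ (1 - B0) / w0 :=
        div_le_div_of_nonneg_left (by linarith) (by linarith) k3
      have k6 : (1 - G1) / w1 ≤ (1 - B0) / w1 + δ := by
        have k7 : (1 - G1) / w1 - (1 - B0) / w1 = (B0 - G1) / w1 := by ring
        have k8 : (B0 - G1) / w1 ≤ δ / w1 :=
          div_le_div_of_nonneg_right (by linarith) (by linarith)
        have k9 : δ / w1 ≤ δ := div_le_self hδ.le (by linarith)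
        linarith
      linarith
    rw [Finset.sum_add_distrib] at h4
    simp only [Finset.sum_const, Finset.card_univ, Fintype.card_fin, nsmul_eq_mul] at h4
    linarith
  have hη : 0 < (S - (c + 1)) / (K + 1) := by
    have : 0 < S - (c + 1) := by linarith
    positivity
  have h1 := hfin _ hη
  have h2 : (K : ℝ) * ((S - (c + 1)) / (K + 1)) < S - (c + 1) := by
    have h3 : (0 : ℝ) < K + 1 := by positivity
    rw [← mul_div_assoc, div_lt_iff₀ h3]
    nlinarith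
  linarith

end Pool.Agent.Helper98.Arr
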