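import Pool.Agent.Helper98.Arr.Engine
import Pool.Agent.Helper31.Toric.Decomp

/-!
# Decomposed complements
-/

open Finset Filter Topology

namespace Pool.Agent.Helper98.Arr

private theorem dcc_insert {Γ : Set ℝ} (h : DCC Γ) : DCC (insert 0 Γ) := by
  rintro ⟨f, hf, hm⟩
  by_cases hex : ∃ n, f n = 0
  · obtain ⟨n0, hn0⟩ := hex
    refine h ⟨fun n => f (n + (n0 + 1)), fun a b hab => hf (by omega), fun n => ?_⟩
    rcases Set.mem_insert_iff.1 (hm (n + (n0 + 1))) with h1 | h1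
    · exfalso
      have h2 : f (n + (n0 + 1)) < f n0 := hf (by omega)
      rw [h1, hn0] at h2
      exact lt_irrefl _ h2
    · exact h1
  · push Not at hex
    refine h ⟨f, hf, fun n => ?_⟩
    rcases Set.mem_insert_iff.1 (hm n) with h1 | h1
    · exact absurd h1 (hex n)
    · exact h1

private theorem sel {E Γ : Set ℝ} (hE : DCC E) (hΓ : DCC Γ) {k : ℕ} (ε : ℕ → ℝ)
    (β : ℕ → Fin k → ℝ) (N : ℕ → ℕ) (hN : ∀ n, n ≤ N n) (hε : ∀ n, ε n ∈ E)
    (hβ : ∀ n i, β n i ∈ Γ) (hβ1 : ∀ n i, β n i ≤ 1) :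
    ∃ g : ℕ → ℕ, StrictMono g ∧ (∀ a b, a ≤ b → ε (g a) ≤ ε (g b)) ∧
      ∀ a, ∀ δ : ℝ, 0 < δ → ∀ᶠ b in atTop, ∀ i,
        Helper31.Toric.rnd Γ (N (g a) + 1) (β (g a) i) ≤ β (g b) i + δ := by
  classical
  obtain ⟨g, hg, hmono⟩ := Helper31.Toric.mono_subseq_finset (ι := Unit ⊕ Fin k) Finset.univ
    (Sum.elim (fun _ => ε) (fun i n => β n i))
    (Sum.elim (fun _ => E) (fun _ => Γ))
    (by
      rintro (i | i)
      · exact hE
      · exact hΓ)
    (by
      rintro (i | i) n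
      · exact hε n
      · exact hβ n i)
  have mε : Monotone (ε ∘ g) := hmono (Sum.inl ()) (Finset.mem_univ _)
  have mβ : ∀ i, Monotone ((fun n => β n i) ∘ g) := fun i =>
    hmono (Sum.inr i) (Finset.mem_univ _)
  have hbdd : ∀ i, BddAbove (Set.range ((fun n => β n i) ∘ g)) := fun i =>
    ⟨1, by rintro _ ⟨n, rfl⟩; exact hβ1 _ i⟩
  let b : Fin k → ℝ := fun i => ⨆ n, ((fun n => β n i) ∘ g) n
  have hlim : ∀ i, Tendsto ((fun n => β n i) ∘ g) atTop (𝓝 (b i)) := fun i =>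
    tendsto_atTop_ciSup (mβ i) (hbdd i)
  have hble : ∀ i n, β (g n) i ≤ b i := fun i n => le_ciSup (hbdd i) n
  have hgap : ∀ i, ∃ η : ℝ, 0 < η ∧ ∀ x ∈ Γ, x < b i + η → x ≤ b i := by
    intro i
    by_cases hex : ∃ x ∈ Γ, b i < x
    · obtain ⟨x, _, hx2, hx3⟩ := Helper31.Toric.DCC.exists_min hΓ (fun x => b i < x) hex
      refine ⟨x - b i, by linarith, fun z hz hlt => ?_⟩
      by_contra hcon
      push Not at hcon
      have := hx3 z hz hcon
      linarith
    · push Not at hex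
      exact ⟨1, one_pos, fun x hx _ => hex x hx⟩
  choose η hη hηb using hgap
  -- a uniform index
  obtain ⟨M, hM⟩ : ∃ M : ℕ, ∀ i, 1 / η i < M := by
    obtain ⟨M, hM⟩ := exists_nat_gt (∑ i, 1 / η i)
    refine ⟨M, fun i => lt_of_le_of_lt ?_ hM⟩
    exact Finset.single_le_sum (f := fun i => 1 / η i)
      (fun j _ => (one_div_pos.2 (hη j)).le) (Finset.mem_univ i)
  have hround : ∀ n, M + 1 ≤ n → ∀ i,
      Helper31.Toric.rnd Γ (N (g n) + 1) (β (g n) i) ≤ b i := by
    intro n hn i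
    have h0 : M < N (g n) + 1 := by
      have := hN (g n)
      have := hg.le_apply (x := n)
      omega
    refine Helper31.Toric.rnd_le (hβ _ i) fun x hx hcell => hηb i x hx ?_
    have h1 := Helper31.Toric.cell_le (Nat.succ_pos _) hcell
    have h2 := hble i n
    have h3 : 1 / ((N (g n) + 1 : ℕ) : ℝ) < η i := by
      have h4 : 1 / η i < ((N (g n) + 1 : ℕ) : ℝ) := (hM i).trans (by exact_mod_cast h0)
      have h5 : 0 < η i := hη i
      have h6 : (0 : ℝ) < ((N (g n) + 1 : ℕ) : ℝ) := by positivity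
      rw [div_lt_iff₀ h5] at h4
      rw [div_lt_iff₀ h6]
      linarith
    linarith
  refine ⟨fun a => g (a + (M + 1)), fun a b' hab => hg (by omega), fun a b' hab => ?_,
    fun a δ hδ => ?_⟩
  · exact mε (show a + (M + 1) ≤ b' + (M + 1) by omega)
  · rw [Filter.eventually_all]
    intro i
    have h1 := Metric.tendsto_nhds.mp (hlim i) δ hδ
    have h2 : Tendsto (fun j : ℕ => j + (M + 1)) atTop atTop := tendsto_add_atTop_nat (M + 1)
    filter_upwards [h2.eventually h1] with j hj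
    rw [Real.dist_eq, abs_lt] at hj
    have h3 := hround (a + (M + 1)) (by omega) i
    have h4 : -δ < β (g (j + (M + 1))) i - b i := hj.1
    linarith

private def Bad (E Γ : Set ℝ) (N n c : ℕ) : Prop :=
  ∃ (s r : ℕ) (ε : ℝ) (v : Fin r → Fin n → ℤ) (w : Fin r → Fin s → ℕ) (b : Fin r → ℝ),
    IsData c v w ∧ ε ∈ E ∧ 0 ≤ ε ∧ (∀ i, (b i = 0 ∨ b i ∈ Γ) ∧ 0 ≤ b i) ∧
    Complementary c ε v w b ∧
    ¬ Complementary c ε v w (fun i => Helper31.Toric.rnd (insert 0 Γ) (N + 1) (b i))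

private theorem rnd_zero (Γ : Set ℝ) (N : ℕ) :
    Helper31.Toric.rnd (insert 0 Γ) (N + 1) 0 = 0 := by
  have h0 : (0 : ℝ) ∈ insert (0 : ℝ) Γ := Set.mem_insert _ _
  refine le_antisymm ?_ (Helper31.Toric.le_rnd (Nat.succ_pos N) h0)
  refine Helper31.Toric.rnd_le h0 fun x _ hx => ?_
  rw [zero_mul, Int.ceil_zero] at hx
  have h1 := Int.le_ceil (x * ((N + 1 : ℕ) : ℝ))
  rw [hx, Int.cast_zero] at h1
  have h2 : (0 : ℝ) < ((N + 1 : ℕ) : ℝ) := by positivity
  by_contra hcon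
  push Not at hcon
  have := mul_pos hcon h2
  linarith

theorem exists_decomposed (d : ℕ) {E Γ : Set ℝ} (hE : DCC E) (hΓ : DCC Γ) :
    Decomposed d E Γ := by
  classical
  by_contra hcon
  have hΓ' := dcc_insert hΓ
  -- bad pairs
  have hbad : ∀ N : ℕ, ∃ n c, n + c = d ∧ Bad E Γ N n c := by
    intro N
    by_contra hno
    refine hcon ⟨_, Helper31.Toric.rnd_finite (insert 0 Γ) (N + 1), ?_⟩
    intro n c s r ε v w b hnc hd hε hε0 hb hcomp
    refine ⟨fun i => Helper31.Toric.rnd (insert 0 Γ) (N + 1) (b i), fun i => ?_, ?_⟩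
    · have hbi : b i ∈ insert (0 : ℝ) Γ := Set.mem_insert_iff.2 (hb i).1
      refine ⟨Helper31.Toric.le_rnd (Nat.succ_pos N) hbi, b i, hbi, (hb i).2, ?_, rfl⟩
      have := hcomp.coef_le hd i
      linarith
    · by_contra hnot
      exact hno ⟨n, c, hnc, s, r, ε, v, w, b, hd, hε, hε0, hb, hcomp, hnot⟩
  choose n c hnc hQ using hbad
  obtain ⟨K, hK⟩ : ∃ K : ℕ, ∃ᶠ m in atTop, c m = K := by
    by_contra hcon'
    push Not at hcon'
    have h3 : ∀ᶠ m in atTop, ∀ K ∈ Finset.range (d + 1), ¬ c m = K := by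
      rw [Filter.eventually_all_finset]
      intro K _
      exact hcon' K
    obtain ⟨m, hm⟩ := h3.exists
    have := hnc m
    exact hm (c m) (Finset.mem_range.mpr (by omega)) rfl
  obtain ⟨θ, hθ, hθK⟩ := Filter.extraction_of_frequently_atTop hK
  have hQ' : ∀ m, Bad E Γ (θ m) (d - K) K := by
    intro m
    have h1 := hQ (θ m)
    have h2 := hnc (θ m)
    have h3 := hθK m
    have h4 : n (θ m) = d - K := by omega
    rw [h3, h4] at h1
    exact h1
  choose s r ε v w b hd hε hε0 hb hcomp hnot using hQ'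
  have hb1 : ∀ m i, b m i ≤ 1 := by
    intro m i
    have := (hcomp m).coef_le (hd m) i
    have := hε0 m
    linarith
  have hbΓ : ∀ m i, b m i ∈ insert (0 : ℝ) Γ := fun m i => Set.mem_insert_iff.2 (hb m i).1
  have hle : ∀ m i, b m i ≤ Helper31.Toric.rnd (insert 0 Γ) (θ m + 1) (b m i) := fun m i =>
    Helper31.Toric.le_rnd (Nat.succ_pos _) (hbΓ m i)
  -- lower bound of the positive elements
  obtain ⟨c₀, hc₀, hc₀Γ⟩ : ∃ c₀ : ℝ, 0 < c₀ ∧ ∀ x ∈ Γ, 0 < x → c₀ ≤ x := by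
    by_cases hex : ∃ x ∈ Γ, (0 : ℝ) < x
    · obtain ⟨x, _, hx2, hx3⟩ := Helper31.Toric.DCC.exists_min hΓ (fun x => (0 : ℝ) < x) hex
      exact ⟨x, hx2, hx3⟩
    · push Not at hex
      exact ⟨1, one_pos, fun x hx h => absurd h (not_lt.2 (hex x hx))⟩
  have hpos : ∀ m i, b m i ≠ 0 → c₀ ≤ b m i := by
    intro m i h0
    rcases (hb m i).1 with h1 | h1
    · exact absurd h1 h0
    · exact hc₀Γ _ h1 (lt_of_le_of_ne (hb m i).2 (Ne.symm h0))
  let F : Fam (d - K) K :=
    { s := s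
      r := r
      v := v
      w := w
      ε := ε
      B := fun m i => Helper31.Toric.rnd (insert 0 Γ) (θ m + 1) (b m i)
      G := fun _ m => b m
      Z := fun m i => b m i = 0
      c₀ := c₀
      data := hd
      hε := hε0
      hB0 := fun m i => (hb m i).2.trans (hle m i)
      hG0 := fun _ m i => (hb m i).2
      hc₀ := hc₀
      hZB := fun m i h => by
        show Helper31.Toric.rnd (insert 0 Γ) (θ m + 1) (b m i) = 0
        rw [h]
        exact rnd_zero Γ (θ m)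
      hZG := fun _ _ _ h => h
      hZB' := fun m i h => (hpos m i h).trans (hle m i)
      hZG' := fun _ m i h => hpos m i h
      hnot := hnot
      hyes := fun _ m _ => hcomp m
      hsel := fun K' φ hφ e => sel hE hΓ' (fun m => ε (φ m)) (fun m i => b (φ m) (e m i))
        (fun m => θ (φ m)) (fun m => (hφ.le_apply).trans hθ.le_apply) (fun m => hε _)
        (fun m i => hbΓ _ _) (fun m i => hb1 _ _) }
  exact F.false

end Pool.Agent.Helper98.Arr
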