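import Pool.Agent.Helper98.Arr.Statement
import Pool.Agent.Helper31.Toric.Limit

/-!
# Arrangement complements: working definitions

`Ind0`, `Ind1`: independence of the vectors `(v i, w i)` (without or with the diagonal vector).
`Red`: reduced data (some hyperplanes `S ⊆ Fin s` are kept; `V` is the sum of the vectors of the
removed hyperplanes). `Good`: weak duality for reduced data. `grp`, `grp0`: the groups of
coefficient vectors. `Fam`: the data of a hypothetical counterexample to the chain condition.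
-/

open Finset Filter Topology

namespace Pool.Agent.Helper98.Arr

/-- The vectors `(v i, w i)` are linearly independent. -/
def Ind0 {n s k : ℕ} (v : Fin k → Fin n → ℤ) (w : Fin k → Fin s → ℕ) : Prop :=
  ∀ μ : Fin k → ℝ, (∀ j, ∑ i, μ i * (v i j : ℝ) = 0) → (∀ q, ∑ i, μ i * (w i q : ℝ) = 0) →
    μ = 0

/-- The vectors `(v i, w i)` and `(0, 1)` are linearly independent. -/
def Ind1 {n s k : ℕ} (v : Fin k → Fin n → ℤ) (w : Fin k → Fin s → ℕ) : Prop :=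
  ∀ (μ : Fin k → ℝ) (h : ℝ), (∀ j, ∑ i, μ i * (v i j : ℝ) = 0) →
    (∀ q, ∑ i, μ i * (w i q : ℝ) = h) → μ = 0 ∧ h = 0

/-- Reduced data. -/
structure Red {n s k : ℕ} (c : ℕ) (v : Fin k → Fin n → ℤ) (w : Fin k → Fin s → ℕ)
    (V : Fin n → ℤ) (S : Finset (Fin s)) : Prop where
  hc : 1 ≤ c
  card : c + 1 ≤ S.card
  page : ∀ q ∈ S, ∃ i, w i q ≠ 0
  uniq : ∀ i q q', w i q ≠ 0 → w i q' ≠ 0 → q = q'
  supp : ∀ i q, w i q ≠ 0 → q ∈ S
  ind : ∀ (μ : Fin k → ℝ) (h : ℝ), (∀ j, ∑ i, μ i * (v i j : ℝ) + h * (V j : ℝ) = 0) →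
    (∀ q ∈ S, ∑ i, μ i * (w i q : ℝ) = h) → μ = 0 ∧ h = 0

/-- Weak duality for reduced data: all non-negative combinations which give a valuation have
cost at least `ε`. -/
def Good {n s k : ℕ} (c : ℕ) (ε : ℝ) (v : Fin k → Fin n → ℤ) (w : Fin k → Fin s → ℕ)
    (V : Fin n → ℤ) (S : Finset (Fin s)) (b : Fin k → ℝ) : Prop :=
  ∀ (μ : Fin k → ℝ) (g : ℝ) (x : Fin n → ℤ) (z : Fin s → ℕ), (∀ i, 0 ≤ μ i) → 0 ≤ g →
    IsVal c x z → (∀ q, q ∉ S → z q = 0) →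
    (∀ j, (x j : ℝ) = ∑ i, μ i * (v i j : ℝ) + g * (V j : ℝ)) →
    (∀ q ∈ S, (z q : ℝ) + g = ∑ i, μ i * (w i q : ℝ)) →
    ε ≤ ∑ i, μ i * (1 - b i) - g * ((S.card : ℝ) - c - 1)

/-- The coefficient vectors of reduced data whose combination is a lattice vector modulo the
diagonal. -/
def grp {n s k : ℕ} (v : Fin k → Fin n → ℤ) (w : Fin k → Fin s → ℕ) (V : Fin n → ℤ)
    (S : Finset (Fin s)) : AddSubgroup (EuclideanSpace ℝ (Fin k)) where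
  carrier := {μ | ∃ (g : ℝ) (x : Fin n → ℤ),
    (∀ j, (x j : ℝ) = ∑ i, μ i * (v i j : ℝ) + g * (V j : ℝ)) ∧
    ∀ q ∈ S, ∃ z : ℤ, ∑ i, μ i * (w i q : ℝ) = g + z}
  add_mem' := by
    rintro a b ⟨g, x, h1, h2⟩ ⟨g', x', h1', h2'⟩
    refine ⟨g + g', x + x', fun j => ?_, fun q hq => ?_⟩
    · simp only [Pi.add_apply, Int.cast_add, h1 j, h1' j, PiLp.add_apply, add_mul,
        Finset.sum_add_distrib]
      ring
    · obtain ⟨z, hz⟩ := h2 q hq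
      obtain ⟨z', hz'⟩ := h2' q hq
      refine ⟨z + z', ?_⟩
      simp only [PiLp.add_apply, add_mul, Finset.sum_add_distrib, hz, hz', Int.cast_add]
      ring
  zero_mem' := ⟨0, 0, fun j => by simp, fun q _ => ⟨0, by simp⟩⟩
  neg_mem' := by
    rintro a ⟨g, x, h1, h2⟩
    refine ⟨-g, -x, fun j => ?_, fun q hq => ?_⟩
    · simp only [Pi.neg_apply, Int.cast_neg, h1 j, PiLp.neg_apply, neg_mul,
        Finset.sum_neg_distrib]
      ring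
    · obtain ⟨z, hz⟩ := h2 q hq
      refine ⟨-z, ?_⟩
      simp only [PiLp.neg_apply, neg_mul, Finset.sum_neg_distrib, hz, Int.cast_neg]
      ring

theorem mem_grp {n s k : ℕ} (v : Fin k → Fin n → ℤ) (w : Fin k → Fin s → ℕ) (V : Fin n → ℤ)
    (S : Finset (Fin s)) (μ : EuclideanSpace ℝ (Fin k)) :
    μ ∈ grp v w V S ↔ ∃ (g : ℝ) (x : Fin n → ℤ),
      (∀ j, (x j : ℝ) = ∑ i, μ i * (v i j : ℝ) + g * (V j : ℝ)) ∧
      ∀ q ∈ S, ∃ z : ℤ, ∑ i, μ i * (w i q : ℝ) = g + z := Iff.rfl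

/-- The coefficient vectors whose combination is a lattice vector. -/
def grp0 {n s k : ℕ} (v : Fin k → Fin n → ℤ) (w : Fin k → Fin s → ℕ) :
    AddSubgroup (EuclideanSpace ℝ (Fin k)) where
  carrier := {μ | ∃ (x : Fin n → ℤ) (z : Fin s → ℤ), (∀ j, (x j : ℝ) = ∑ i, μ i * (v i j : ℝ)) ∧
    ∀ q, (z q : ℝ) = ∑ i, μ i * (w i q : ℝ)}
  add_mem' := by
    rintro a b ⟨x, z, h1, h2⟩ ⟨x', z', h1', h2'⟩
    refine ⟨x + x', z + z', fun j => ?_, fun q => ?_⟩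
    · simp only [Pi.add_apply, Int.cast_add, h1 j, h1' j, PiLp.add_apply, add_mul,
        Finset.sum_add_distrib]
    · simp only [Pi.add_apply, Int.cast_add, h2 q, h2' q, PiLp.add_apply, add_mul,
        Finset.sum_add_distrib]
  zero_mem' := ⟨0, 0, fun j => by simp, fun q => by simp⟩
  neg_mem' := by
    rintro a ⟨x, z, h1, h2⟩
    refine ⟨-x, -z, fun j => ?_, fun q => ?_⟩
    · simp only [Pi.neg_apply, Int.cast_neg, h1 j, PiLp.neg_apply, neg_mul,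
        Finset.sum_neg_distrib]
    · simp only [Pi.neg_apply, Int.cast_neg, h2 q, PiLp.neg_apply, neg_mul,
        Finset.sum_neg_distrib]

theorem mem_grp0 {n s k : ℕ} (v : Fin k → Fin n → ℤ) (w : Fin k → Fin s → ℕ)
    (μ : EuclideanSpace ℝ (Fin k)) :
    μ ∈ grp0 v w ↔ ∃ (x : Fin n → ℤ) (z : Fin s → ℤ),
      (∀ j, (x j : ℝ) = ∑ i, μ i * (v i j : ℝ)) ∧ ∀ q, (z q : ℝ) = ∑ i, μ i * (w i q : ℝ) :=
  Iff.rfl

/-- A violating basic combination of the rays without the diagonal. -/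
def ViolA {n s r : ℕ} (c : ℕ) (ε : ℝ) (v : Fin r → Fin n → ℤ) (w : Fin r → Fin s → ℕ)
    (b : Fin r → ℝ) : Prop :=
  ∃ (k : ℕ) (e : Fin k → Fin r) (l : Fin k → ℝ) (x : Fin n → ℤ) (z : Fin s → ℕ),
    IsVal c x z ∧ (∀ i, 0 < l i) ∧ (∀ j, (x j : ℝ) = ∑ i, l i * (v (e i) j : ℝ)) ∧
    (∀ q, (z q : ℝ) = ∑ i, l i * (w (e i) q : ℝ)) ∧
    Ind0 (fun i => v (e i)) (fun i => w (e i)) ∧ ∑ i, l i * (1 - b (e i)) < ε

/-- A violating basic combination of the rays with the diagonal. -/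
def ViolB {n s r : ℕ} (c : ℕ) (ε : ℝ) (v : Fin r → Fin n → ℤ) (w : Fin r → Fin s → ℕ)
    (b : Fin r → ℝ) : Prop :=
  ∃ (k : ℕ) (e : Fin k → Fin r) (l : Fin k → ℝ) (g : ℝ) (x : Fin n → ℤ) (z : Fin s → ℕ),
    IsVal c x z ∧ (∀ i, 0 < l i) ∧ 0 < g ∧ (∀ j, (x j : ℝ) = ∑ i, l i * (v (e i) j : ℝ)) ∧
    (∀ q, (z q : ℝ) + g = ∑ i, l i * (w (e i) q : ℝ)) ∧
    Ind1 (fun i => v (e i)) (fun i => w (e i)) ∧
    ∑ i, l i * (1 - b (e i)) - g * ((s : ℝ) - c - 1) < ε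

/-- The sum of the orbifold coefficients on `P^c` is larger than `c + 1`. -/
def ViolC {s r : ℕ} (c : ℕ) (w : Fin r → Fin s → ℕ) (b : Fin r → ℝ) : Prop :=
  ∃ ι : Fin s → Fin r, (∀ q, w (ι q) q ≠ 0) ∧
    ∑ q, (1 - b (ι q)) / (w (ι q) q : ℝ) < (s : ℝ) - c - 1

/-- A hypothetical counterexample: pairs which are not complementary at the level `B m`, but
complementary at the levels `G a m`, `a < m`. -/
structure Fam (n c : ℕ) where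
  s : ℕ → ℕ
  r : ℕ → ℕ
  v : ∀ m, Fin (r m) → Fin n → ℤ
  w : ∀ m, Fin (r m) → Fin (s m) → ℕ
  ε : ℕ → ℝ
  B : ∀ m, Fin (r m) → ℝ
  G : ℕ → ∀ m, Fin (r m) → ℝ
  Z : ∀ m, Fin (r m) → Prop
  c₀ : ℝ
  data : ∀ m, IsData c (v m) (w m)
  hε : ∀ m, 0 ≤ ε m
  hB0 : ∀ m i, 0 ≤ B m i
  hG0 : ∀ a m i, 0 ≤ G a m i
  hc₀ : 0 < c₀
  hZB : ∀ m i, Z m i → B m i = 0
  hZG : ∀ a m i, Z m i → G a m i = 0
  hZB' : ∀ m i, ¬ Z m i → c₀ ≤ B m i
  hZG' : ∀ a m i, ¬ Z m i → c₀ ≤ G a m i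
  hnot : ∀ m, ¬ Complementary c (ε m) (v m) (w m) (B m)
  hyes : ∀ a m, a < m → Complementary c (ε m) (v m) (w m) (G a m)
  hsel : ∀ (K : ℕ) (φ : ℕ → ℕ), StrictMono φ → ∀ e : ∀ m, Fin K → Fin (r (φ m)),
    ∃ g : ℕ → ℕ, StrictMono g ∧ (∀ a b, a ≤ b → ε (φ (g a)) ≤ ε (φ (g b))) ∧
      ∀ a, ∀ δ : ℝ, 0 < δ → ∀ᶠ b in atTop, ∀ i,
        B (φ (g a)) (e (g a) i) ≤ G (φ (g a)) (φ (g b)) (e (g b) i) + δ

end Pool.Agent.Helper98.Arr
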