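import Pool.Agent.Helper98.Arr.Defs

/-!
# Weak duality

A nonnegative combination of the vectors which is a valuation costs at least `ε`.
-/

open Finset

namespace Pool.Agent.Helper98.Arr

theorem Complementary.le_cost {n s r k c : ℕ} {ε : ℝ} {v : Fin r → Fin n → ℤ}
    {w : Fin r → Fin s → ℕ} {b : Fin r → ℝ} (h : Complementary c ε v w b) (e : Fin k → Fin r)
    (l : Fin k → ℝ) (g : ℝ) (hl : ∀ i, 0 ≤ l i) (hg : 0 ≤ g) (x : Fin n → ℤ) (z : Fin s → ℕ)
    (hxz : IsVal c x z) (hx : ∀ j, (x j : ℝ) = ∑ i, l i * (v (e i) j : ℝ))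
    (hz : ∀ q, (z q : ℝ) + g = ∑ i, l i * (w (e i) q : ℝ)) :
    ε ≤ ∑ i, l i * (1 - b (e i)) - g * ((s : ℝ) - c - 1) := by
  obtain ⟨U, hU1, hU2⟩ := h
  have hf : ∀ f : Fin r → ℝ, ∑ i, (∑ i' ∈ univ.filter (fun i' => e i' = i), l i') * f i =
      ∑ i', l i' * f (e i') := by
    intro f
    rw [← Finset.sum_fiberwise univ e (fun i' => l i' * f (e i'))]
    refine Finset.sum_congr rfl fun i _ => ?_
    rw [Finset.sum_mul]
    refine Finset.sum_congr rfl fun i' hi' => ?_
    rw [(Finset.mem_filter.1 hi').2]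
  have hsupp : InSupport v w x z := by
    refine ⟨fun i => ∑ i' ∈ univ.filter (fun i' => e i' = i), l i', g, ?_, hg, ?_, ?_⟩
    · exact fun i => Finset.sum_nonneg fun i' _ => hl i'
    · intro j
      rw [hx j]
      exact (hf fun i => (v i j : ℝ)).symm
    · intro q
      rw [hz q]
      exact (hf fun i => (w i q : ℝ)).symm
  obtain ⟨p, hp, hpe⟩ := hU2 x z hxz hsupp
  obtain ⟨h1, h2⟩ := hU1 p hp
  have h3 : ∑ j, p.1 j * (x j : ℝ) = ∑ i, l i * ∑ j, p.1 j * (v (e i) j : ℝ) := by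
    simp_rw [Finset.mul_sum]
    rw [Finset.sum_comm]
    refine Finset.sum_congr rfl fun j _ => ?_
    rw [hx j, Finset.mul_sum]
    exact Finset.sum_congr rfl fun i _ => by ring
  have h4 : ∑ q, p.2 q * (z q : ℝ) =
      (∑ i, l i * ∑ q, p.2 q * (w (e i) q : ℝ)) - g * ∑ q, p.2 q := by
    have h5 : ∑ i, l i * ∑ q, p.2 q * (w (e i) q : ℝ) =
        ∑ q, p.2 q * ∑ i, l i * (w (e i) q : ℝ) := by
      simp_rw [Finset.mul_sum]
      rw [Finset.sum_comm]
      exact Finset.sum_congr rfl fun q _ => Finset.sum_congr rfl fun i _ => by ring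
    rw [h5, Finset.mul_sum, ← Finset.sum_sub_distrib]
    refine Finset.sum_congr rfl fun q _ => ?_
    rw [← hz q]
    ring
  have h5 : ∑ i, l i * ∑ j, p.1 j * (v (e i) j : ℝ) +
      ∑ i, l i * ∑ q, p.2 q * (w (e i) q : ℝ) ≤ ∑ i, l i * (1 - b (e i)) := by
    rw [← Finset.sum_add_distrib]
    refine Finset.sum_le_sum fun i _ => ?_
    rw [← mul_add]
    exact mul_le_mul_of_nonneg_left (h1 (e i)) (hl i)
  have h6 : (s : ℝ) - c - 1 ≤ ∑ q, p.2 q := by
    rw [Finset.sum_sub_distrib, Finset.sum_const, Finset.card_univ, Fintype.card_fin,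
      nsmul_eq_mul, mul_one] at h2
    linarith
  have h7 := mul_le_mul_of_nonneg_left h6 hg
  rw [h3, h4] at hpe
  linarith

theorem Complementary.good {n s r k c : ℕ} {ε : ℝ} {v : Fin r → Fin n → ℤ}
    {w : Fin r → Fin s → ℕ} {b : Fin r → ℝ} (h : Complementary c ε v w b)
    (e : Fin k → Fin r) :
    Good c ε (fun i => v (e i)) (fun i => w (e i)) 0 Finset.univ (fun i => b (e i)) := by
  intro μ g x z hμ hg hval _ hx hz
  have h1 := h.le_cost e μ g hμ hg x z hval (fun j => by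
    rw [hx j]
    simp) (fun q => hz q (Finset.mem_univ q))
  rw [Finset.card_univ, Fintype.card_fin]
  exact h1

theorem Complementary.mono {n s r c : ℕ} {ε : ℝ} {v : Fin r → Fin n → ℤ}
    {w : Fin r → Fin s → ℕ} {b b' : Fin r → ℝ} (h : Complementary c ε v w b)
    (hb : ∀ i, b' i ≤ b i) : Complementary c ε v w b' := by
  obtain ⟨U, hU1, hU2⟩ := h
  refine ⟨U, fun p hp => ⟨fun i => ?_, (hU1 p hp).2⟩, hU2⟩
  have h1 := (hU1 p hp).1 i
  have h2 := hb i
  linarith

/-- Each prime divisor is a valuation: its coefficient is at most `1 - ε`. -/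
theorem Complementary.coef_le {n s r c : ℕ} {ε : ℝ} {v : Fin r → Fin n → ℤ}
    {w : Fin r → Fin s → ℕ} {b : Fin r → ℝ} (hd : IsData c v w)
    (h : Complementary c ε v w b) (i : Fin r) : ε ≤ 1 - b i := by
  have hval : IsVal c (v i) (w i) := by
    refine ⟨hd.2.1 i, ?_⟩
    have h1 : (Finset.univ.filter fun q => w i q ≠ 0).card ≤ 1 := by
      rw [Finset.card_le_one]
      intro q hq q' hq'
      exact hd.2.2 i q q' (Finset.mem_filter.1 hq).2 (Finset.mem_filter.1 hq').2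
    rcases hd.1 with ⟨_, hs⟩ | ⟨hc, _⟩
    · subst hs
      simp
    · exact h1.trans hc
  have h1 := h.le_cost (k := 1) (fun _ => i) (fun _ => 1) 0 (fun _ => zero_le_one) le_rfl
    (v i) (w i) hval (fun j => by simp) (fun q => by simp)
  simpa using h1

end Pool.Agent.Helper98.Arr
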