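import Pool.Agent.Helper98.Arr.Viol
import Pool.Agent.Helper98.Arr.CaseA
import Pool.Agent.Helper98.Arr.CaseB
import Pool.Agent.Helper98.Arr.CaseC

/-!
# There is no counterexample family
-/

open Finset Filter Topology

namespace Pool.Agent.Helper98.Arr

theorem Fam.false {n c : ℕ} (F : Fam n c) : False := by
  have hv := fun m => exists_violation (F.hε m) (F.v m) (F.w m) (F.data m) (F.B m) (F.hnot m)
  have key : ∀ P : ℕ → Prop, (∀ φ : ℕ → ℕ, StrictMono φ → (∀ m, P (φ m)) → False) →
      ∀ᶠ m in atTop, ¬ P m := by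
    intro P hP
    by_contra hcon
    rw [not_eventually] at hcon
    simp only [not_not] at hcon
    obtain ⟨φ, hφ, hφP⟩ := Filter.extraction_of_frequently_atTop hcon
    exact hP φ hφ hφP
  have h1 := key (fun m => ViolA c (F.ε m) (F.v m) (F.w m) (F.B m)) F.caseA
  have h2 := key (fun m => ViolB c (F.ε m) (F.v m) (F.w m) (F.B m)) F.caseB
  have h3 := key (fun m => ViolC c (F.w m) (F.B m)) F.caseC
  obtain ⟨m, ha, hb, hc⟩ := (h1.and (h2.and h3)).exists
  rcases hv m with h | h | h
  · exact ha h
  · exact hb h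
  · exact hc h

end Pool.Agent.Helper98.Arr
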