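import Pool.Agent.Helper98.Arr.Defs

/-!
# The minimum over the hyperplanes, as a function of a matrix and of the multiplicities

`pageA w i j`: the rays `i` and `j` lie over the same hyperplane; `pageM w i`: the multiplicity.
`pageD A M μ`: the minimum over the `i` with `A i i` of `∑ j, if A i j then μ j * M j else 0`.

`pageD_continuous`: `Finset.inf'` of continuous functions (`Continuous.finset_inf'_apply`).
`pageD_mono`: termwise. `Red.pageD_le`, `Red.exists_pageD_eq`: for `q ∈ S` choose `i` with
`w i q ≠ 0` (`page`); then for all `j`: `pageA w i j ↔ w j q ≠ 0` (`uniq`), and in that case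
`pageM w j = w j q`; so the sum is `∑ j, μ j * w j q`. Conversely each `i` with
`pageA w i i` has some `q` with `w i q ≠ 0`, which is in `S` (`supp`).
-/

open Finset

namespace Pool.Agent.Helper98.Arr

open Classical in
/-- Two rays lie over the same hyperplane. -/
noncomputable def pageA {s k : ℕ} (w : Fin k → Fin s → ℕ) : Fin k → Fin k → Bool :=
  fun i j => decide (∃ q, w i q ≠ 0 ∧ w j q ≠ 0)

/-- The multiplicity of a ray. -/
def pageM {s k : ℕ} (w : Fin k → Fin s → ℕ) : Fin k → ℕ := fun i => ∑ q, w i q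

/-- The minimum over the hyperplanes. -/
noncomputable def pageD {k : ℕ} (A : Fin k → Fin k → Bool) (M : Fin k → ℕ) (μ : Fin k → ℝ) : ℝ :=
  if h : (Finset.univ.filter fun i => A i i = true).Nonempty then
    (Finset.univ.filter fun i => A i i = true).inf' h
      (fun i => ∑ j, if A i j = true then μ j * (M j : ℝ) else 0)
  else 0

theorem pageD_continuous {k : ℕ} (A : Fin k → Fin k → Bool) (M : Fin k → ℕ) :
    Continuous (pageD A M) := by
  by_cases h : (Finset.univ.filter fun i => A i i = true).Nonempty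
  · have e : pageD A M = fun μ => (Finset.univ.filter fun i => A i i = true).inf' h
        (fun i => ∑ j, if A i j = true then μ j * (M j : ℝ) else 0) := by
      funext μ
      unfold pageD
      rw [dif_pos h]
    rw [e]
    refine Continuous.finset_inf'_apply h fun i _ => continuous_finsetSum _ fun j _ => ?_
    by_cases hij : A i j = true
    · simp only [hij, if_true]
      exact (continuous_apply j).mul continuous_const
    · simp only [hij]
      exact continuous_const
  · have e : pageD A M = fun _ => 0 := by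
      funext μ
      unfold pageD
      rw [dif_neg h]
    rw [e]
    exact continuous_const

theorem pageD_mono {k : ℕ} (A : Fin k → Fin k → Bool) (M M' : Fin k → ℕ) (μ : Fin k → ℝ)
    (hM : ∀ i, M i ≤ M' i) (hμ : ∀ i, 0 ≤ μ i) : pageD A M μ ≤ pageD A M' μ := by
  unfold pageD
  by_cases h : (Finset.univ.filter fun i => A i i = true).Nonempty
  · rw [dif_pos h, dif_pos h]
    refine Finset.le_inf' _ _ fun i hi => ?_
    refine (Finset.inf'_le _ hi).trans (Finset.sum_le_sum fun j _ => ?_)
    split_ifs
    · exact mul_le_mul_of_nonneg_left (Nat.cast_le.2 (hM j)) (hμ j)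
    · exact le_refl _
  · rw [dif_neg h, dif_neg h]

private theorem sum_page {s k : ℕ} {w : Fin k → Fin s → ℕ}
    (hu : ∀ i q q', w i q ≠ 0 → w i q' ≠ 0 → q = q') (μ : Fin k → ℝ) {i : Fin k} {q : Fin s}
    (hi : w i q ≠ 0) :
    (∑ j, if pageA w i j = true then μ j * (pageM w j : ℝ) else 0) = ∑ j, μ j * (w j q : ℝ) := by
  refine Finset.sum_congr rfl fun j _ => ?_
  by_cases hj : w j q = 0
  · have h1 : ¬ pageA w i j = true := by
      unfold pageA
      rw [decide_eq_true_eq]
      rintro ⟨q', h1, h2⟩
      have := hu i q q' hi h1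
      subst this
      exact h2 hj
    rw [if_neg h1, hj]
    simp
  · have h1 : pageA w i j = true := by
      unfold pageA
      rw [decide_eq_true_eq]
      exact ⟨q, hi, hj⟩
    have h2 : pageM w j = w j q := by
      unfold pageM
      refine Finset.sum_eq_single q (fun q' _ hq' => ?_) (fun h => absurd (Finset.mem_univ _) h)
      by_contra h0
      exact hq' (hu j q' q h0 hj)
    rw [if_pos h1, h2]

theorem Red.pageD_le {n s k c : ℕ} {v : Fin k → Fin n → ℤ} {w : Fin k → Fin s → ℕ}
    {V : Fin n → ℤ} {S : Finset (Fin s)} (hR : Red c v w V S) (μ : Fin k → ℝ) (q : Fin s)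
    (hq : q ∈ S) : pageD (pageA w) (pageM w) μ ≤ ∑ i, μ i * (w i q : ℝ) := by
  obtain ⟨i, hi⟩ := hR.page q hq
  have hii : pageA w i i = true := by
    unfold pageA
    rw [decide_eq_true_eq]
    exact ⟨q, hi, hi⟩
  have hmem : i ∈ Finset.univ.filter fun i => pageA w i i = true :=
    Finset.mem_filter.2 ⟨Finset.mem_univ _, hii⟩
  unfold pageD
  rw [dif_pos ⟨i, hmem⟩, ← sum_page hR.uniq μ hi]
  exact Finset.inf'_le (fun i => ∑ j, if pageA w i j = true then μ j * (pageM w j : ℝ) else 0) hmem

theorem Red.exists_pageD_eq {n s k c : ℕ} {v : Fin k → Fin n → ℤ} {w : Fin k → Fin s → ℕ}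
    {V : Fin n → ℤ} {S : Finset (Fin s)} (hR : Red c v w V S) (μ : Fin k → ℝ) :
    ∃ q ∈ S, pageD (pageA w) (pageM w) μ = ∑ i, μ i * (w i q : ℝ) := by
  have hne : S.Nonempty := by
    rw [← Finset.card_pos]
    have := hR.card
    omega
  obtain ⟨q0, hq0⟩ := hne
  obtain ⟨i0, hi0⟩ := hR.page q0 hq0
  have hii : pageA w i0 i0 = true := by
    unfold pageA
    rw [decide_eq_true_eq]
    exact ⟨q0, hi0, hi0⟩
  have hmem : i0 ∈ Finset.univ.filter fun i => pageA w i i = true :=
    Finset.mem_filter.2 ⟨Finset.mem_univ _, hii⟩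
  have hN : (Finset.univ.filter fun i => pageA w i i = true).Nonempty := ⟨i0, hmem⟩
  obtain ⟨i, hi, he⟩ := Finset.exists_mem_eq_inf' hN
    (fun i => ∑ j, if pageA w i j = true then μ j * (pageM w j : ℝ) else 0)
  have hA := (Finset.mem_filter.1 hi).2
  unfold pageA at hA
  rw [decide_eq_true_eq] at hA
  obtain ⟨q, hq, _⟩ := hA
  refine ⟨q, hR.supp i q hq, ?_⟩
  rw [← sum_page hR.uniq μ hq]
  unfold pageD
  rw [dif_pos hN]
  exact he

end Pool.Agent.Helper98.Arr
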