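import Pool.Agent.Helper98.Arr.Defs
import Pool.Agent.Helper31.Toric.Finite

/-!
# The section may depend on the valuation; basic violations

Both lemmas are applications of the linear programming lemmas of Pool/Agent/Helper31/Toric, in
dimension `n + s`, with the vectors of the divisors and the diagonal vector.
-/

open Finset

namespace Pool.Agent.Helper98.Arr

private noncomputable def WW {n s r : ℕ} (v : Fin r → Fin n → ℤ) (w : Fin r → Fin s → ℕ) :
    Fin (r + 1) → Fin (n + s) → ℝ :=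
  Fin.snoc (α := fun _ => Fin (n + s) → ℝ)
    (fun i => Fin.append (fun j => (v i j : ℝ)) (fun q => (w i q : ℝ)))
    (Fin.append (fun _ => (0 : ℝ)) (fun _ => (-1 : ℝ)))

private noncomputable def CC {n s r : ℕ} (c : ℕ) (v : Fin r → Fin n → ℤ) (w : Fin r → Fin s → ℕ)
    (b : Fin r → ℝ) (u0 : Fin n → ℝ) (a0 : Fin s → ℝ) : Fin (r + 1) → ℝ :=
  Fin.snoc (α := fun _ => ℝ)
    (fun i => 1 - b i - (∑ j, u0 j * (v i j : ℝ) + ∑ q, a0 q * (w i q : ℝ)))
    ((c : ℝ) + 1 - ∑ q, (1 - a0 q))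

private theorem WW_cc {n s r : ℕ} (v : Fin r → Fin n → ℤ) (w : Fin r → Fin s → ℕ) (i : Fin r) :
    WW v w i.castSucc = Fin.append (fun j => (v i j : ℝ)) (fun q => (w i q : ℝ)) := by
  unfold WW
  rw [Fin.snoc_castSucc]

private theorem WW_last {n s r : ℕ} (v : Fin r → Fin n → ℤ) (w : Fin r → Fin s → ℕ) :
    WW v w (Fin.last r) = Fin.append (fun _ => (0 : ℝ)) (fun _ => (-1 : ℝ)) := by
  unfold WW
  rw [Fin.snoc_last]

private theorem CC_cc {n s r : ℕ} (c : ℕ) (v : Fin r → Fin n → ℤ) (w : Fin r → Fin s → ℕ)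
    (b : Fin r → ℝ) (u0 : Fin n → ℝ) (a0 : Fin s → ℝ) (i : Fin r) :
    CC c v w b u0 a0 i.castSucc =
      1 - b i - (∑ j, u0 j * (v i j : ℝ) + ∑ q, a0 q * (w i q : ℝ)) := by
  unfold CC
  rw [Fin.snoc_castSucc]

private theorem CC_last {n s r : ℕ} (c : ℕ) (v : Fin r → Fin n → ℤ) (w : Fin r → Fin s → ℕ)
    (b : Fin r → ℝ) (u0 : Fin n → ℝ) (a0 : Fin s → ℝ) :
    CC c v w b u0 a0 (Fin.last r) = (c : ℝ) + 1 - ∑ q, (1 - a0 q) := by
  unfold CC
  rw [Fin.snoc_last]

private theorem pair_app {n s : ℕ} (f : Fin n → ℝ) (g : Fin s → ℝ) (y : Fin (n + s) → ℝ) :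
    ∑ j, Fin.append f g j * y j =
      ∑ j, f j * y (Fin.castAdd s j) + ∑ q, g q * y (Fin.natAdd n q) := by
  rw [Fin.sum_univ_add]
  simp only [Fin.append_left, Fin.append_right]

private theorem CC_nonneg {n s r c : ℕ} (v : Fin r → Fin n → ℤ)
    (w : Fin r → Fin s → ℕ) (b : Fin r → ℝ) (u0 : Fin n → ℝ) (a0 : Fin s → ℝ)
    (h0 : ∀ i, ∑ j, u0 j * (v i j : ℝ) + ∑ q, a0 q * (w i q : ℝ) ≤ 1 - b i)
    (h0' : ∑ q, (1 - a0 q) ≤ (c : ℝ) + 1) (i : Fin (r + 1)) : 0 ≤ CC c v w b u0 a0 i := by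
  refine Fin.lastCases ?_ (fun i => ?_) i
  · rw [CC_last]
    linarith
  · rw [CC_cc]
    have := h0 i
    linarith

/-- a section, translated by the base point, is a point of the polyhedron -/
private theorem sec_iff {n s r c : ℕ} (v : Fin r → Fin n → ℤ)
    (w : Fin r → Fin s → ℕ) (b : Fin r → ℝ) (u0 : Fin n → ℝ) (a0 : Fin s → ℝ)
    (y : Fin (n + s) → ℝ) :
    (∀ i, ∑ j, WW v w i j * y j ≤ CC c v w b u0 a0 i) ↔
      ((∀ i, ∑ j, (y (Fin.castAdd s j) + u0 j) * (v i j : ℝ) +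
        ∑ q, (y (Fin.natAdd n q) + a0 q) * (w i q : ℝ) ≤ 1 - b i) ∧
        ∑ q, (1 - (y (Fin.natAdd n q) + a0 q)) ≤ (c : ℝ) + 1) := by
  have e1 : ∀ i : Fin r, ∑ j, WW v w i.castSucc j * y j =
      ∑ j, (v i j : ℝ) * y (Fin.castAdd s j) + ∑ q, (w i q : ℝ) * y (Fin.natAdd n q) := by
    intro i
    rw [WW_cc, pair_app]
  have e2 : ∑ j, WW v w (Fin.last r) j * y j = - ∑ q, y (Fin.natAdd n q) := by
    rw [WW_last, pair_app]
    simp
  have e3 : ∀ i : Fin r, ∑ j, (y (Fin.castAdd s j) + u0 j) * (v i j : ℝ) +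
        ∑ q, (y (Fin.natAdd n q) + a0 q) * (w i q : ℝ) =
      (∑ j, (v i j : ℝ) * y (Fin.castAdd s j) + ∑ q, (w i q : ℝ) * y (Fin.natAdd n q)) +
        (∑ j, u0 j * (v i j : ℝ) + ∑ q, a0 q * (w i q : ℝ)) := by
    intro i
    simp only [add_mul, Finset.sum_add_distrib]
    have h1 : ∑ j, (v i j : ℝ) * y (Fin.castAdd s j) = ∑ j, y (Fin.castAdd s j) * (v i j : ℝ) :=
      Finset.sum_congr rfl fun j _ => mul_comm _ _
    have h2 : ∑ q, (w i q : ℝ) * y (Fin.natAdd n q) = ∑ q, y (Fin.natAdd n q) * (w i q : ℝ) :=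
      Finset.sum_congr rfl fun j _ => mul_comm _ _
    rw [h1, h2]
    ring
  have e4 : ∑ q, (1 - (y (Fin.natAdd n q) + a0 q)) =
      ∑ q, (1 - a0 q) - ∑ q, y (Fin.natAdd n q) := by
    rw [← Finset.sum_sub_distrib]
    exact Finset.sum_congr rfl fun q _ => by ring
  constructor
  · intro h
    refine ⟨fun i => ?_, ?_⟩
    · have := h i.castSucc
      rw [e1, CC_cc] at this
      rw [e3]
      linarith
    · have := h (Fin.last r)
      rw [e2, CC_last] at this
      rw [e4]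
      linarith
  · rintro ⟨h1, h2⟩ i
    refine Fin.lastCases ?_ (fun i => ?_) i
    · rw [e2, CC_last]
      rw [e4] at h2
      linarith
    · rw [e1, CC_cc]
      have := h1 i
      rw [e3] at this
      linarith

private theorem sec_of {n s r c : ℕ} (v : Fin r → Fin n → ℤ)
    (w : Fin r → Fin s → ℕ) (b : Fin r → ℝ) (u0 : Fin n → ℝ) (a0 : Fin s → ℝ)
    (u : Fin n → ℝ) (a : Fin s → ℝ)
    (h1 : ∀ i, ∑ j, u j * (v i j : ℝ) + ∑ q, a q * (w i q : ℝ) ≤ 1 - b i)
    (h2 : ∑ q, (1 - a q) ≤ (c : ℝ) + 1) (i : Fin (r + 1)) :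
    ∑ j, WW v w i j * (Fin.append (fun j => u j - u0 j) (fun q => a q - a0 q)) j ≤
      CC c v w b u0 a0 i := by
  have h := (sec_iff (c := c) v w b u0 a0
    (Fin.append (fun j => u j - u0 j) (fun q => a q - a0 q))).mpr
  refine h ⟨fun i => ?_, ?_⟩ i
  · simp only [Fin.append_left, Fin.append_right, sub_add_cancel]
    exact h1 i
  · simp only [Fin.append_right, sub_add_cancel]
    exact h2

theorem complementary_of_pointwise {n s r c : ℕ} {ε : ℝ} (v : Fin r → Fin n → ℤ)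
    (w : Fin r → Fin s → ℕ) (b : Fin r → ℝ) (u0 : Fin n → ℝ) (a0 : Fin s → ℝ)
    (h0 : ∀ i, ∑ j, u0 j * (v i j : ℝ) + ∑ q, a0 q * (w i q : ℝ) ≤ 1 - b i)
    (h0' : ∑ q, (1 - a0 q) ≤ (c : ℝ) + 1)
    (h : ∀ (x : Fin n → ℤ) (z : Fin s → ℕ), IsVal c x z → InSupport v w x z →
      ∃ (u : Fin n → ℝ) (a : Fin s → ℝ),
        (∀ i, ∑ j, u j * (v i j : ℝ) + ∑ q, a q * (w i q : ℝ) ≤ 1 - b i) ∧
        ∑ q, (1 - a q) ≤ (c : ℝ) + 1 ∧
        ε ≤ ∑ j, u j * (x j : ℝ) + ∑ q, a q * (z q : ℝ)) :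
    Complementary c ε v w b := by
  classical
  obtain ⟨U, hU1, hU2⟩ := Pool.Agent.Helper31.Toric.exists_finite (WW v w) (CC c v w b u0 a0)
    (CC_nonneg v w b u0 a0 h0 h0')
  refine ⟨U.image fun y => (fun j => y (Fin.castAdd s j) + u0 j,
    fun q => y (Fin.natAdd n q) + a0 q), ?_, ?_⟩
  · intro p hp
    obtain ⟨y, hy, rfl⟩ := Finset.mem_image.mp hp
    exact (sec_iff v w b u0 a0 y).mp (hU1 y hy)
  · intro x z hxz hs
    obtain ⟨u, a, h1, h2, h3⟩ := h x z hxz hs
    obtain ⟨l, g, hl, hg, hx, hz⟩ := hs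
    obtain ⟨y, hy, hle⟩ := hU2 (Fin.append (fun j => (x j : ℝ)) (fun q => (z q : ℝ)))
      ⟨Fin.snoc (α := fun _ => ℝ) l g, fun i => by
          refine Fin.lastCases ?_ (fun i => ?_) i
          · rw [Fin.snoc_last]
            exact hg
          · rw [Fin.snoc_castSucc]
            exact hl i,
        fun j => by
          rw [Fin.sum_univ_castSucc]
          simp only [Fin.snoc_castSucc, Fin.snoc_last, WW_cc, WW_last]
          refine Fin.addCases (fun j => ?_) (fun q => ?_) j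
          · simp only [Fin.append_left]
            rw [hx j]
            ring
          · simp only [Fin.append_right]
            have := hz q
            linarith⟩
      (Fin.append (fun j => u j - u0 j) (fun q => a q - a0 q)) (sec_of v w b u0 a0 u a h1 h2)
    refine ⟨_, Finset.mem_image.mpr ⟨y, hy, rfl⟩, ?_⟩
    rw [pair_app, pair_app] at hle
    simp only [Fin.append_left, Fin.append_right] at hle
    have e1 : ∑ j, (x j : ℝ) * (u j - u0 j) = ∑ j, u j * (x j : ℝ) - ∑ j, u0 j * (x j : ℝ) := by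
      rw [← Finset.sum_sub_distrib]
      exact Finset.sum_congr rfl fun j _ => by ring
    have e2 : ∑ q, (z q : ℝ) * (a q - a0 q) = ∑ q, a q * (z q : ℝ) - ∑ q, a0 q * (z q : ℝ) := by
      rw [← Finset.sum_sub_distrib]
      exact Finset.sum_congr rfl fun j _ => by ring
    have e3 : ∑ j, (y (Fin.castAdd s j) + u0 j) * (x j : ℝ) =
        ∑ j, (x j : ℝ) * y (Fin.castAdd s j) + ∑ j, u0 j * (x j : ℝ) := by
      rw [← Finset.sum_add_distrib]
      exact Finset.sum_congr rfl fun j _ => by ring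
    have e4 : ∑ q, (y (Fin.natAdd n q) + a0 q) * (z q : ℝ) =
        ∑ q, (z q : ℝ) * y (Fin.natAdd n q) + ∑ q, a0 q * (z q : ℝ) := by
      rw [← Finset.sum_add_distrib]
      exact Finset.sum_congr rfl fun j _ => by ring
    dsimp only
    rw [e3, e4]
    rw [e1, e2] at hle
    linarith

theorem exists_basic_violation {n s r c : ℕ} {ε : ℝ} (v : Fin r → Fin n → ℤ)
    (w : Fin r → Fin s → ℕ) (b : Fin r → ℝ) (u0 : Fin n → ℝ) (a0 : Fin s → ℝ)
    (h0 : ∀ i, ∑ j, u0 j * (v i j : ℝ) + ∑ q, a0 q * (w i q : ℝ) ≤ 1 - b i)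
    (h0' : ∑ q, (1 - a0 q) ≤ (c : ℝ) + 1) (x : Fin n → ℤ) (z : Fin s → ℕ)
    (h : ¬ ∃ (u : Fin n → ℝ) (a : Fin s → ℝ),
        (∀ i, ∑ j, u j * (v i j : ℝ) + ∑ q, a q * (w i q : ℝ) ≤ 1 - b i) ∧
        ∑ q, (1 - a q) ≤ (c : ℝ) + 1 ∧
        ε ≤ ∑ j, u j * (x j : ℝ) + ∑ q, a q * (z q : ℝ)) :
    ∃ (k : ℕ) (e : Fin k → Fin r) (l : Fin k → ℝ) (g : ℝ), (∀ i, 0 < l i) ∧ 0 ≤ g ∧
      (∀ j, (x j : ℝ) = ∑ i, l i * (v (e i) j : ℝ)) ∧
      (∀ q, (z q : ℝ) + g = ∑ i, l i * (w (e i) q : ℝ)) ∧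
      ∑ i, l i * (1 - b (e i)) - g * ((s : ℝ) - c - 1) < ε ∧
      (g = 0 → Ind0 (fun i => v (e i)) (fun i => w (e i))) ∧
      (0 < g → Ind1 (fun i => v (e i)) (fun i => w (e i))) := by
  classical
  have hc := CC_nonneg (c := c) v w b u0 a0 h0 h0'
  set X : Fin (n + s) → ℝ := Fin.append (fun j => (x j : ℝ)) (fun q => (z q : ℝ)) with hX
  obtain ⟨S, a, haS, haS', hax, hac, hli⟩ := Pool.Agent.Helper31.Toric.exists_basic (WW v w)
    (CC c v w b u0 a0) hc X (ε - (∑ j, u0 j * (x j : ℝ) + ∑ q, a0 q * (z q : ℝ)))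
    (Pool.Agent.Helper31.Toric.exists_cheap (WW v w) (CC c v w b u0 a0) hc X _ (by
      rintro ⟨y, hy1, hy2⟩
      apply h
      obtain ⟨h1, h2⟩ := (sec_iff v w b u0 a0 y).mp hy1
      refine ⟨_, _, h1, h2, ?_⟩
      rw [hX, pair_app] at hy2
      have e3 : ∑ j, (y (Fin.castAdd s j) + u0 j) * (x j : ℝ) =
          ∑ j, (x j : ℝ) * y (Fin.castAdd s j) + ∑ j, u0 j * (x j : ℝ) := by
        rw [← Finset.sum_add_distrib]
        exact Finset.sum_congr rfl fun j _ => by ring
      have e4 : ∑ q, (y (Fin.natAdd n q) + a0 q) * (z q : ℝ) =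
          ∑ q, (z q : ℝ) * y (Fin.natAdd n q) + ∑ q, a0 q * (z q : ℝ) := by
        rw [← Finset.sum_add_distrib]
        exact Finset.sum_congr rfl fun j _ => by ring
      rw [e3, e4]
      linarith))
  let T : Finset (Fin r) := univ.filter fun i => i.castSucc ∈ S
  have hT : ∀ i, i ∈ T ↔ i.castSucc ∈ S := fun i => by simp [T]
  let φ := T.equivFin.symm
  have hsum : ∀ f : Fin r → ℝ, ∑ i : Fin r, a i.castSucc * f i =
      ∑ i : Fin T.card, a (φ i : Fin r).castSucc * f (φ i) := by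
    intro f
    rw [← Finset.sum_subset (Finset.subset_univ T)
      (fun i _ hi => by rw [haS' i.castSucc (fun hh => hi ((hT i).mpr hh)), zero_mul]),
      ← Finset.sum_coe_sort T]
    exact (Equiv.sum_comp φ (fun i : T => a (i : Fin r).castSucc * f i)).symm
  have hxj : ∀ j, (x j : ℝ) = ∑ i : Fin r, a i.castSucc * (v i j : ℝ) := by
    intro j
    have h1 := hax (Fin.castAdd s j)
    rw [Fin.sum_univ_castSucc] at h1
    simp only [WW_cc, WW_last, hX, Fin.append_left] at h1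
    rw [h1]
    ring
  have hzq : ∀ q, (z q : ℝ) + a (Fin.last r) = ∑ i : Fin r, a i.castSucc * (w i q : ℝ) := by
    intro q
    have h1 := hax (Fin.natAdd n q)
    rw [Fin.sum_univ_castSucc] at h1
    simp only [WW_cc, WW_last, hX, Fin.append_right] at h1
    rw [h1]
    ring
  have hg : 0 ≤ a (Fin.last r) := by
    by_cases hl : Fin.last r ∈ S
    · exact (haS _ hl).le
    · exact (haS' _ hl).ge
  refine ⟨T.card, fun i => φ i, fun i => a (φ i : Fin r).castSucc, a (Fin.last r),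
    fun i => haS _ ((hT _).mp (φ i).2), hg, fun j => ?_, fun q => ?_, ?_, ?_, ?_⟩
  · rw [hxj j]
    exact hsum _
  · rw [hzq q]
    exact hsum _
  · have h1 := hac
    rw [Fin.sum_univ_castSucc] at h1
    simp only [CC_cc, CC_last] at h1
    have e1 : ∑ i : Fin r, a i.castSucc *
        (1 - b i - (∑ j, u0 j * (v i j : ℝ) + ∑ q, a0 q * (w i q : ℝ))) =
        ∑ i : Fin r, a i.castSucc * (1 - b i) - (∑ j, u0 j * (x j : ℝ) +
          ∑ q, a0 q * ((z q : ℝ) + a (Fin.last r))) := by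
      have e2 : ∑ j, u0 j * (x j : ℝ) = ∑ i : Fin r, a i.castSucc * ∑ j, u0 j * (v i j : ℝ) := by
        simp only [hxj, Finset.mul_sum]
        rw [Finset.sum_comm]
        exact Finset.sum_congr rfl fun i _ => Finset.sum_congr rfl fun j _ => by ring
      have e3 : ∑ q, a0 q * ((z q : ℝ) + a (Fin.last r)) =
          ∑ i : Fin r, a i.castSucc * ∑ q, a0 q * (w i q : ℝ) := by
        simp only [hzq, Finset.mul_sum]
        rw [Finset.sum_comm]
        exact Finset.sum_congr rfl fun i _ => Finset.sum_congr rfl fun j _ => by ring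
      rw [e2, e3, ← Finset.sum_add_distrib, ← Finset.sum_sub_distrib]
      exact Finset.sum_congr rfl fun i _ => by ring
    rw [e1] at h1
    have e4 : ∑ q, a0 q * ((z q : ℝ) + a (Fin.last r)) =
        ∑ q, a0 q * (z q : ℝ) + (∑ q, a0 q) * a (Fin.last r) := by
      rw [Finset.sum_mul, ← Finset.sum_add_distrib]
      exact Finset.sum_congr rfl fun i _ => by ring
    have e5 : ∑ q : Fin s, (1 - a0 q) = (s : ℝ) - ∑ q, a0 q := by
      rw [Finset.sum_sub_distrib]
      simp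
    rw [e4, e5] at h1
    have e6 := hsum (fun i => 1 - b i)
    rw [← e6]
    nlinarith [h1]
  · intro _ μ h1 h2
    have hli2 : LinearIndependent ℝ (fun i : Fin T.card => WW v w (φ i : Fin r).castSucc) :=
      hli.comp (fun i : Fin T.card => (⟨(φ i : Fin r).castSucc, (hT _).mp (φ i).2⟩ : S))
        (fun i i' hii => φ.injective (Subtype.ext
          (Fin.castSucc_injective _ (congrArg (fun t : S => (t : Fin (r + 1))) hii))))
    have h3 := Fintype.linearIndependent_iff.mp hli2 μ (by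
      funext j
      rw [Finset.sum_apply]
      simp only [Pi.smul_apply, smul_eq_mul, Pi.zero_apply, WW_cc]
      refine Fin.addCases (fun j => ?_) (fun q => ?_) j
      · simp only [Fin.append_left]
        exact h1 j
      · simp only [Fin.append_right]
        exact h2 q)
    funext i
    exact h3 i
  · intro hgpos μ hh h1 h2
    have hlast : Fin.last r ∈ S := by
      by_contra hl
      rw [haS' _ hl] at hgpos
      exact lt_irrefl _ hgpos
    let f : Option (Fin T.card) → S := fun o => o.elim ⟨Fin.last r, hlast⟩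
      (fun i => ⟨(φ i : Fin r).castSucc, (hT _).mp (φ i).2⟩)
    have hf : Function.Injective f := by
      rintro (_ | i) (_ | i') hii
      · rfl
      · exfalso
        have := congrArg (fun t : S => (t : Fin (r + 1))) hii
        exact (Fin.castSucc_lt_last (φ i' : Fin r)).ne this.symm
      · exfalso
        have := congrArg (fun t : S => (t : Fin (r + 1))) hii
        exact (Fin.castSucc_lt_last (φ i : Fin r)).ne this
      · have h3 : (φ i : Fin r).castSucc = (φ i' : Fin r).castSucc :=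
          congrArg (fun t : S => (t : Fin (r + 1))) hii
        rw [φ.injective (Subtype.ext (Fin.castSucc_injective _ h3))]
    have hli2 : LinearIndependent ℝ (fun o : Option (Fin T.card) => WW v w (f o)) :=
      hli.comp f hf
    have h3 := Fintype.linearIndependent_iff.mp hli2 (fun o => o.elim hh μ) (by
      rw [Fintype.sum_option]
      funext j
      rw [Pi.add_apply, Finset.sum_apply]
      simp only [Pi.smul_apply, smul_eq_mul, Pi.zero_apply, f, Option.elim, WW_cc, WW_last]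
      refine Fin.addCases (fun j => ?_) (fun q => ?_) j
      · simp only [Fin.append_left]
        rw [h1 j]
        ring
      · simp only [Fin.append_right]
        rw [h2 q]
        ring)
    refine ⟨?_, h3 none⟩
    funext i
    exact h3 (some i)

end Pool.Agent.Helper98.Arr
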