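import Pool.Agent.Helper98.Arr.Defs

/-!
# Removing trivial hyperplanes
-/

open Finset

namespace Pool.Agent.Helper98.Arr

open Classical in
theorem exists_reduction {n s k c : ℕ} {ε : ℝ} (hc : 1 ≤ c) (hs : c + 1 ≤ s)
    (v : Fin k → Fin n → ℤ) (w : Fin k → Fin s → ℕ)
    (huniq : ∀ i q q', w i q ≠ 0 → w i q' ≠ 0 → q = q') (hind : Ind1 v w)
    (Z : Fin k → Prop) (B : Fin k → ℝ) (hZB : ∀ i, Z i → B i = 0) (l : Fin k → ℝ) (g : ℝ)
    (x : Fin n → ℤ) (z : Fin s → ℕ) (hl : ∀ i, 0 < l i) (hg : 0 < g) (hval : IsVal c x z)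
    (hx : ∀ j, (x j : ℝ) = ∑ i, l i * (v i j : ℝ))
    (hz : ∀ q, (z q : ℝ) + g = ∑ i, l i * (w i q : ℝ))
    (hlt : ∑ i, l i * (1 - B i) - g * ((s : ℝ) - c - 1) < ε) :
    ∃ (k' : ℕ) (f : Fin k' → Fin k) (V : Fin n → ℤ) (S : Finset (Fin s)) (l' : Fin k' → ℝ)
      (D : ℝ), Function.Injective f ∧ Red c (fun i => v (f i)) (fun i => w (f i)) V S ∧
      (∀ (ε' : ℝ) (b : Fin k → ℝ), (∀ i, Z i → b i = 0) →
        Good c ε' v w 0 Finset.univ b →
        Good c ε' (fun i => v (f i)) (fun i => w (f i)) V S (fun i => b (f i))) ∧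
      (∀ i, 0 < l' i) ∧ (WithLp.toLp 2 l' : EuclideanSpace ℝ (Fin k')) ∈
        grp (fun i => v (f i)) (fun i => w (f i)) V S ∧
      (∀ q ∈ S, D ≤ ∑ i, l' i * (w (f i) q : ℝ)) ∧
      (∃ q ∈ S, D = ∑ i, l' i * (w (f i) q : ℝ)) ∧
      ∑ i, l' i * (1 - B (f i)) - ((S.card : ℝ) - c - 1) * D < ε ∧
      S.card = max ((Finset.univ : Finset (Fin s)).filter fun q =>
        ¬ ∃ i, w i q = 1 ∧ Z i ∧ ∀ i', w i' q ≠ 0 → i' = i).card (c + 1) := by
  obtain ⟨N, hN⟩ : ∃ N : Finset (Fin s), N = ((Finset.univ : Finset (Fin s)).filter fun q =>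
        ¬ ∃ i, w i q = 1 ∧ Z i ∧ ∀ i', w i' q ≠ 0 → i' = i) := ⟨_, rfl⟩
  rw [← hN]
  have hNs : N.card ≤ s := by
    have := Finset.card_le_univ N
    rwa [Fintype.card_fin] at this
  obtain ⟨S, hNS, -, hScard⟩ := Finset.exists_subsuperset_card_eq (Finset.subset_univ N)
    (le_max_left N.card (c + 1)) (by
      rw [Finset.card_univ, Fintype.card_fin]
      exact max_le hNs hs)
  have hSc : c + 1 ≤ S.card := by
    rw [hScard]
    exact le_max_right _ _
  -- every coordinate is met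
  have hmeet : ∀ q, ∃ i, w i q ≠ 0 := by
    intro q
    by_contra hcon
    push Not at hcon
    have h1 := hz q
    rw [Finset.sum_eq_zero (fun i _ => by rw [hcon i, Nat.cast_zero, mul_zero])] at h1
    have h2 : (0 : ℝ) ≤ z q := Nat.cast_nonneg _
    linarith
  have hne : Nonempty (Fin k) := by
    obtain ⟨i, -⟩ := hmeet ⟨0, by omega⟩
    exact ⟨i⟩
  have hρ : ∀ q, ∃ i, q ∉ S → w i q = 1 ∧ Z i ∧ ∀ i', w i' q ≠ 0 → i' = i := by
    intro q
    by_cases hq : q ∈ S
    · exact ⟨Classical.arbitrary _, fun h => absurd hq h⟩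
    · have h1 : q ∉ N := fun h => hq (hNS h)
      rw [hN, Finset.mem_filter, not_and, not_not] at h1
      obtain ⟨i, hi⟩ := h1 (Finset.mem_univ q)
      exact ⟨i, fun _ => hi⟩
  choose ρ hρ using hρ
  obtain ⟨I, hI⟩ : ∃ I : Finset (Fin k), I = Finset.univ.filter (fun i => ∀ q, w i q ≠ 0 → q ∈ S) :=
    ⟨_, rfl⟩
  have hmI : ∀ i, i ∈ I ↔ ∀ q, w i q ≠ 0 → q ∈ S := by
    intro i
    rw [hI, Finset.mem_filter]
    exact ⟨fun h => h.2, fun h => ⟨Finset.mem_univ i, h⟩⟩
  have hρI : ∀ q, q ∉ S → ρ q ∉ I := by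
    intro q hq h
    refine hq ((hmI _).mp h q ?_)
    rw [(hρ q hq).1]
    exact one_ne_zero
  have hρinj : ∀ q, q ∉ S → ∀ q', q' ∉ S → ρ q = ρ q' → q = q' := by
    intro q hq q' hq' h
    refine huniq (ρ q) q q' ?_ ?_
    · rw [(hρ q hq).1]
      exact one_ne_zero
    · rw [h, (hρ q' hq').1]
      exact one_ne_zero
  -- the enumeration of I
  obtain ⟨f, hf⟩ : ∃ f : Fin I.card → Fin k, f = fun i' => ((I.equivFin.symm i' : I) : Fin k) :=
    ⟨_, rfl⟩
  have hfI : ∀ i', f i' ∈ I := by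
    intro i'
    rw [hf]
    exact (I.equivFin.symm i').2
  have hfinj : Function.Injective f := by
    intro a b hab
    rw [hf] at hab
    exact I.equivFin.symm.injective (Subtype.ext hab)
  have hsumI : ∀ F : Fin k → ℝ, ∑ i', F (f i') = ∑ i ∈ I, F i := by
    intro F
    rw [hf]
    rw [Equiv.sum_comp I.equivFin.symm (fun i : I => F i), Finset.sum_coe_sort]
  have hcompl : Iᶜ = (Sᶜ).image ρ := by
    ext i
    rw [Finset.mem_compl, Finset.mem_image]
    constructor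
    · intro h
      rw [hmI] at h
      push Not at h
      obtain ⟨q, hq1, hq2⟩ := h
      exact ⟨q, Finset.mem_compl.mpr hq2, ((hρ q hq2).2.2 i hq1).symm⟩
    · rintro ⟨q, hq1, hq2⟩
      rw [← hq2]
      exact hρI q (Finset.mem_compl.mp hq1)
  have hsum : ∀ F : Fin k → ℝ, ∑ i, F i = ∑ i', F (f i') + ∑ q ∈ Sᶜ, F (ρ q) := by
    intro F
    rw [hsumI, ← Finset.sum_add_sum_compl I F, hcompl, Finset.sum_image]
    intro q hq q' hq' h
    exact hρinj q (Finset.mem_compl.mp hq) q' (Finset.mem_compl.mp hq') h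
  -- multiplicities of the removed rays
  have hwf : ∀ q, q ∉ S → ∀ i', w (f i') q = 0 := by
    intro q hq i'
    by_contra h
    exact hq ((hmI _).mp (hfI i') q h)
  have hwρ : ∀ q q', q' ∉ S → q ≠ q' → w (ρ q') q = 0 := by
    intro q q' hq' h
    by_contra h1
    refine h (huniq (ρ q') q q' h1 ?_)
    rw [(hρ q' hq').1]
    exact one_ne_zero
  have hW0 : ∀ (F : Fin s → ℝ), ∀ q ∈ S, ∑ q' ∈ Sᶜ, F q' * (w (ρ q') q : ℝ) = 0 := by
    intro F q hq
    refine Finset.sum_eq_zero fun q' hq' => ?_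
    have h1 : q' ∉ S := Finset.mem_compl.mp hq'
    rw [hwρ q q' h1 (fun h => h1 (h ▸ hq)), Nat.cast_zero, mul_zero]
  have hW1 : ∀ (F : Fin s → ℝ), ∀ q, q ∉ S → ∑ q' ∈ Sᶜ, F q' * (w (ρ q') q : ℝ) = F q := by
    intro F q hq
    rw [Finset.sum_eq_single q]
    · rw [(hρ q hq).1, Nat.cast_one, mul_one]
    · intro q' hq' h
      rw [hwρ q q' (Finset.mem_compl.mp hq') h.symm, Nat.cast_zero, mul_zero]
    · intro h
      exact absurd (Finset.mem_compl.mpr hq) h
  -- extensions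
  obtain ⟨ext, hext⟩ : ∃ ext : (Fin I.card → ℝ) → ℝ → Fin k → ℝ, ext = fun μ h i =>
      if hi : i ∈ I then μ (I.equivFin ⟨i, hi⟩) else h := ⟨_, rfl⟩
  have hext1 : ∀ μ h i', ext μ h (f i') = μ i' := by
    intro μ h i'
    rw [hext]
    show (if hi : f i' ∈ I then μ (I.equivFin ⟨f i', hi⟩) else h) = μ i'
    rw [dif_pos (hfI i')]
    congr 1
    rw [← Equiv.eq_symm_apply]
    apply Subtype.ext
    show f i' = _
    rw [hf]
  have hext2 : ∀ μ h q, q ∉ S → ext μ h (ρ q) = h := by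
    intro μ h q hq
    rw [hext]
    exact dif_neg (hρI q hq)
  have hextF : ∀ (μ : Fin I.card → ℝ) (h : ℝ) (F : Fin k → ℝ), ∑ i, ext μ h i * F i =
      ∑ i', μ i' * F (f i') + ∑ q ∈ Sᶜ, h * F (ρ q) := by
    intro μ h F
    rw [hsum]
    congr 1
    · exact Finset.sum_congr rfl fun i' _ => by rw [hext1]
    · exact Finset.sum_congr rfl fun q hq => by rw [hext2 μ h q (Finset.mem_compl.mp hq)]
  have hextw : ∀ (μ : Fin I.card → ℝ) (h : ℝ) (q : Fin s), ∑ i, ext μ h i * (w i q : ℝ) =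
      if q ∈ S then ∑ i', μ i' * (w (f i') q : ℝ) else h := by
    intro μ h q
    rw [hextF μ h (fun i => (w i q : ℝ))]
    split_ifs with hq
    · rw [hW0 (fun _ => h) q hq, add_zero]
    · rw [hW1 (fun _ => h) q hq, Finset.sum_eq_zero (fun i' _ => by
        rw [hwf q hq i', Nat.cast_zero, mul_zero]), zero_add]
  have hlρ : ∀ q, q ∉ S → l (ρ q) = g + z q := by
    intro q hq
    have h1 := hz q
    rw [Finset.sum_eq_single (ρ q)] at h1
    · rw [(hρ q hq).1, Nat.cast_one, mul_one] at h1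
      linarith
    · intro i _ hi
      have h2 : w i q = 0 := by
        by_contra h3
        exact hi ((hρ q hq).2.2 i h3)
      rw [h2, Nat.cast_zero, mul_zero]
    · intro h
      exact absurd (Finset.mem_univ _) h
  have hlw : ∀ q ∈ S, ∑ i', l (f i') * (w (f i') q : ℝ) = z q + g := by
    intro q hq
    have h1 := hz q
    rw [hsum (fun i => l i * (w i q : ℝ)), hW0 (fun q' => l (ρ q')) q hq, add_zero] at h1
    exact h1.symm
  have hcardc : ((Sᶜ).card : ℝ) = (s : ℝ) - S.card := by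
    rw [Finset.card_compl, Fintype.card_fin, Nat.cast_sub]
    have := Finset.card_le_univ S
    rwa [Fintype.card_fin] at this
  refine ⟨I.card, f, fun j => ∑ q ∈ Sᶜ, v (ρ q) j, S, fun i' => l (f i'), g, hfinj, ?_, ?_,
    fun i' => hl _, ?_, ?_, ?_, ?_, hScard⟩
  · refine ⟨hc, hSc, ?_, fun i' q q' => huniq (f i') q q', fun i' q h => (hmI _).mp (hfI i') q h,
      ?_⟩
    · intro q hq
      obtain ⟨i, hi⟩ := hmeet q
      have hiI : i ∈ I := by
        rw [hmI]
        intro q' hq'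
        rw [← huniq i q q' hi hq']
        exact hq
      refine ⟨I.equivFin ⟨i, hiI⟩, ?_⟩
      have e : f (I.equivFin ⟨i, hiI⟩) = i := by
        rw [hf]
        simp
      rw [e]
      exact hi
    · intro μ h h1 h2
      obtain ⟨h3, h4⟩ := hind (ext μ h) h (fun j => by
        rw [hextF μ h (fun i => (v i j : ℝ)), ← h1 j]
        push_cast
        rw [Finset.mul_sum]) (fun q => by
        rw [hextw]
        split_ifs with hq
        · exact h2 q hq
        · rfl)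
      refine ⟨funext fun i' => ?_, h4⟩
      rw [← hext1 μ h i', h3]
      rfl
  · intro ε' b hb hGood μ g' x' z' hμ hg' hval' hz0 hx' hz'
    have h1 := hGood (ext μ g') g' x' z' (by
        intro i
        rw [hext]
        show 0 ≤ (if hi : i ∈ I then μ (I.equivFin ⟨i, hi⟩) else g')
        split_ifs
        · exact hμ _
        · exact hg') hg' hval' (fun q hq => absurd (Finset.mem_univ q) hq) (fun j => by
        rw [hextF μ g' (fun i => (v i j : ℝ)), hx' j]
        push_cast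
        rw [Finset.mul_sum]
        simp) (fun q _ => by
        rw [hextw]
        split_ifs with hq
        · exact hz' q hq
        · rw [hz0 q hq, Nat.cast_zero, zero_add])
    rw [hextF μ g' (fun i => 1 - b i)] at h1
    have h2 : ∑ q ∈ Sᶜ, g' * (1 - b (ρ q)) = ((s : ℝ) - S.card) * g' := by
      rw [← hcardc, ← nsmul_eq_mul, ← Finset.sum_const]
      refine Finset.sum_congr rfl fun q hq => ?_
      rw [hb _ (hρ q (Finset.mem_compl.mp hq)).2.1]
      ring
    rw [h2, Finset.card_univ, Fintype.card_fin] at h1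
    have e : ∑ i', μ i' * (1 - b (f i')) + ((s : ℝ) - S.card) * g' - g' * ((s : ℝ) - c - 1) =
        ∑ i', μ i' * (1 - b (f i')) - g' * ((S.card : ℝ) - c - 1) := by ring
    rw [e] at h1
    exact h1
  · rw [mem_grp]
    refine ⟨g, fun j => x j - ∑ q ∈ Sᶜ, (z q : ℤ) * v (ρ q) j, fun j => ?_, fun q hq => ?_⟩
    · have h1 := hx j
      rw [hsum (fun i => l i * (v i j : ℝ))] at h1
      have h2 : ∑ q ∈ Sᶜ, l (ρ q) * (v (ρ q) j : ℝ) =
          g * ∑ q ∈ Sᶜ, (v (ρ q) j : ℝ) + ∑ q ∈ Sᶜ, (z q : ℝ) * (v (ρ q) j : ℝ) := by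
        rw [Finset.mul_sum, ← Finset.sum_add_distrib]
        refine Finset.sum_congr rfl fun q hq => ?_
        rw [hlρ q (Finset.mem_compl.mp hq)]
        ring
      rw [h2] at h1
      push_cast
      rw [h1]
      show _ = ∑ i', l (f i') * (v (f i') j : ℝ) + _
      ring
    · refine ⟨(z q : ℤ), ?_⟩
      show ∑ i', l (f i') * (w (f i') q : ℝ) = _
      rw [hlw q hq]
      push_cast
      ring
  · intro q hq
    rw [hlw q hq]
    have : (0 : ℝ) ≤ z q := Nat.cast_nonneg _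
    linarith
  · obtain ⟨q, hq, hzq⟩ : ∃ q ∈ S, z q = 0 := by
      by_contra hcon
      push Not at hcon
      have h1 : S ⊆ Finset.univ.filter fun q => z q ≠ 0 := fun q hq =>
        Finset.mem_filter.mpr ⟨Finset.mem_univ q, hcon q hq⟩
      have h2 := Finset.card_le_card h1
      have h3 := hval.2
      omega
    refine ⟨q, hq, ?_⟩
    rw [hlw q hq, hzq, Nat.cast_zero, zero_add]
  · have h1 := hsum (fun i => l i * (1 - B i))
    have h2 : ∑ q ∈ Sᶜ, l (ρ q) * (1 - B (ρ q)) = ((s : ℝ) - S.card) * g + ∑ q ∈ Sᶜ, (z q : ℝ) := by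
      rw [← hcardc, ← nsmul_eq_mul, ← Finset.sum_const, ← Finset.sum_add_distrib]
      refine Finset.sum_congr rfl fun q hq => ?_
      rw [hlρ q (Finset.mem_compl.mp hq), hZB _ (hρ q (Finset.mem_compl.mp hq)).2.1]
      ring
    have h3 : (0 : ℝ) ≤ ∑ q ∈ Sᶜ, (z q : ℝ) := Finset.sum_nonneg fun q _ => Nat.cast_nonneg _
    rw [h1, h2] at hlt
    have e : ∑ i', l (f i') * (1 - B (f i')) + (((s : ℝ) - S.card) * g + ∑ q ∈ Sᶜ, (z q : ℝ)) -
        g * ((s : ℝ) - c - 1) = (∑ i', l (f i') * (1 - B (f i')) - ((S.card : ℝ) - c - 1) * g) +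
        ∑ q ∈ Sᶜ, (z q : ℝ) := by ring
    rw [e] at hlt
    linarith

end Pool.Agent.Helper98.Arr
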