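import Mathlib

/-!
# Complementary thresholds on general arrangement varieties: the definitions

Let `X` be a normal variety, projective over an affine variety `Z`, with an effective action of
a torus of dimension `n`, whose rational quotient is `X --> P^c`, such that the torus invariant
prime divisors of `X` which are contained in the exceptional (critical) locus lie over `s`
hyperplanes `H_q` of `P^c` in general position (a general arrangement variety; for `c = 0` these
are the toric varieties, for `c = 1` the rational varieties with a torus action of complexity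
one). The torus invariant prime divisors `D_i`, `i : Fin r`, over the `H_q` or dominating `P^c`
are given by the lattice vectors `(v i, w i)` in `ℤ ^ n × ℕ ^ s`, where `w i` has at most one
non-zero coordinate `q`, the multiplicity of `D_i` over the hyperplane `H_q` (`w i = 0` if `D_i`
dominates `P^c`). The divisor `B = ∑ i, b i D_i` is given by `b : Fin r → ℝ`.
-/

open scoped ENNReal

namespace Pool.Agent.Helper98.Arr

/-- The lattice vector `(x, z)` lies in the support of the valuation fan of `X` (has a centre on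
`X`): modulo the diagonal of `ℝ ^ s` it is a non-negative combination of the vectors of the
`D_i` and of the general hyperplanes of `P^c`. -/
def InSupport {n s r : ℕ} (v : Fin r → Fin n → ℤ) (w : Fin r → Fin s → ℕ)
    (x : Fin n → ℤ) (z : Fin s → ℕ) : Prop :=
  ∃ (l : Fin r → ℝ) (g : ℝ), (∀ i, 0 ≤ l i) ∧ 0 ≤ g ∧
    (∀ j, (x j : ℝ) = ∑ i, l i * (v i j : ℝ)) ∧ ∀ q, (z q : ℝ) + g = ∑ i, l i * (w i q : ℝ)

/-- The vector `(x, z)` is a vector of the lattice of the tropical variety (Bergman fan) of the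
arrangement of `s` hyperplanes of `P^c` in general position, and gives a valuation: it is not
zero, and at most `c` of the coordinates `z q` are non-zero. -/
def IsVal {n s : ℕ} (c : ℕ) (x : Fin n → ℤ) (z : Fin s → ℕ) : Prop :=
  (x ≠ 0 ∨ z ≠ 0) ∧ (Finset.univ.filter fun q => z q ≠ 0).card ≤ c

/-- `U` is a finite set of (real) torus semi-invariant sections of `-(K + B)`, which gives an
`(ε, ℝ)`-complement. A section is given by its weight `u` and by the numbers `a q`, where
`1 - a q` is the order along the hyperplane `H_q` of its function on `P^c` (so that the sum of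
the `1 - a q` is at most `c + 1 = deg (-K)` of `P^c`); it is a section of `-(K + B)` if
`⟨u, v i⟩ + ⟨a, w i⟩ ≤ 1 - b i` for all `i`. The largest value `⟨u, x⟩ + ⟨a, z⟩` is the
log discrepancy at the valuation `(x, z)`, and has to be at least `ε`. -/
def IsComplement {n s r : ℕ} (c : ℕ) (ε : ℝ) (v : Fin r → Fin n → ℤ) (w : Fin r → Fin s → ℕ)
    (b : Fin r → ℝ) (U : Finset ((Fin n → ℝ) × (Fin s → ℝ))) : Prop :=
  (∀ p ∈ U, (∀ i, ∑ j, p.1 j * (v i j : ℝ) + ∑ q, p.2 q * (w i q : ℝ) ≤ 1 - b i) ∧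
    ∑ q, (1 - p.2 q) ≤ (c : ℝ) + 1) ∧
  ∀ (x : Fin n → ℤ) (z : Fin s → ℕ), IsVal c x z → InSupport v w x z →
    ∃ p ∈ U, ε ≤ ∑ j, p.1 j * (x j : ℝ) + ∑ q, p.2 q * (z q : ℝ)

/-- The pair is `(ε, ℝ)`-complementary. -/
def Complementary {n s r : ℕ} (c : ℕ) (ε : ℝ) (v : Fin r → Fin n → ℤ) (w : Fin r → Fin s → ℕ)
    (b : Fin r → ℝ) : Prop :=
  ∃ U : Finset ((Fin n → ℝ) × (Fin s → ℝ)), IsComplement c ε v w b U

/-- The numerical data of a general arrangement variety of complexity `c`: no hyperplanes if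
`c = 0` (toric varieties), and at least `c + 1` hyperplanes if `c ≥ 1` (hyperplanes without
critical divisors can always be added); each prime divisor gives a non-zero lattice vector and
lies over at most one of the hyperplanes. -/
def IsData {n s r : ℕ} (c : ℕ) (v : Fin r → Fin n → ℤ) (w : Fin r → Fin s → ℕ) : Prop :=
  ((c = 0 ∧ s = 0) ∨ (1 ≤ c ∧ c + 1 ≤ s)) ∧ (∀ i, v i ≠ 0 ∨ w i ≠ 0) ∧
    ∀ i q q', w i q ≠ 0 → w i q' ≠ 0 → q = q'

/-- The threshold of `M = ∑ i, m i D_i` with respect to `B = ∑ i, b i D_i`: the supremum, in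
`[0, ∞]`, of the `t ≥ 0` for which `B + t M` is `(ε, ℝ)`-complementary. -/
noncomputable def threshold {n s r : ℕ} (c : ℕ) (ε : ℝ) (v : Fin r → Fin n → ℤ)
    (w : Fin r → Fin s → ℕ) (b m : Fin r → ℝ) : ℝ≥0∞ :=
  ⨆ (t : ℝ) (_ : 0 ≤ t ∧ Complementary c ε v w (fun i => b i + t * m i)), ENNReal.ofReal t

/-- The set of all thresholds in dimension `d = n + c`, with `ε ∈ E`, the non-zero coefficients
of `B` in `Γ₁` and those of `M` in `Γ₂`, over all `(ε, ℝ)`-complementary pairs. -/
def thresholds (d : ℕ) (E Γ₁ Γ₂ : Set ℝ) : Set ℝ≥0∞ :=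
  {t | ∃ ε ∈ E, ∃ (n c s r : ℕ) (v : Fin r → Fin n → ℤ) (w : Fin r → Fin s → ℕ)
    (b m : Fin r → ℝ), n + c = d ∧ IsData c v w ∧ 0 ≤ ε ∧
    (∀ i, (b i = 0 ∨ b i ∈ Γ₁) ∧ 0 ≤ b i) ∧ (∀ i, (m i = 0 ∨ m i ∈ Γ₂) ∧ 0 ≤ m i) ∧
    Complementary c ε v w b ∧ t = threshold c ε v w b m}

/-- The descending chain condition: no strictly decreasing infinite sequence. -/
def DCC (Γ : Set ℝ) : Prop := ¬ ∃ f : ℕ → ℝ, StrictAnti f ∧ ∀ n, f n ∈ Γ

/-- The ascending chain condition: no strictly increasing infinite sequence. -/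
def ACC (S : Set ℝ≥0∞) : Prop := ¬ ∃ f : ℕ → ℝ≥0∞, StrictMono f ∧ ∀ n, f n ∈ S

/-- Existence of decomposed complements in dimension `d = n + c`: there is a finite set `Γ₀`,
depending only on `d`, `E` and `Γ`, such that for every `(ε, ℝ)`-complementary pair with `ε ∈ E`
and the non-zero coefficients of `B` in `Γ`, there is `B' ≥ B` with coefficients in `Γ₀` which is
again `(ε, ℝ)`-complementary. -/
def Decomposed (d : ℕ) (E Γ : Set ℝ) : Prop :=
  ∃ Γ₀ : Set ℝ, Γ₀.Finite ∧ ∀ (n c s r : ℕ) (ε : ℝ) (v : Fin r → Fin n → ℤ)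
    (w : Fin r → Fin s → ℕ) (b : Fin r → ℝ), n + c = d → IsData c v w → ε ∈ E → 0 ≤ ε →
    (∀ i, (b i = 0 ∨ b i ∈ Γ) ∧ 0 ≤ b i) → Complementary c ε v w b →
      ∃ b' : Fin r → ℝ, (∀ i, b i ≤ b' i ∧ b' i ∈ Γ₀) ∧ Complementary c ε v w b'

end Pool.Agent.Helper98.Arr
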