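import Pool.Agent.Helper98.Arr.Dual
import Pool.Agent.Helper98.Arr.Bound
import Pool.Agent.Helper98.Arr.Reduce
import Pool.Agent.Helper98.Arr.Mat

/-!
# Violations with the diagonal: reduced data of bounded size

The trivial hyperplanes of a violating basic combination with the diagonal are removed
(`exists_reduction`); the number of the remaining ones is bounded (`card_nontrivial_le`).
-/

open Finset Filter Topology

namespace Pool.Agent.Helper98.Arr

/-- Reduced data of type `(K, N, A)` for the index `m`. -/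
def RedAt {n c : ℕ} (F : Fam n c) (m K N : ℕ) (A : Fin K → Fin K → Bool) : Prop :=
  ∃ (e : Fin K → Fin (F.r m)) (V : Fin n → ℤ) (S : Finset (Fin (F.s m))) (l : Fin K → ℝ),
    Red c (fun i => F.v m (e i)) (fun i => F.w m (e i)) V S ∧ S.card = N ∧
    pageA (fun i => F.w m (e i)) = A ∧
    (∀ a, a < m → Good c (F.ε m) (fun i => F.v m (e i)) (fun i => F.w m (e i)) V S
      (fun i => F.G a m (e i))) ∧
    (∀ i, 0 < l i) ∧ (WithLp.toLp 2 l : EuclideanSpace ℝ (Fin K)) ∈
      grp (fun i => F.v m (e i)) (fun i => F.w m (e i)) V S ∧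
    ∑ i, l i * (1 - F.B m (e i)) -
      ((N : ℝ) - c - 1) * pageD A (pageM (fun i => F.w m (e i))) l < F.ε m

theorem Fam.exists_redAt {n c : ℕ} (F : Fam n c) : ∃ N₀ : ℕ, ∀ m, 0 < m →
    ViolB c (F.ε m) (F.v m) (F.w m) (F.B m) →
    ∃ (K N : ℕ) (A : Fin K → Fin K → Bool), K ≤ N₀ ∧ N ≤ N₀ ∧ RedAt F m K N A := by
  classical
  obtain ⟨N1, hN1⟩ := exists_nat_ge ((n : ℝ) + ((c : ℝ) + 1) / min (1 / 2) F.c₀)
  refine ⟨n + max N1 (c + 1), ?_⟩
  rintro m hm ⟨k, e, l, g, x, z, hval, hl, hg, hx, hz, hI, hlt⟩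
  have hdata := F.data m
  have hcs : 1 ≤ c ∧ c + 1 ≤ F.s m := by
    rcases hdata.1 with ⟨-, h2⟩ | h
    · exfalso
      have h3 := (hI 0 1 (fun j => by simp) (fun q => by
        have h4 := q.isLt
        omega)).2
      exact one_ne_zero h3
    · exact h
  obtain ⟨hc, hs⟩ := hcs
  have hgood0 := (F.hyes 0 m hm).good e
  have hpage : ∀ q, ∃ i, F.w m (e i) q ≠ 0 := by
    intro q
    by_contra hcon
    push Not at hcon
    have h1 := hz q
    have h2 : ∑ i, l i * (F.w m (e i) q : ℝ) = 0 := by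
      refine Finset.sum_eq_zero fun i _ => ?_
      rw [hcon i, Nat.cast_zero, mul_zero]
    have h3 : (0 : ℝ) ≤ (z q : ℝ) := Nat.cast_nonneg _
    linarith
  have hb1 : ∀ i, F.G 0 m (e i) ≤ 1 := by
    intro i
    have h1 := Complementary.coef_le hdata (F.hyes 0 m hm) (e i)
    have h2 := F.hε m
    linarith
  obtain ⟨k', f, V, S, l', D, hf, hR, htr, hl', hgrp, hD1, ⟨q0, hq0, hD2⟩, hlt', hcard⟩ :=
    exists_reduction hc hs (fun i => F.v m (e i)) (fun i => F.w m (e i))
      (fun i q q' => hdata.2.2 (e i) q q') hI (fun i => F.Z m (e i)) (fun i => F.B m (e i))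
      (fun i hi => F.hZB m (e i) hi) l g x z hl hg hval hx hz hlt
  have hnt := card_nontrivial_le hc hs (fun i => F.v m (e i)) (fun i => F.w m (e i))
      (fun i q q' => hdata.2.2 (e i) q q') hpage hI (fun i => F.Z m (e i))
      (fun i => F.G 0 m (e i)) (F.hε m) (fun i => F.hG0 0 m (e i)) hb1 hgood0 F.c₀ F.hc₀
      (fun i hi => F.hZG' 0 m (e i) hi)
  have hS : S.card ≤ max N1 (c + 1) := by
    rw [hcard]
    refine max_le_max ?_ le_rfl
    exact_mod_cast hnt.trans hN1
  have hk := hR.card_le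
  refine ⟨k', S.card, pageA (fun i => F.w m (e (f i))), by omega, by omega,
    fun i => e (f i), V, S, l', hR, rfl, rfl, ?_, hl', hgrp, ?_⟩
  · intro a ha
    exact htr (F.ε m) (fun i => F.G a m (e i)) (fun i hi => F.hZG a m (e i) hi)
      ((F.hyes a m ha).good e)
  · have hDeq : pageD (pageA (fun i => F.w m (e (f i)))) (pageM (fun i => F.w m (e (f i)))) l' =
        D := by
      apply le_antisymm
      · rw [hD2]
        exact hR.pageD_le l' q0 hq0
      · obtain ⟨q, hq, h1⟩ := hR.exists_pageD_eq l'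
        rw [h1]
        exact hD1 q hq
    rw [hDeq]
    exact hlt'


end Pool.Agent.Helper98.Arr
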