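import Pool.Agent.Helper98.Arr.Dual
import Pool.Agent.Helper98.Arr.Point

/-!
# The three kinds of violations
-/

open Finset

namespace Pool.Agent.Helper98.Arr

private theorem vl_isval {n s r c : ℕ} (v : Fin r → Fin n → ℤ)
    (w : Fin r → Fin s → ℕ) (hd : IsData c v w) (i : Fin r) : IsVal c (v i) (w i) := by
  refine ⟨hd.2.1 i, ?_⟩
  rcases hd.1 with ⟨hc, hs⟩ | ⟨hc, -⟩
  · subst hs
    refine (Finset.card_filter_le _ _).trans ?_
    rw [Finset.card_univ, Fintype.card_fin]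
    exact Nat.zero_le _
  · refine le_trans (Finset.card_le_one.2 ?_) hc
    intro q hq q' hq'
    exact hd.2.2 i q q' (mem_filter.1 hq).2 (mem_filter.1 hq').2

private theorem vl_one {n s r c : ℕ} {ε : ℝ} (v : Fin r → Fin n → ℤ)
    (w : Fin r → Fin s → ℕ) (hd : IsData c v w) (b : Fin r → ℝ) (i : Fin r) (hi : 1 - b i < ε) :
    ViolA c ε v w b := by
  refine ⟨1, fun _ => i, fun _ => 1, v i, w i, vl_isval v w hd i, fun _ => one_pos, ?_, ?_, ?_, ?_⟩
  · intro j
    rw [Fin.sum_univ_one, one_mul]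
  · intro q
    rw [Fin.sum_univ_one, one_mul]
  · intro μ h1 h2
    have h3 : μ 0 = 0 := by
      rcases hd.2.1 i with h | h
      · obtain ⟨j, hj⟩ := Function.ne_iff.1 h
        have h4 := h1 j
        rw [Fin.sum_univ_one] at h4
        rcases mul_eq_zero.1 h4 with h5 | h5
        · exact h5
        · exact absurd (by exact_mod_cast h5) hj
      · obtain ⟨q, hq⟩ := Function.ne_iff.1 h
        have h4 := h2 q
        rw [Fin.sum_univ_one] at h4
        rcases mul_eq_zero.1 h4 with h5 | h5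
        · exact h5
        · exact absurd (by exact_mod_cast h5) hq
    funext i'
    rw [Subsingleton.elim i' 0, h3]
    rfl
  · rw [Fin.sum_univ_one, one_mul]
    exact hi

private theorem vl_base {s r : ℕ} (w : Fin r → Fin s → ℕ) (b : Fin r → ℝ) (hb : ∀ i, 0 ≤ 1 - b i)
    (q : Fin s) : ∃ a : ℝ, 0 ≤ a ∧ (∀ i, w i q ≠ 0 → a * (w i q : ℝ) ≤ 1 - b i) ∧
      ((∃ i, w i q ≠ 0 ∧ a = (1 - b i) / (w i q : ℝ)) ∨ a = s) := by
  classical
  by_cases h : ((univ : Finset (Fin r)).filter (fun i => w i q ≠ 0)).Nonempty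
  · obtain ⟨i, hi, hmin⟩ := Finset.exists_min_image _ (fun i => (1 - b i) / (w i q : ℝ)) h
    have hi' := (mem_filter.1 hi).2
    refine ⟨(1 - b i) / (w i q : ℝ), div_nonneg (hb i) (Nat.cast_nonneg _), ?_, Or.inl ⟨i, hi', rfl⟩⟩
    intro i' hi''
    have h1 := hmin i' (mem_filter.2 ⟨mem_univ _, hi''⟩)
    have h2 : (0 : ℝ) < w i' q := by
      exact_mod_cast Nat.pos_of_ne_zero hi''
    calc (1 - b i) / (w i q : ℝ) * (w i' q : ℝ) ≤ (1 - b i') / (w i' q : ℝ) * (w i' q : ℝ) :=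
          mul_le_mul_of_nonneg_right h1 h2.le
      _ = 1 - b i' := div_mul_cancel₀ _ h2.ne'
  · refine ⟨s, Nat.cast_nonneg _, ?_, Or.inr rfl⟩
    intro i hi
    exact absurd ⟨i, mem_filter.2 ⟨mem_univ _, hi⟩⟩ h

theorem exists_violation {n s r c : ℕ} {ε : ℝ} (hε : 0 ≤ ε) (v : Fin r → Fin n → ℤ)
    (w : Fin r → Fin s → ℕ) (hd : IsData c v w) (b : Fin r → ℝ)
    (h : ¬ Complementary c ε v w b) :
    ViolA c ε v w b ∨ ViolB c ε v w b ∨ ViolC c w b := by
  classical
  by_cases hb : ∃ i, 1 - b i < ε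
  · obtain ⟨i, hi⟩ := hb
    exact Or.inl (vl_one v w hd b i hi)
  have hb' : ∀ i, ε ≤ 1 - b i := fun i => not_lt.1 fun h' => hb ⟨i, h'⟩
  have hb0 : ∀ i, 0 ≤ 1 - b i := fun i => hε.trans (hb' i)
  by_cases hC : ViolC c w b
  · exact Or.inr (Or.inr hC)
  choose a0 ha0 ha1 ha2 using vl_base w b hb0
  have h0 : ∀ i, ∑ j : Fin n, (fun _ => (0 : ℝ)) j * (v i j : ℝ) + ∑ q, a0 q * (w i q : ℝ) ≤ 1 - b i := by
    intro i
    have e1 : ∑ j : Fin n, (fun _ => (0 : ℝ)) j * (v i j : ℝ) = 0 :=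
      Finset.sum_eq_zero fun j _ => zero_mul _
    rw [e1, zero_add]
    by_cases hq : ∃ q, w i q ≠ 0
    · obtain ⟨q, hq⟩ := hq
      rw [Finset.sum_eq_single q]
      · exact ha1 q i hq
      · intro q' _ hne
        have : w i q' = 0 := by
          by_contra h'
          exact hne (hd.2.2 i q' q h' hq)
        rw [this, Nat.cast_zero, mul_zero]
      · intro h'
        exact absurd (mem_univ _) h'
    · have e2 : ∑ q, a0 q * (w i q : ℝ) = 0 := by
        refine Finset.sum_eq_zero fun q _ => ?_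
        have : w i q = 0 := by
          by_contra h'
          exact hq ⟨q, h'⟩
        rw [this, Nat.cast_zero, mul_zero]
      rw [e2]
      exact hb0 i
  have hsum : ∑ q : Fin s, (1 - a0 q) = s - ∑ q, a0 q := by
    rw [Finset.sum_sub_distrib, Finset.sum_const, Finset.card_univ, Fintype.card_fin, nsmul_eq_mul,
      mul_one]
  have h0' : ∑ q, (1 - a0 q) ≤ (c : ℝ) + 1 := by
    rw [hsum]
    have hc0 : (0 : ℝ) ≤ c := Nat.cast_nonneg _
    by_cases hall : ∀ q, ∃ i, w i q ≠ 0 ∧ a0 q = (1 - b i) / (w i q : ℝ)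
    · choose ι hι1 hι2 using hall
      have h1 : ¬ ∑ q, (1 - b (ι q)) / (w (ι q) q : ℝ) < (s : ℝ) - c - 1 := fun h' => hC ⟨ι, hι1, h'⟩
      have h2 : ∑ q, a0 q = ∑ q, (1 - b (ι q)) / (w (ι q) q : ℝ) :=
        Finset.sum_congr rfl fun q _ => hι2 q
      rw [h2]
      have h3 := not_lt.1 h1
      linarith
    · obtain ⟨q0, hq0⟩ := not_forall.1 hall
      have h1 : a0 q0 = s := (ha2 q0).resolve_left hq0
      have h2 : a0 q0 ≤ ∑ q, a0 q := Finset.single_le_sum (fun q _ => ha0 q) (mem_univ q0)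
      linarith
  by_contra hcon
  refine h (complementary_of_pointwise v w b (fun _ => 0) a0 h0 h0' ?_)
  intro x z hxz _
  by_contra hno
  obtain ⟨k, e, l, g, hl, hg, hx, hz, hcost, hi0, hi1⟩ :=
    exists_basic_violation v w b (fun _ => 0) a0 h0 h0' x z hno
  rcases hg.eq_or_lt with h1 | h1
  · refine hcon (Or.inl ⟨k, e, l, x, z, hxz, hl, hx, fun q => ?_, hi0 h1.symm, ?_⟩)
    · have := hz q
      rw [← h1, add_zero] at this
      exact this
    · rw [← h1, zero_mul, sub_zero] at hcost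
      exact hcost
  · exact hcon (Or.inr (Or.inl ⟨k, e, l, g, x, z, hxz, hl, h1, hx, hz, hi1 h1, hcost⟩))

end Pool.Agent.Helper98.Arr
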